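import Pool.Agent.Lib.MP_64d474_lc.Kal.MainT

/-!
# Arithmetic formulas
-/

set_option autoImplicit false

open Finset Module Matrix MvPolynomial

namespace Pool.Agent.Lib.MP_64d474_lc.Kal

theorem mem_hits {m β N D : ℕ} (b : Fin m → Fin β) (hb : Monotone b) (z : Fin N → ℕ)
    (y : Fin β → ℕ) (hz : ∀ j, z j ≤ D) (hy : ∀ i, y i ≤ N * D) : gen b z y ∈ hits m β N D := by
  classical
  unfold hits
  rw [mem_image]
  refine ⟨(b, z, y), ?_, rfl⟩
  rw [mem_product, mem_product, mem_filter, Fintype.mem_piFinset, Fintype.mem_piFinset]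
  exact ⟨⟨mem_univ _, hb⟩, fun j => mem_range.2 (Nat.lt_succ_of_le (hz j)),
    fun i => mem_range.2 (Nat.lt_succ_of_le (hy i))⟩

/-- balanced classes, with any number of classes that is large enough -/
theorem exists_bal (h9 : StBal) {m : ℕ} (a : Fin m → ℕ) {R s β : ℕ} (hR : 1 ≤ R)
    (hs : ∑ k, a k ≤ s) (hβ : 2 * (s / R) + 2 ≤ β) :
    ∃ b : Fin m → Fin β, Monotone b ∧
      ∀ i, (univ.filter fun k => b k = i ∧ a k ≠ 0).card ≤ 1 ∨
        ∑ k ∈ univ.filter (fun k => b k = i), a k + 1 ≤ 2 * R := by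
  classical
  obtain ⟨b, hb, hbi⟩ := h9 m R s a hR hs
  refine ⟨fun k => Fin.castLE hβ (b k), fun k k' h => (Fin.castLE_le_castLE_iff hβ).2 (hb h),
    fun i => ?_⟩
  by_cases hi : ∃ i', Fin.castLE hβ i' = i
  · obtain ⟨i', rfl⟩ := hi
    simp only [(Fin.castLE_injective hβ).eq_iff]
    exact hbi i'
  · left
    rw [Finset.card_eq_zero.2]
    · exact Nat.zero_le _
    · rw [eq_empty_iff_forall_notMem]
      intro k hk
      rw [mem_filter] at hk
      exact hi ⟨b k, hk.2.1⟩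

theorem exists_eval_ne_zero {F : Type*} [Field F] [CharZero F] {m : ℕ}
    (f : MvPolynomial (Fin m) F) (hf : f ≠ 0) : ∃ x, eval x f ≠ 0 := by
  by_contra hcon
  push Not at hcon
  apply hf
  apply MvPolynomial.funext
  intro x
  rw [hcon x, map_zero]

theorem class_of_count {m β : ℕ} {E : Type} [Fintype E] [DecidableEq E]
    (κ : E → Option (Fin m)) (b : Fin m → Fin β) (a : Fin m → ℕ)
    (ha : ∀ k, (univ.filter fun p => κ p = some k).card = a k) (R : ℕ) (i : Fin β)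
    (h : (univ.filter fun k => b k = i ∧ a k ≠ 0).card ≤ 1 ∨
        ∑ k ∈ univ.filter (fun k => b k = i), a k + 1 ≤ 2 * R) :
    (act κ b i).card ≤ 1 ∨ (pcs κ (act κ b i)).card + 1 ≤ 2 * R := by
  classical
  have hact : act κ b i = univ.filter fun k => b k = i ∧ a k ≠ 0 := by
    ext k
    rw [mem_act, mem_filter, ← ha k, Ne, Finset.card_eq_zero, ← Ne,
      ← Finset.nonempty_iff_ne_empty]
    constructor
    · rintro ⟨h3, p, hp⟩
      exact ⟨mem_univ _, h3, p, mem_filter.2 ⟨mem_univ _, hp⟩⟩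
    · rintro ⟨_, h3, p, hp⟩
      exact ⟨h3, p, (mem_filter.1 hp).2⟩
  have hcard : (pcs κ (act κ b i)).card ≤ ∑ k ∈ univ.filter (fun k => b k = i), a k := by
    have e1 : pcs κ (act κ b i) ⊆
        (univ.filter fun k => b k = i).biUnion fun k => univ.filter fun p => κ p = some k := by
      intro p hp
      rw [mem_pcs] at hp
      obtain ⟨k, hk, hkp⟩ := hp
      rw [mem_act] at hk
      exact mem_biUnion.2 ⟨k, mem_filter.2 ⟨mem_univ _, hk.1⟩,
        mem_filter.2 ⟨mem_univ _, hkp⟩⟩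
    refine (card_le_card e1).trans (card_biUnion_le.trans ?_)
    exact sum_le_sum fun k _ => (ha k).le
  rcases h with h3 | h3
  · left
    rw [hact]
    exact h3
  · right
    omega

theorem mainForm.{u} (hT : StMainTree.{u}) (h9 : StBal) (h12 : StGrid.{u}) (h13 : StBoth.{u})
    (h16 : StNet.{u}) (h17 : StDegF.{u}) (F : Type u) [Field F] [CharZero F] (m : ℕ)
    (φ : Fm F m) (s R β N D : ℕ) (hs : ∑ k, φ.occ k ≤ s) (hR : 1 ≤ R)
    (hβ : 2 * (s / R) + 2 ≤ β) (hN : 18 * R ≤ N) (hD : 2 * s ≤ D) (h1 : φ.nd.1 ≠ 0)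
    (h2 : φ.nd.2 ≠ 0) :
    ∃ h ∈ hits m β N D, eval (fun k => (h k : F)) φ.nd.1 ≠ 0 ∧
      eval (fun k => (h k : F)) φ.nd.2 ≠ 0 := by
  classical
  obtain ⟨b, hbm, hb⟩ := exists_bal h9 (fun k => φ.occ k) hR hs hβ
  have key : ∀ ψ : Fm F m, (∀ k, ψ.occ k = φ.occ k) → ψ.nd.2 ≠ 0 →
      ∃ (z : Fin N → F) (y : Fin β → F), eval (gen b z y) ψ.nd.2 ≠ 0 := by
    intro ψ hocc hψ
    obtain ⟨x, hx⟩ := exists_eval_ne_zero _ hψ
    obtain ⟨ι, E, _, _, _, _, P, κ, t, hdet, hgood, hnd, hleaf, hcnt⟩ := h16 F m ψ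
    obtain ⟨z, y, hzy⟩ := hT F ι E P m κ t 1 R β N hgood hnd hleaf le_rfl hR
      (by simpa using hN) b (fun i => class_of_count κ b (fun k => φ.occ k)
        (fun k => (hcnt k).trans (hocc k)) R i (hb i)) x (by rw [hdet]; exact hx)
    exact ⟨z, y, by rwa [hdet] at hzy⟩
  have k2 := key φ (fun _ => rfl) h2
  have k1 := key (Fm.inv φ) (fun _ => rfl) h1
  have k1' : ∃ (z : Fin N → F) (y : Fin β → F), eval (gen b z y) φ.nd.1 ≠ 0 := k1
  have hboth := h13 F m β N b _ _ k1' k2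
  obtain ⟨d1, d2⟩ := h17 F m φ
  have hdeg : (φ.nd.1 * φ.nd.2).totalDegree ≤ D := by
    refine (totalDegree_mul _ _).trans ?_
    omega
  obtain ⟨z, y, hz, hy, hev⟩ := h12 F m β N D b _ hdeg hboth
  refine ⟨gen b z y, mem_hits b hbm z y hz hy, ?_⟩
  rw [map_mul] at hev
  exact ⟨left_ne_zero_of_mul hev, right_ne_zero_of_mul hev⟩

end Pool.Agent.Lib.MP_64d474_lc.Kal
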