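import Mathlib

/-!
# Explicit points for tree-like symbolic matrices and for arithmetic formulas

`gen b z y` is the point with the common sources `z`, the classes `b` of the variables and one
parameter `y i` for every class `i`.  `hits m β N D` is the set of all these points with monotone
class maps `b` and small natural numbers `z`, `y`.
-/

set_option autoImplicit false

open Finset Module

namespace Pool.Agent.Lib.MP_64d474_lc.Kal

/-- the point with the sources `z`, the classes `b` and the class parameters `y` -/
def gen {A : Type*} [Semiring A] {m β N : ℕ} (b : Fin m → Fin β) (z : Fin N → A) (y : Fin β → A)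
    (k : Fin m) : A :=
  ∑ j : Fin N, z j * ((((k : ℕ) + 1 : ℕ) : A) * y (b k)) ^ ((j : ℕ) + 1)

open Classical in
/-- the points `gen b z y` for the monotone maps `b` and natural numbers `z j ≤ D`,
`y i ≤ N * D` -/
noncomputable def hits (m β N D : ℕ) : Finset (Fin m → ℕ) :=
  ((univ.filter fun b : Fin m → Fin β => Monotone b) ×ˢ
    (Fintype.piFinset fun _ : Fin N => range (D + 1)) ×ˢ
    (Fintype.piFinset fun _ : Fin β => range (N * D + 1))).image
  fun q => gen q.1 q.2.1 q.2.2

section Pieces

variable {F : Type*} [Field F] {ι E : Type} [Fintype ι] [Fintype E] [DecidableEq E] {m : ℕ}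

/-- the coefficient of the piece `p`: the constant `1` or the variable `κ p` -/
def cf {A : Type*} [One A] (κ : E → Option (Fin m)) (x : Fin m → A) (p : E) : A := (κ p).elim 1 x

/-- the matrix `∑ c_p P_p`, where `c_p` is `1` or the variable `κ p` -/
def mat (P : E → Matrix ι ι F) (κ : E → Option (Fin m)) (x : Fin m → F) : Matrix ι ι F :=
  ∑ p, cf κ x p • P p

open Classical in
/-- the pieces with a variable in `S` -/
noncomputable def pcs (κ : E → Option (Fin m)) (S : Finset (Fin m)) : Finset E :=
  univ.filter fun p => ∃ k ∈ S, κ p = some k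

open Classical in
/-- the variables of class `i` that occur -/
noncomputable def act {β : ℕ} (κ : E → Option (Fin m)) (b : Fin m → Fin β) (i : Fin β) :
    Finset (Fin m) :=
  univ.filter fun k => b k = i ∧ ∃ p, κ p = some k

/-- the sum of the column spaces of the pieces in `S` -/
def csp (P : E → Matrix ι ι F) (S : Finset E) : Submodule F (ι → F) :=
  ⨆ p ∈ S, LinearMap.range (P p).mulVecLin

/-- the dimension of the sum of the column spaces of the pieces in `S` -/
noncomputable def cdim (P : E → Matrix ι ι F) (S : Finset E) : ℕ := finrank F (csp P S)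

/-- the dimension of the sum of the row spaces of the pieces in `S` -/
noncomputable def rdim (P : E → Matrix ι ι F) (S : Finset E) : ℕ := cdim (fun p => (P p).transpose) S

/-- the set `C` of pieces and its complement meet in at most `w` dimensions -/
def Cut (P : E → Matrix ι ι F) (w : ℕ) (C : Finset E) : Prop :=
  cdim P C + cdim P Cᶜ ≤ Fintype.card ι + w ∧ rdim P C + rdim P Cᶜ ≤ Fintype.card ι + w

end Pieces

/-- binary trees with labelled leaves -/
inductive BT (E : Type)
  | nil : BT E
  | leaf (p : E) : BT E
  | node (l r : BT E) : BT E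

/-- the labels of the leaves -/
def BT.leaves {E : Type} : BT E → List E
  | .nil => []
  | .leaf p => [p]
  | .node l r => l.leaves ++ r.leaves

section Trees

variable {F : Type*} [Field F] {ι E : Type} [Fintype ι] [Fintype E] [DecidableEq E]

/-- some set of pieces with the wild pieces in the list `L` and no other wild pieces has a cut of
width `w` -/
def Sep (P : E → Matrix ι ι F) (wild : E → Prop) (w : ℕ) (L : List E) : Prop :=
  ∃ C : Finset E, (∀ p, wild p → (p ∈ C ↔ p ∈ L)) ∧ Cut P w C

/-- all subtrees have cuts of width `w` -/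
def Good (P : E → Matrix ι ι F) (wild : E → Prop) (w : ℕ) : BT E → Prop
  | .nil => True
  | .leaf p => Sep P wild w [p]
  | .node l r => Good P wild w l ∧ Good P wild w r ∧ Sep P wild w (l.leaves ++ r.leaves)

/-- the wild pieces outside `Q` are covered by sets of pieces that do not meet `Q` and have cuts
of widths `lam j` with `∑ lam j ^ 2 ≤ N` -/
def Cheap (P : E → Matrix ι ι F) (wild : E → Prop) (Q : Finset E) (N : ℕ) : Prop :=
  ∃ (ρ : ℕ) (C : Fin ρ → Finset E) (lam : Fin ρ → ℕ),
    (∀ j, Cut P (lam j) (C j)) ∧ (∀ j, Disjoint (C j) Q) ∧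
    (∀ p, wild p → p ∉ Q → ∃ j, p ∈ C j) ∧ ∑ j, lam j ^ 2 ≤ N

end Trees

/-- arithmetic formulas -/
inductive Fm (F : Type*) (m : ℕ)
  | const (c : F) : Fm F m
  | var (k : Fin m) : Fm F m
  | add (a b : Fm F m) : Fm F m
  | mul (a b : Fm F m) : Fm F m
  | inv (a : Fm F m) : Fm F m

namespace Fm

open MvPolynomial

variable {F : Type*} [Field F] {m : ℕ}

/-- numerator and denominator of the rational function of a formula -/
noncomputable def nd : Fm F m → MvPolynomial (Fin m) F × MvPolynomial (Fin m) F
  | .const c => (C c, 1)
  | .var k => (X k, 1)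
  | .add a b => (a.nd.1 * b.nd.2 + b.nd.1 * a.nd.2, a.nd.2 * b.nd.2)
  | .mul a b => (a.nd.1 * b.nd.1, a.nd.2 * b.nd.2)
  | .inv a => (a.nd.2, a.nd.1)

/-- the number of leaves with the variable `k` -/
def occ (k : Fin m) : Fm F m → ℕ
  | .const _ => 0
  | .var l => if l = k then 1 else 0
  | .add a b => a.occ k + b.occ k
  | .mul a b => a.occ k + b.occ k
  | .inv a => a.occ k

end Fm

end Pool.Agent.Lib.MP_64d474_lc.Kal
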