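import Mathlib
import Pool.Agent.Lib.MP_64d474_lc.Kal.Defs

/-!
# Module statements

Paper proofs: team-store `sdit_kal_blueprint.md`.
-/

set_option autoImplicit false

open Finset Module Matrix MvPolynomial

namespace Pool.Agent.Lib.MP_64d474_lc.Kal

/-- KAL-1: generalized Vandermonde determinants with positive integral nodes do not vanish -/
def StVander.{u} : Prop :=
  ∀ (L : Type u) [Field L] [CharZero L] (b : ℕ) (τ e : Fin b → ℕ), Function.Injective τ →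
    (∀ a, 0 < τ a) → Function.Injective e →
    (Matrix.of fun a l : Fin b => ((τ a : ℕ) : L) ^ e l).det ≠ 0

/-- KAL-2: the step of `SubExp/Step.lean` with general positive nodes `τ a` in place of `2 ^ a` and
with the large space `K` of admissible directions as a hypothesis -/
def StStepN.{u} : Prop :=
  ∀ (F : Type u) [Field F] [CharZero F] (t b : ℕ) (τ : Fin b → ℕ), Function.Injective τ →
    (∀ a, 0 < τ a) →
  ∀ (ι ρ ρ' : Type) [Fintype ι] [DecidableEq ι] [Fintype ρ] [DecidableEq ρ] [Fintype ρ']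
    [DecidableEq ρ'] (C₀ : Matrix ι ι F) (Cj : Fin t → Matrix ι ι F) (A : Fin b → Matrix ι ι F)
    (U : Matrix ι ρ F) (V : Matrix ρ' ι F) (D : Fin b → Matrix ρ ρ' F),
    (∀ a, A a = U * D a * V) →
  ∀ (z₀ : Fin t → F) (x₀ : Fin b → F), (C₀ + ∑ j, z₀ j • Cj j + ∑ a, x₀ a • A a).det ≠ 0 →
    (∀ (L : Type u) [Field L] [CharZero L] (μ : F →+* L) (Z : Fin t → L) (Mi : Matrix ι ι L),
      (C₀.map μ + ∑ j, Z j • (Cj j).map μ + ∑ a, μ (x₀ a) • (A a).map μ) * Mi = 1 →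
      ∃ K : Submodule L (Fin t → L), b ≤ finrank L K ∧
        ∀ θ ∈ K, V.map μ * (Mi * (∑ j, θ j • (Cj j).map μ) * (Mi * U.map μ)) = 0) →
    ∃ (z : Fin t → F) (y : F), (C₀ + ∑ j, z j • Cj j +
      ∑ a, (∑ j : Fin t, z j * (((τ a : ℕ) : F) * y) ^ ((j : ℕ) + 1)) • A a).det ≠ 0

/-- KAL-3: a set of pieces with a cut of width `lam` imposes at most `lam ^ 2` linear conditions -/
def StRegion.{u} : Prop :=
  ∀ (L : Type u) [Field L] (ι E : Type) [Fintype ι] [DecidableEq ι] [Fintype E] [DecidableEq E]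
    (P : E → Matrix ι ι L) (c : E → L) (Mi : Matrix ι ι L), (∑ p, c p • P p) * Mi = 1 →
  ∀ (C : Finset E) (lam t : ℕ), Cut P lam C → ∀ δ : E → (Fin t → L) →ₗ[L] L,
    ∃ K : Submodule L (Fin t → L), t ≤ finrank L K + lam ^ 2 ∧
      ∀ θ ∈ K, ∀ p₁, p₁ ∉ C → ∀ p₂, p₂ ∉ C →
        P p₁ * (Mi * (∑ p ∈ C, δ p θ • P p) * (Mi * P p₂)) = 0

/-- KAL-4: the dimensions of the sums of column spaces do not grow under field extensions -/
def StBase.{u} : Prop :=
  ∀ (F L : Type u) [Field F] [Field L] (μ : F →+* L) (ι E : Type) [Fintype ι] [DecidableEq ι]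
    [Fintype E] [DecidableEq E] (P : E → Matrix ι ι F) (S : Finset E),
    cdim (fun p => (P p).map μ) S ≤ cdim P S

/-- KAL-5: a cheap set of pieces imposes few linear conditions -/
def StCheapK.{u} : Prop :=
  ∀ (F L : Type u) [Field F] [Field L] (μ : F →+* L) (ι E : Type) [Fintype ι] [DecidableEq ι]
    [Fintype E] [DecidableEq E] (P : E → Matrix ι ι F) (wild : E → Prop) (Q : Finset E)
    (N t : ℕ), Cheap P wild Q N →
  ∀ (c : E → L) (Mi : Matrix ι ι L), (∑ p, c p • (P p).map μ) * Mi = 1 →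
  ∀ δ : E → (Fin t → L) →ₗ[L] L, (∀ p, ¬ wild p → δ p = 0) → (∀ p ∈ Q, δ p = 0) →
    ∃ K : Submodule L (Fin t → L), t ≤ finrank L K + N ∧
      ∀ θ ∈ K, ∀ p₁ ∈ Q, ∀ p₂ ∈ Q,
        (P p₁).map μ * (Mi * (∑ p, δ p θ • (P p).map μ) * (Mi * (P p₂).map μ)) = 0

/-- KAL-6: the variables in `cur` may be replaced -/
def StStepP.{u} : Prop :=
  ∀ (F : Type u) [Field F] [CharZero F] (ι E : Type) [Fintype ι] [DecidableEq ι] [Fintype E]
    [DecidableEq E] (P : E → Matrix ι ι F) (m N : ℕ) (κ : E → Option (Fin m))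
    (don cur : Finset (Fin m)), Disjoint don cur →
  ∀ (g : Fin m → Fin N → F) (N' : ℕ), Cheap P (fun p => p ∈ pcs κ don) (pcs κ cur) N' →
    N' + cur.card ≤ N →
  ∀ (z₀ : Fin N → F) (x : Fin m → F),
    (mat P κ fun k => if k ∈ don then ∑ j, z₀ j * g k j else x k).det ≠ 0 →
    ∃ (z : Fin N → F) (y : F), (mat P κ fun k => if k ∈ don then ∑ j, z j * g k j else
      if k ∈ cur then ∑ j : Fin N, z j * ((((k : ℕ) + 1 : ℕ) : F) * y) ^ ((j : ℕ) + 1)
      else x k).det ≠ 0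

/-- KAL-7: a single variable may be replaced -/
def StSingle.{u} : Prop :=
  ∀ (F : Type u) [Field F] [CharZero F] (ι E : Type) [Fintype ι] [DecidableEq ι] [Fintype E]
    [DecidableEq E] (P : E → Matrix ι ι F) (m N : ℕ) (κ : E → Option (Fin m))
    (don : Finset (Fin m)) (k₀ : Fin m), k₀ ∉ don → 1 ≤ N →
  ∀ (g : Fin m → Fin N → F) (z₀ : Fin N → F) (x : Fin m → F),
    (mat P κ fun k => if k ∈ don then ∑ j, z₀ j * g k j else x k).det ≠ 0 →
    ∃ (z : Fin N → F) (y : F), (mat P κ fun k => if k ∈ don then ∑ j, z j * g k j else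
      if k = k₀ then ∑ j : Fin N, z j * ((((k : ℕ) + 1 : ℕ) : F) * y) ^ ((j : ℕ) + 1)
      else x k).det ≠ 0

/-- KAL-8: all variables may be replaced class by class -/
def StHybrid.{u} : Prop :=
  ∀ (F : Type u) [Field F] [CharZero F] (ι E : Type) [Fintype ι] [DecidableEq ι] [Fintype E]
    [DecidableEq E] (P : E → Matrix ι ι F) (m β N : ℕ) (κ : E → Option (Fin m))
    (b : Fin m → Fin β), 1 ≤ N →
    (∀ i, (act κ b i).card ≤ 1 ∨ ∃ N', Cheap P (fun p => κ p ≠ none) (pcs κ (act κ b i)) N' ∧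
      N' + (act κ b i).card ≤ N) →
  ∀ x : Fin m → F, (mat P κ x).det ≠ 0 →
    ∃ (z : Fin N → F) (y : Fin β → F), (mat P κ (gen b z y)).det ≠ 0

/-- KAL-9: balanced classes of consecutive variables -/
def StBal : Prop :=
  ∀ (m R s : ℕ) (a : Fin m → ℕ), 1 ≤ R → ∑ k, a k ≤ s →
    ∃ b : Fin m → Fin (2 * (s / R) + 2), Monotone b ∧
      ∀ i, (univ.filter fun k => b k = i ∧ a k ≠ 0).card ≤ 1 ∨
        ∑ k ∈ univ.filter (fun k => b k = i), a k + 1 ≤ 2 * R

/-- KAL-10: trees with small cuts make all sets of pieces cheap -/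
def StTree.{u} : Prop :=
  ∀ (F : Type u) [Field F] (ι E : Type) [Fintype ι] [Fintype E] [DecidableEq E]
    (P : E → Matrix ι ι F) (wild : E → Prop) (w : ℕ) (t : BT E), Good P wild w t →
    t.leaves.Nodup → (∀ p, p ∈ t.leaves ↔ wild p) → Fintype.card ι ≤ cdim P univ →
    Fintype.card ι ≤ rdim P univ →
  ∀ Q : Finset E, (∀ p ∈ Q, wild p) → 1 ≤ Q.card → Cheap P wild Q (4 * w ^ 2 * (2 * Q.card - 1))

/-- KAL-11: every set of pieces of small total rank is cheap -/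
def StFlat.{u} : Prop :=
  ∀ (F : Type u) [Field F] (ι E : Type) [Fintype ι] [DecidableEq ι] [Fintype E] [DecidableEq E]
    (P : E → Matrix ι ι F) (wild : E → Prop) (Q : Finset E),
    Cheap P wild Q ((∑ p ∈ Q, (P p).rank) ^ 2)

/-- KAL-12: small natural numbers as parameters -/
def StGrid.{u} : Prop :=
  ∀ (F : Type u) [Field F] [CharZero F] (m β N D : ℕ) (b : Fin m → Fin β)
    (f : MvPolynomial (Fin m) F), f.totalDegree ≤ D →
    (∃ (z : Fin N → F) (y : Fin β → F), eval (gen b z y) f ≠ 0) →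
    ∃ (z : Fin N → ℕ) (y : Fin β → ℕ), (∀ j, z j ≤ D) ∧ (∀ i, y i ≤ N * D) ∧
      eval (fun k => ((gen b z y k : ℕ) : F)) f ≠ 0

/-- KAL-13: a common point for two polynomials -/
def StBoth.{u} : Prop :=
  ∀ (F : Type u) [Field F] [CharZero F] (m β N : ℕ) (b : Fin m → Fin β)
    (f g : MvPolynomial (Fin m) F),
    (∃ (z : Fin N → F) (y : Fin β → F), eval (gen b z y) f ≠ 0) →
    (∃ (z : Fin N → F) (y : Fin β → F), eval (gen b z y) g ≠ 0) →
    ∃ (z : Fin N → F) (y : Fin β → F), eval (gen b z y) (f * g) ≠ 0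

/-- KAL-14: the determinant as a polynomial and its degree -/
def StDet.{u} : Prop :=
  ∀ (F : Type u) [Field F] (ι E : Type) [Fintype ι] [DecidableEq ι] [Fintype E] [DecidableEq E]
    (P : E → Matrix ι ι F) (m : ℕ) (κ : E → Option (Fin m)),
    ∃ f : MvPolynomial (Fin m) F, (∀ x, eval x f = (mat P κ x).det) ∧
      f.totalDegree ≤ Fintype.card ι ∧
      f.totalDegree ≤ ∑ p ∈ univ.filter (fun p => κ p ≠ none), (P p).rank

/-- KAL-15: the size and the height of the set `hits` -/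
def StCard : Prop :=
  ∀ m β N D : ℕ, (hits m β N D).card ≤ (m + 1) ^ β * (D + 1) ^ N * (N * D + 1) ^ β ∧
    ∀ h ∈ hits m β N D, ∀ k, h k ≤ N * D * (m * N * D) ^ N

/-- KAL-16: the symbolic matrix of a formula -/
def StNet.{u} : Prop :=
  ∀ (F : Type u) [Field F] (m : ℕ) (φ : Fm F m),
    ∃ (ι E : Type) (_ : Fintype ι) (_ : DecidableEq ι) (_ : Fintype E) (_ : DecidableEq E)
      (P : E → Matrix ι ι F) (κ : E → Option (Fin m)) (t : BT E),
      (∀ x, (mat P κ x).det = eval x φ.nd.2) ∧ Good P (fun p => κ p ≠ none) 1 t ∧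
      t.leaves.Nodup ∧ (∀ p, p ∈ t.leaves ↔ κ p ≠ none) ∧
      ∀ k, (univ.filter fun p => κ p = some k).card = φ.occ k

/-- KAL-17: the degrees of numerators and denominators of formulas -/
def StDegF.{u} : Prop :=
  ∀ (F : Type u) [Field F] (m : ℕ) (φ : Fm F m), φ.nd.1.totalDegree ≤ ∑ k, φ.occ k ∧
    φ.nd.2.totalDegree ≤ ∑ k, φ.occ k

/-- KAL-A: tree-like symbolic matrices -/
def StMainTree.{u} : Prop :=
  ∀ (F : Type u) [Field F] [CharZero F] (ι E : Type) [Fintype ι] [DecidableEq ι] [Fintype E]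
    [DecidableEq E] (P : E → Matrix ι ι F) (m : ℕ) (κ : E → Option (Fin m)) (t : BT E)
    (w R β N : ℕ), Good P (fun p => κ p ≠ none) w t → t.leaves.Nodup →
    (∀ p, p ∈ t.leaves ↔ κ p ≠ none) → 1 ≤ w → 1 ≤ R → 18 * R * w ^ 2 ≤ N →
  ∀ b : Fin m → Fin β,
    (∀ i, (act κ b i).card ≤ 1 ∨ (pcs κ (act κ b i)).card + 1 ≤ 2 * R) →
  ∀ x : Fin m → F, (mat P κ x).det ≠ 0 →
    ∃ (z : Fin N → F) (y : Fin β → F), (mat P κ (gen b z y)).det ≠ 0

/-- KAL-B: symbolic matrices with coefficient matrices of small total rank -/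
def StMainFlat.{u} : Prop :=
  ∀ (F : Type u) [Field F] [CharZero F] (n m : ℕ) (B₀ : Matrix (Fin n) (Fin n) F)
    (B : Fin m → Matrix (Fin n) (Fin n) F) (R β N : ℕ), 1 ≤ R → 4 * R ^ 2 ≤ N →
  ∀ b : Fin m → Fin β,
    (∀ i, (univ.filter fun k => b k = i ∧ (B k).rank ≠ 0).card ≤ 1 ∨
      ∑ k ∈ univ.filter (fun k => b k = i), (B k).rank + 1 ≤ 2 * R) →
  ∀ x : Fin m → F, (B₀ + ∑ k, x k • B k).det ≠ 0 →
    ∃ (z : Fin N → F) (y : Fin β → F), (B₀ + ∑ k, gen b z y k • B k).det ≠ 0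

/-- KAL-C: arithmetic formulas -/
def StMainForm.{u} : Prop :=
  ∀ (F : Type u) [Field F] [CharZero F] (m : ℕ) (φ : Fm F m) (s R β N : ℕ),
    ∑ k, φ.occ k ≤ s → 1 ≤ R → 2 * (s / R) + 2 ≤ β → 18 * R ≤ N →
    φ.nd.1 ≠ 0 → φ.nd.2 ≠ 0 →
    ∃ h ∈ hits m β N (2 * s), eval (fun k => (h k : F)) φ.nd.1 ≠ 0 ∧
      eval (fun k => (h k : F)) φ.nd.2 ≠ 0

end Pool.Agent.Lib.MP_64d474_lc.Kal
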