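import Mathlib
import Pool.Agent.Lib.MP_64d474_lc.Kal.Stmts

/-!
# KAL-9: balanced classes of consecutive variables
-/

set_option autoImplicit false

open Finset

namespace Pool.Agent.Lib.MP_64d474_lc.Kal

namespace Bal

variable {m : ℕ} (a : Fin m → ℕ)

/-- the sum of the entries before `k` -/
def off (k : Fin m) : ℕ := ∑ j ∈ Iio k, a j

theorem off_add {k k' : Fin m} (h : k < k') : off a k + a k ≤ off a k' := by
  unfold off
  have h1 : k ∉ Iio k := by simp
  have h2 : insert k (Iio k) ⊆ Iio k' := by
    intro x hx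
    rw [mem_insert, mem_Iio] at hx
    rw [mem_Iio]
    rcases hx with rfl | hx
    · exact h
    · exact hx.trans h
  have h3 := sum_le_sum_of_subset (f := a) h2
  rw [sum_insert h1] at h3
  omega

theorem off_mono {k k' : Fin m} (h : k ≤ k') : off a k ≤ off a k' := by
  rcases h.eq_or_lt with rfl | h
  · exact le_rfl
  · exact (Nat.le_add_right _ _).trans (off_add a h)

theorem off_le (k : Fin m) : off a k ≤ ∑ j, a j :=
  sum_le_sum_of_subset (subset_univ _)

/-- the class of the variable `k` -/
def cls (R : ℕ) (k : Fin m) : ℕ := 2 * (off a k / R) + if a k ≤ R then 0 else 1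

theorem cls_le (R : ℕ) (k : Fin m) : cls a R k ≤ 2 * (off a k / R) + 1 := by
  unfold cls
  split_ifs <;> omega

theorem le_cls (R : ℕ) (k : Fin m) : 2 * (off a k / R) ≤ cls a R k := by
  unfold cls
  omega

theorem cls_lt_of_lt {R : ℕ} (hR : 1 ≤ R) {k k' : Fin m} (h : k < k') (hk : ¬ a k ≤ R) :
    cls a R k < cls a R k' := by
  have h1 := off_add a h
  have h2 : (off a k + R) / R ≤ off a k' / R := Nat.div_le_div_right (by omega)
  rw [Nat.add_div_right _ (by omega)] at h2
  have h3 := cls_le a R k
  have h4 := le_cls a R k'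
  omega

theorem cls_mono {R : ℕ} (hR : 1 ≤ R) {k k' : Fin m} (h : k ≤ k') :
    cls a R k ≤ cls a R k' := by
  rcases h.eq_or_lt with rfl | h
  · exact le_rfl
  by_cases hk : a k ≤ R
  · have h1 : off a k / R ≤ off a k' / R := Nat.div_le_div_right (off_mono a h.le)
    have h2 := le_cls a R k'
    have h3 : cls a R k = 2 * (off a k / R) := by
      unfold cls
      rw [if_pos hk, add_zero]
    omega
  · exact (cls_lt_of_lt a hR h hk).le

theorem sum_class {R : ℕ} (hR : 1 ≤ R) (f : ℕ) (S : Finset (Fin m))
    (hS : ∀ k ∈ S, cls a R k = 2 * f) : ∑ k ∈ S, a k + 1 ≤ 2 * R := by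
  rcases S.eq_empty_or_nonempty with rfl | hne
  · simp only [sum_empty]
    omega
  have key : ∀ k ∈ S, a k ≤ R ∧ f * R ≤ off a k ∧ off a k < (f + 1) * R := by
    intro k hk
    have h1 := hS k hk
    unfold cls at h1
    have h2 : a k ≤ R := by
      by_contra h3
      rw [if_neg h3] at h1
      omega
    rw [if_pos h2] at h1
    have h3 : off a k / R = f := by omega
    refine ⟨h2, ?_, ?_⟩
    · rw [← h3]
      exact Nat.div_mul_le_self _ _
    · rw [← Nat.div_lt_iff_lt_mul (by omega), h3]
      omega
  have h1 := key _ (S.min'_mem hne)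
  have h2 := key _ (S.max'_mem hne)
  set k₁ := S.min' hne with hk₁
  set k₂ := S.max' hne with hk₂
  have hd : Disjoint (Iio k₁) S := by
    rw [disjoint_left]
    intro x hx hxS
    rw [mem_Iio] at hx
    exact absurd (S.min'_le x hxS) (not_le.2 hx)
  have hsub : Iio k₁ ∪ S ⊆ insert k₂ (Iio k₂) := by
    intro x hx
    rw [mem_insert, mem_Iio]
    rw [mem_union, mem_Iio] at hx
    rcases hx with hx | hx
    · exact Or.inr (hx.trans_le (S.min'_le _ (S.max'_mem hne)))
    · exact (S.le_max' x hx).eq_or_lt
  have h3 := sum_le_sum_of_subset (f := a) hsub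
  rw [sum_union hd, sum_insert (by simp)] at h3
  change off a k₁ + ∑ k ∈ S, a k ≤ a k₂ + off a k₂ at h3
  have h4 : (f + 1) * R = f * R + R := by ring
  omega

end Bal

open Bal in
theorem stBal : StBal := by
  intro m R s a hR hs
  have hb : ∀ k, cls a R k < 2 * (s / R) + 2 := by
    intro k
    have h1 := cls_le a R k
    have h2 : off a k / R ≤ s / R := Nat.div_le_div_right ((off_le a k).trans hs)
    omega
  refine ⟨fun k => ⟨cls a R k, hb k⟩, fun k k' h => cls_mono a hR h, fun i => ?_⟩
  rcases Nat.even_or_odd' (i : ℕ) with ⟨f, hf | hf⟩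
  · right
    refine sum_class a hR f _ fun k hk => ?_
    rw [mem_filter] at hk
    have h1 := congrArg Fin.val hk.2
    simpa [hf] using h1
  · left
    rw [card_le_one]
    have key : ∀ k k' : Fin m, (⟨cls a R k, hb k⟩ : Fin (2 * (s / R) + 2)) = i →
        (⟨cls a R k', hb k'⟩ : Fin (2 * (s / R) + 2)) = i → ¬ k < k' := by
      intro k k' h1 h2 hlt
      have h3 : cls a R k = 2 * f + 1 := by
        rw [← hf, ← h1]
      have h4 : cls a R k' = 2 * f + 1 := by
        rw [← hf, ← h2]
      have h5 : ¬ a k ≤ R := by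
        intro h6
        unfold cls at h3
        rw [if_pos h6] at h3
        omega
      have h6 := cls_lt_of_lt a hR hlt h5
      omega
    intro k hk k' hk'
    rw [mem_filter] at hk hk'
    rcases lt_trichotomy k k' with h | h | h
    · exact absurd h (key k k' hk.2.1 hk'.2.1)
    · exact h
    · exact absurd h (key k' k hk'.2.1 hk.2.1)

end Pool.Agent.Lib.MP_64d474_lc.Kal
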