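import Mathlib
import Pool.Agent.Lib.MP_64d474_lc.Kal.Stmts

/-!
# KAL-4: sums of column spaces under field extensions
-/

set_option autoImplicit false

open Finset Module Matrix

namespace Pool.Agent.Lib.MP_64d474_lc.Kal

theorem stBase.{u} : StBase.{u} := by
  intro F L _ _ μ ι E _ _ _ _ P S
  let bs := Module.finBasis F (csp P S)
  let U0 : Matrix ι (Fin (finrank F (csp P S))) F := Matrix.of fun i k => (bs k : ι → F) i
  have key : ∀ p ∈ S, ∃ V : Matrix (Fin (finrank F (csp P S))) ι F, P p = U0 * V := by
    intro p hp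
    have hcol : ∀ j, (fun i => P p i j) ∈ csp P S := by
      intro j
      refine Submodule.mem_iSup_of_mem p (Submodule.mem_iSup_of_mem hp ?_)
      refine ⟨Pi.single j 1, ?_⟩
      ext i
      simp
    refine ⟨Matrix.of fun k j => bs.repr ⟨_, hcol j⟩ k, ?_⟩
    ext i j
    have h1 := bs.sum_repr ⟨_, hcol j⟩
    have h2 := congrArg (fun v : csp P S => (v : ι → F) i) h1
    simp only [Submodule.coe_sum, Submodule.coe_smul, Finset.sum_apply, Pi.smul_apply,
      smul_eq_mul] at h2
    rw [Matrix.mul_apply, ← h2]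
    exact Finset.sum_congr rfl fun k _ => mul_comm _ _
  have hle : csp (fun p => (P p).map μ) S ≤ LinearMap.range (U0.map μ).mulVecLin := by
    refine iSup₂_le fun p hp => ?_
    obtain ⟨V, hV⟩ := key p hp
    have h : (P p).map μ = U0.map μ * V.map μ := by
      rw [hV, Matrix.map_mul]
    show LinearMap.range ((P p).map μ).mulVecLin ≤ _
    rw [h, Matrix.mulVecLin_mul]
    exact LinearMap.range_comp_le_range _ _
  have h1 : cdim (fun p => (P p).map μ) S ≤ (U0.map μ).rank := Submodule.finrank_mono hle
  have h2 : (U0.map μ).rank ≤ finrank F (csp P S) := by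
    simpa using Matrix.rank_le_card_width (U0.map μ)
  exact h1.trans h2

end Pool.Agent.Lib.MP_64d474_lc.Kal
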