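import Mathlib
import Pool.Agent.Lib.MP_64d474_lc.Kal.Defs
import Pool.Agent.Lib.MP_64d474_lc.Kal.Stmts

/-!
# The size and the height of the set `hits`
-/

set_option autoImplicit false

open Finset Module

namespace Pool.Agent.Lib.MP_64d474_lc.Kal

namespace CardAux

/-- a lower set of `Fin m` is determined by its size -/
theorem mem_lower_iff {m : ℕ} (S : Finset (Fin m)) (hS : ∀ a b : Fin m, a ≤ b → b ∈ S → a ∈ S)
    (k : Fin m) : k ∈ S ↔ (k : ℕ) < S.card := by
  constructor
  · intro hk
    have h1 : Finset.Iic k ⊆ S := by
      intro a ha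
      exact hS a k (Finset.mem_Iic.mp ha) hk
    have h2 := Finset.card_le_card h1
    rw [Fin.card_Iic] at h2
    omega
  · intro hk
    by_contra hn
    have h1 : S ⊆ Finset.Iio k := by
      intro a ha
      rw [Finset.mem_Iio]
      by_contra hle
      exact hn (hS k a (not_lt.mp hle) ha)
    have h2 := Finset.card_le_card h1
    rw [Fin.card_Iio] at h2
    omega

open Classical in
/-- the number of monotone maps -/
theorem card_mono (m β : ℕ) :
    (univ.filter fun b : Fin m → Fin β => Monotone b).card ≤ (m + 1) ^ β := by
  have hlt : ∀ (b : Fin m → Fin β) (i : Fin β),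
      (univ.filter fun k => b k ≤ i).card < m + 1 := by
    intro b i
    have := Finset.card_le_univ (univ.filter fun k => b k ≤ i)
    rw [Fintype.card_fin] at this
    omega
  let g : (Fin m → Fin β) → (Fin β → Fin (m + 1)) := fun b i => ⟨_, hlt b i⟩
  have hinj : Set.InjOn g (univ.filter fun b : Fin m → Fin β => Monotone b) := by
    intro b hb b' hb' h
    have hb1 : Monotone b := by simpa using hb
    have hb1' : Monotone b' := by simpa using hb'
    have key : ∀ (k : Fin m) (i : Fin β), b k ≤ i ↔ b' k ≤ i := by
      intro k i
      have e1 := mem_lower_iff (univ.filter fun k => b k ≤ i) (by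
        intro a c hac hc
        simp only [mem_filter, mem_univ, true_and] at hc ⊢
        exact (hb1 hac).trans hc) k
      have e2 := mem_lower_iff (univ.filter fun k => b' k ≤ i) (by
        intro a c hac hc
        simp only [mem_filter, mem_univ, true_and] at hc ⊢
        exact (hb1' hac).trans hc) k
      have e3 : (univ.filter fun k => b k ≤ i).card = (univ.filter fun k => b' k ≤ i).card := by
        have := congrFun h i
        simpa [g] using congrArg Fin.val this
      simp only [mem_filter, mem_univ, true_and] at e1 e2
      rw [e1, e2, e3]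
    funext k
    exact le_antisymm ((key k (b' k)).mpr le_rfl) ((key k (b k)).mp le_rfl)
  have hcard := Finset.card_le_card_of_injOn (s := univ.filter fun b : Fin m → Fin β => Monotone b)
    (t := univ) g (fun _ _ => by simp) hinj
  refine hcard.trans (le_of_eq ?_)
  rw [Finset.card_univ, Fintype.card_fun, Fintype.card_fin, Fintype.card_fin]

end CardAux

open CardAux in
theorem stCard : StCard := by
  classical
  intro m β N D
  constructor
  · unfold hits
    refine Finset.card_image_le.trans ?_
    rw [Finset.card_product, Finset.card_product, Fintype.card_piFinset, Fintype.card_piFinset]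
    simp only [Finset.card_range, Finset.prod_const, Finset.card_univ, Fintype.card_fin]
    rw [mul_assoc]
    exact Nat.mul_le_mul_right _ (card_mono m β)
  · intro h hh k
    unfold hits at hh
    rw [Finset.mem_image] at hh
    obtain ⟨⟨b, z, y⟩, hq, rfl⟩ := hh
    simp only [Finset.mem_product, Fintype.mem_piFinset, Finset.mem_range] at hq
    obtain ⟨-, hz, hy⟩ := hq
    unfold gen
    simp only [Nat.cast_id]
    have hterm : ∀ j ∈ (univ : Finset (Fin N)),
        z j * (((k : ℕ) + 1) * y (b k)) ^ ((j : ℕ) + 1) ≤ D * (m * N * D) ^ N := by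
      intro j _
      have hj := j.isLt
      have hk := k.isLt
      have hzj := hz j
      have hyk := hy (b k)
      rcases Nat.eq_zero_or_pos D with hD | hD
      · have : z j = 0 := by omega
        rw [this, zero_mul]
        exact Nat.zero_le _
      · have hpos : 1 ≤ m * N * D := Nat.mul_pos (Nat.mul_pos (by omega) (by omega)) hD
        have h1 : ((k : ℕ) + 1) * y (b k) ≤ m * N * D := by
          calc ((k : ℕ) + 1) * y (b k) ≤ m * (N * D) := Nat.mul_le_mul (by omega) (by omega)
            _ = m * N * D := by ring
        calc z j * (((k : ℕ) + 1) * y (b k)) ^ ((j : ℕ) + 1)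
            ≤ D * (m * N * D) ^ ((j : ℕ) + 1) :=
              Nat.mul_le_mul (by omega) (Nat.pow_le_pow_left h1 _)
          _ ≤ D * (m * N * D) ^ N := Nat.mul_le_mul_left _ (Nat.pow_le_pow_right hpos (by omega))
    have hsum := Finset.sum_le_card_nsmul _ _ _ hterm
    rw [Finset.card_univ, Fintype.card_fin, smul_eq_mul] at hsum
    refine hsum.trans (le_of_eq ?_)
    ring

end Pool.Agent.Lib.MP_64d474_lc.Kal
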