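import Mathlib
import Pool.Agent.Lib.MP_64d474_lc.Kal.Stmts

/-!
# KAL-5: a cheap set of pieces imposes few linear conditions
-/

set_option autoImplicit false

open Finset Module Matrix

namespace Pool.Agent.Lib.MP_64d474_lc.Kal

namespace CheapKAux

/-- the codimension of an intersection -/
lemma codim_iInf {L : Type*} [Field L] {t r : ℕ} (K : Fin r → Submodule L (Fin t → L))
    (l : Fin r → ℕ) (h : ∀ j, t ≤ finrank L (K j) + l j) (s : Finset (Fin r)) :
    t ≤ finrank L (⨅ j ∈ s, K j : Submodule L (Fin t → L)) + ∑ j ∈ s, l j := by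
  classical
  induction s using Finset.induction_on with
  | empty =>
    have h1 : (⨅ j ∈ (∅ : Finset (Fin r)), K j) = ⊤ := by simp
    rw [h1, finrank_top, Module.finrank_fin_fun]
    exact Nat.le_add_right _ _
  | insert a s ha ih =>
    rw [Finset.iInf_insert, Finset.sum_insert ha]
    have h1 := Submodule.finrank_sup_add_finrank_inf_eq (K a) (⨅ j ∈ s, K j)
    have h2 : finrank L (K a ⊔ ⨅ j ∈ s, K j : Submodule L (Fin t → L)) ≤ t := by
      have := Submodule.finrank_le (K a ⊔ ⨅ j ∈ s, K j : Submodule L (Fin t → L))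
      rwa [Module.finrank_fin_fun] at this
    have h3 := h a
    omega

/-- cuts are preserved by field extensions -/
lemma cut_map.{u} (h4 : StBase.{u}) {F L : Type u} [Field F] [Field L] (μ : F →+* L) {ι E : Type}
    [Fintype ι] [DecidableEq ι] [Fintype E] [DecidableEq E] {P : E → Matrix ι ι F} {w : ℕ}
    {C : Finset E} (h : Cut P w C) : Cut (fun p => (P p).map μ) w C := by
  have hr : ∀ S : Finset E, rdim (fun p => (P p).map μ) S ≤ rdim P S := by
    intro S
    have h1 := h4 F L μ ι E (fun p => (P p).transpose) S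
    unfold rdim
    simp only [Matrix.transpose_map] at h1 ⊢
    exact h1
  have h1 := h4 F L μ ι E P C
  have h2 := h4 F L μ ι E P Cᶜ
  exact ⟨(Nat.add_le_add h1 h2).trans h.1, (Nat.add_le_add (hr C) (hr Cᶜ)).trans h.2⟩

end CheapKAux

open CheapKAux in
theorem stCheapK.{u} (h3 : StRegion.{u}) (h4 : StBase.{u}) : StCheapK.{u} := by
  classical
  intro F L _ _ μ ι E _ _ _ _ P wild Q N t hC c Mi hM δ hδ1 hδ2
  obtain ⟨r, C, lam, hcut, hdisj, hcov, hsum⟩ := hC
  have hex : ∀ p, δ p ≠ 0 → ∃ j, p ∈ C j := by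
    intro p hp
    refine hcov p ?_ ?_
    · by_contra hw
      exact hp (hδ1 p hw)
    · intro hQ
      exact hp (hδ2 p hQ)
  choose f hf using hex
  -- the parts of `δ`
  set d : Fin r → E → (Fin t → L) →ₗ[L] L := fun j p =>
    if h : δ p ≠ 0 then (if f p h = j then δ p else 0) else 0 with hd
  have hdsum : ∀ p, ∑ j, d j p = δ p := by
    intro p
    by_cases h : δ p ≠ 0
    · simp only [hd, dif_pos h]
      rw [Finset.sum_ite_eq]
      simp
    · simp only [hd, dif_neg h]
      rw [Finset.sum_const_zero]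
      exact (not_not.mp h).symm
  have hdC : ∀ j p, p ∉ C j → d j p = 0 := by
    intro j p hp
    simp only [hd]
    by_cases h : δ p ≠ 0
    · rw [dif_pos h]
      refine if_neg ?_
      rintro rfl
      exact hp (hf p h)
    · rw [dif_neg h]
  have hreg := fun j => h3 L ι E (fun p => (P p).map μ) c Mi hM (C j) (lam j) t
    (cut_map h4 μ (hcut j)) (d j)
  choose K hK1 hK2 using hreg
  refine ⟨⨅ j ∈ (Finset.univ : Finset (Fin r)), K j, ?_, ?_⟩
  · exact (codim_iInf K (fun j => lam j ^ 2) hK1 Finset.univ).trans (Nat.add_le_add_left hsum _)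
  · intro θ hθ p₁ hp₁ p₂ hp₂
    have hθj : ∀ j, θ ∈ K j := by
      intro j
      rw [Submodule.mem_iInf] at hθ
      have := hθ j
      rw [Submodule.mem_iInf] at this
      exact this (Finset.mem_univ j)
    have hnot : ∀ j p, p ∈ Q → p ∉ C j := fun j p hp h =>
      Finset.disjoint_left.mp (hdisj j) h hp
    have key : ∑ p, δ p θ • (P p).map μ = ∑ j, ∑ p ∈ C j, d j p θ • (P p).map μ := by
      have e1 : ∀ j, ∑ p ∈ C j, d j p θ • (P p).map μ = ∑ p, d j p θ • (P p).map μ := by
        intro j
        refine Finset.sum_subset (Finset.subset_univ _) fun p _ hp => ?_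
        rw [hdC j p hp, LinearMap.zero_apply, zero_smul]
      simp only [e1]
      rw [Finset.sum_comm]
      refine Finset.sum_congr rfl fun p _ => ?_
      rw [← Finset.sum_smul, ← hdsum p, LinearMap.sum_apply]
    rw [key, Matrix.mul_sum, Matrix.sum_mul, Matrix.mul_sum]
    refine Finset.sum_eq_zero fun j _ => ?_
    exact hK2 j θ (hθj j) p₁ (hnot j p₁ hp₁) p₂ (hnot j p₂ hp₂)

end Pool.Agent.Lib.MP_64d474_lc.Kal
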