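import Mathlib
import Pool.Agent.Lib.MP_64d474_lc.Kal.Stmts

/-!
# KAL-17: the degrees of numerators and denominators of formulas
-/

set_option autoImplicit false

open Finset Module MvPolynomial

namespace Pool.Agent.Lib.MP_64d474_lc.Kal

theorem stDegF.{u} : StDegF.{u} := by
  intro F _ m φ
  induction φ with
  | const c =>
    simp only [Fm.nd, totalDegree_C, totalDegree_one]
    exact ⟨Nat.zero_le _, Nat.zero_le _⟩
  | var k =>
    have h1 : ∑ l, (Fm.var k : Fm F m).occ l = 1 := by
      simp [Fm.occ]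
    simp only [Fm.nd, totalDegree_one]
    rw [h1]
    refine ⟨?_, Nat.zero_le _⟩
    rw [totalDegree_X]
  | add a b iha ihb =>
    have h1 : ∑ l, (Fm.add a b : Fm F m).occ l = ∑ l, a.occ l + ∑ l, b.occ l := by
      rw [← Finset.sum_add_distrib]
      exact Finset.sum_congr rfl fun l _ => rfl
    rw [h1]
    constructor
    · change (a.nd.1 * b.nd.2 + b.nd.1 * a.nd.2).totalDegree ≤ _
      refine (totalDegree_add _ _).trans (max_le ?_ ?_)
      · exact (totalDegree_mul _ _).trans (add_le_add iha.1 ihb.2)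
      · rw [add_comm]
        exact (totalDegree_mul _ _).trans (add_le_add ihb.1 iha.2)
    · change (a.nd.2 * b.nd.2).totalDegree ≤ _
      exact (totalDegree_mul _ _).trans (add_le_add iha.2 ihb.2)
  | mul a b iha ihb =>
    have h1 : ∑ l, (Fm.mul a b : Fm F m).occ l = ∑ l, a.occ l + ∑ l, b.occ l := by
      rw [← Finset.sum_add_distrib]
      exact Finset.sum_congr rfl fun l _ => rfl
    rw [h1]
    constructor
    · change (a.nd.1 * b.nd.1).totalDegree ≤ _
      exact (totalDegree_mul _ _).trans (add_le_add iha.1 ihb.1)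
    · change (a.nd.2 * b.nd.2).totalDegree ≤ _
      exact (totalDegree_mul _ _).trans (add_le_add iha.2 ihb.2)
  | inv a iha =>
    have h1 : ∑ l, (Fm.inv a : Fm F m).occ l = ∑ l, a.occ l :=
      Finset.sum_congr rfl fun l _ => rfl
    rw [h1]
    exact ⟨iha.2, iha.1⟩

end Pool.Agent.Lib.MP_64d474_lc.Kal
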