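import Mathlib
import Pool.Agent.Lib.MP_64d474_lc.Kal.Stmts

/-!
# The determinant of a symbolic matrix as a polynomial and its degree
-/

set_option autoImplicit false

open Finset Module Matrix MvPolynomial

namespace Pool.Agent.Lib.MP_64d474_lc.Kal

universe u

namespace DetAux

/-- rank factorisation -/
theorem exists_factor {F : Type*} [Field F] {ι : Type*} [Fintype ι] [DecidableEq ι]
    (A : Matrix ι ι F) :
    ∃ (U : Matrix ι (Fin A.rank) F) (V : Matrix (Fin A.rank) ι F), A = U * V := by
  set W := LinearMap.range A.mulVecLin with hW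
  set e : Basis (Fin A.rank) F W := Module.finBasis F W with he
  set g' : (Fin A.rank → F) →ₗ[F] W := (e.equivFun.symm : (Fin A.rank → F) →ₗ[F] W) with hg'
  have hs : LinearMap.range g' = ⊤ := by
    rw [LinearMap.range_eq_top]
    exact e.equivFun.symm.surjective
  obtain ⟨g, hg⟩ := LinearMap.exists_rightInverse_of_surjective g' hs
  refine ⟨LinearMap.toMatrix' (W.subtype ∘ₗ g'), LinearMap.toMatrix' (g ∘ₗ A.mulVecLin.rangeRestrict),
    ?_⟩
  rw [← LinearMap.toMatrix'_comp]
  have h1 : (W.subtype ∘ₗ g') ∘ₗ (g ∘ₗ A.mulVecLin.rangeRestrict) = A.mulVecLin := by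
    apply LinearMap.ext
    intro v
    have h2 : g' (g (A.mulVecLin.rangeRestrict v)) = A.mulVecLin.rangeRestrict v := by
      have := LinearMap.congr_fun hg (A.mulVecLin.rangeRestrict v)
      simpa using this
    simp only [LinearMap.comp_apply, h2]
    rfl
  rw [h1, ← Matrix.toLin'_apply', LinearMap.toMatrix'_toLin']

theorem totalDegree_det_le {F : Type*} [CommRing F] {σ ι : Type*} [Fintype ι] [DecidableEq ι]
    (M : Matrix ι ι (MvPolynomial σ F)) (d : ι → ℕ) (h : ∀ i j, (M i j).totalDegree ≤ d i) :
    M.det.totalDegree ≤ ∑ i, d i := by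
  rw [Matrix.det_apply]
  refine totalDegree_finsetSum_le fun σ _ => ?_
  refine (totalDegree_smul_le _ _).trans ?_
  refine (totalDegree_finsetProd _ _).trans ?_
  refine (sum_le_sum fun i _ => h (σ i) i).trans ?_
  rw [Equiv.sum_comp σ d]

variable {F : Type*} [Field F] {E : Type} {m : ℕ}

theorem totalDegree_cf (κ : E → Option (Fin m)) (p : E) :
    (cf κ (X : Fin m → MvPolynomial (Fin m) F) p).totalDegree ≤ 1 := by
  unfold cf
  cases h : κ p with
  | none => simp
  | some k => simp

theorem totalDegree_mul_C_le (f : MvPolynomial (Fin m) F) (c : F) (hf : f.totalDegree ≤ 1) :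
    (f * C c).totalDegree ≤ 1 := by
  refine (totalDegree_mul _ _).trans ?_
  rw [totalDegree_C, add_zero]
  exact hf

theorem eval_cf (κ : E → Option (Fin m)) (x : Fin m → F) (p : E) :
    eval x (cf κ (X : Fin m → MvPolynomial (Fin m) F) p) = cf κ x p := by
  unfold cf
  cases h : κ p with
  | none => simp
  | some k => simp

theorem totalDegree_lowrank {ι ρ : Type*} [Fintype ι] [DecidableEq ι] [Fintype ρ]
    [DecidableEq ρ] (M₀ : Matrix ι ι (MvPolynomial (Fin m) F))
    (U : Matrix ι ρ (MvPolynomial (Fin m) F)) (V : Matrix ρ ι (MvPolynomial (Fin m) F))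
    (hM : ∀ i j, (M₀ i j).totalDegree = 0) (hU : ∀ i j, (U i j).totalDegree = 0)
    (hV : ∀ i j, (V i j).totalDegree ≤ 1) :
    (M₀ + U * V).det.totalDegree ≤ Fintype.card ρ := by
  have e1 : M₀ + U * V = M₀ - (-U) * V := by
    rw [Matrix.neg_mul, sub_neg_eq_add]
  have e2 : (M₀ + U * V).det = (Matrix.fromBlocks M₀ (-U) V 1).det := by
    rw [e1, Matrix.det_fromBlocks_one₂₂]
  rw [e2]
  have h := totalDegree_det_le (Matrix.fromBlocks M₀ (-U) V 1)
    (Sum.elim (fun _ => 0) (fun _ => 1)) (by
    rintro (i | q) (j | q')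
    · rw [Matrix.fromBlocks_apply₁₁, hM]
      exact Nat.zero_le _
    · rw [Matrix.fromBlocks_apply₁₂, Matrix.neg_apply, totalDegree_neg, hU]
      exact Nat.zero_le _
    · exact hV q j
    · rw [Matrix.fromBlocks_apply₂₂, Matrix.one_apply]
      split_ifs
      · rw [totalDegree_one]
        exact Nat.zero_le _
      · rw [totalDegree_zero]
        exact Nat.zero_le _)
  refine h.trans ?_
  rw [Fintype.sum_sum_type]
  simp only [Sum.elim_inl, Sum.elim_inr, sum_const_zero, zero_add, sum_const, card_univ,
    smul_eq_mul, mul_one]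
  exact le_rfl

end DetAux

open DetAux in
theorem stDet : StDet.{u} := by
  classical
  intro F _ ι E _ _ _ _ P m κ
  set Mp : Matrix ι ι (MvPolynomial (Fin m) F) :=
    ∑ p, cf κ (X : Fin m → MvPolynomial (Fin m) F) p • (P p).map C with hMp
  refine ⟨Mp.det, ?_, ?_, ?_⟩
  · intro x
    rw [RingHom.map_det]
    congr 1
    ext1 i j
    rw [RingHom.mapMatrix_apply, Matrix.map_apply, hMp, Matrix.sum_apply, map_sum, mat,
      Matrix.sum_apply]
    refine sum_congr rfl fun p _ => ?_
    rw [Matrix.smul_apply, Matrix.map_apply, Matrix.smul_apply, smul_eq_mul, smul_eq_mul, map_mul,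
      eval_cf, eval_C]
  · refine (totalDegree_det_le Mp (fun _ => 1) ?_).trans ?_
    · intro i j
      rw [hMp, Matrix.sum_apply]
      refine totalDegree_finsetSum_le fun p _ => ?_
      rw [Matrix.smul_apply, Matrix.map_apply, smul_eq_mul]
      exact totalDegree_mul_C_le _ _ (totalDegree_cf κ p)
    · rw [sum_const, card_univ, smul_eq_mul, mul_one]
  · have hfac : ∀ p, ∃ (U : Matrix ι (Fin (P p).rank) F) (V : Matrix (Fin (P p).rank) ι F),
        P p = U * V := fun p => exists_factor (P p)
    choose U V hUV using hfac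
    set U' : Matrix ι ((q : {p : E // κ p ≠ none}) × Fin (P q).rank) (MvPolynomial (Fin m) F) :=
      Matrix.of fun i q => C (U q.1 i q.2) with hU'
    set V' : Matrix ((q : {p : E // κ p ≠ none}) × Fin (P q).rank) ι (MvPolynomial (Fin m) F) :=
      Matrix.of fun q j => cf κ (X : Fin m → MvPolynomial (Fin m) F) q.1 * C (V q.1 q.2 j) with hV'
    set M₀ : Matrix ι ι (MvPolynomial (Fin m) F) :=
      Matrix.of fun i j => C ((∑ p ∈ univ.filter (fun p => ¬ κ p ≠ none), P p) i j) with hM₀
    have e1 : Mp = M₀ + U' * V' := by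
      rw [hMp, ← sum_filter_add_sum_filter_not univ (fun p => κ p ≠ none), add_comm]
      congr 1
      · ext1 i j
        rw [Matrix.sum_apply, hM₀, Matrix.of_apply, Matrix.sum_apply, map_sum]
        refine sum_congr rfl fun p hp => ?_
        have hp' : κ p = none := not_not.1 (mem_filter.1 hp).2
        rw [Matrix.smul_apply, Matrix.map_apply, cf, hp']
        simp
      · ext1 i j
        rw [Matrix.sum_apply, Matrix.mul_apply, Fintype.sum_sigma]
        have h1 : ∑ p ∈ univ.filter (fun p => κ p ≠ none), (∑ l : Fin (P p).rank, C (U p i l) *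
            (cf κ (X : Fin m → MvPolynomial (Fin m) F) p * C (V p l j))) =
            ∑ p : {p : E // κ p ≠ none}, (∑ l : Fin (P p).rank, C (U p i l) *
            (cf κ (X : Fin m → MvPolynomial (Fin m) F) p * C (V p l j))) :=
          sum_subtype (univ.filter fun p => κ p ≠ none) (by simp) _
        have h2 : ∀ (p : {p : E // κ p ≠ none}) (l : Fin (P p).rank), U' i ⟨p, l⟩ * V' ⟨p, l⟩ j =
            C (U p i l) * (cf κ (X : Fin m → MvPolynomial (Fin m) F) p * C (V p l j)) := by
          intro p l
          rw [hU', hV', Matrix.of_apply, Matrix.of_apply]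
        simp only [h2]
        rw [← h1]
        refine sum_congr rfl fun p _ => ?_
        rw [Matrix.smul_apply, Matrix.map_apply, smul_eq_mul]
        conv_lhs => rw [hUV p]
        rw [Matrix.mul_apply, map_sum, mul_sum]
        refine sum_congr rfl fun l _ => ?_
        rw [map_mul]
        ring
    rw [e1]
    have h := totalDegree_lowrank M₀ U' V' (fun i j => by rw [hM₀, Matrix.of_apply, totalDegree_C])
      (fun i q => by rw [hU', Matrix.of_apply, totalDegree_C])
      (fun q j => by
        rw [hV', Matrix.of_apply]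
        exact totalDegree_mul_C_le _ _ (totalDegree_cf κ _))
    refine h.trans ?_
    rw [Fintype.card_sigma]
    simp only [Fintype.card_fin]
    exact (sum_subtype (univ.filter fun p => κ p ≠ none) (p := fun p => κ p ≠ none)
          (by simp) (fun p => (P p).rank)).ge

end Pool.Agent.Lib.MP_64d474_lc.Kal
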