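import Pool.Agent.Lib.MP_64d474_lc.Kal.Stmts

/-! Module KAL-11: every set of pieces of small total rank is cheap. -/

set_option autoImplicit false

open Finset Module

namespace Pool.Agent.Lib.MP_64d474_lc.Kal

namespace FlatAux

variable {F : Type*} [Field F] {ι E : Type} [Fintype ι]

lemma cdim_le_card (P : E → Matrix ι ι F) (S : Finset E) : cdim P S ≤ Fintype.card ι := by
  unfold cdim
  exact (Submodule.finrank_le _).trans (le_of_eq (Module.finrank_fintype_fun_eq_card F))

lemma cdim_le_sum [DecidableEq E] (P : E → Matrix ι ι F) (S : Finset E) : cdim P S ≤ ∑ p ∈ S, (P p).rank := by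
  induction S using Finset.induction_on with
  | empty =>
    have h1 : csp P ∅ = ⊥ := by
      unfold csp
      refine le_bot_iff.mp (iSup₂_le fun p hp => ?_)
      exact absurd hp (Finset.notMem_empty p)
    unfold cdim
    rw [h1, finrank_bot]
    exact Nat.zero_le _
  | insert a s ha ih =>
    rw [Finset.sum_insert ha]
    have h1 : csp P (insert a s) = LinearMap.range (P a).mulVecLin ⊔ csp P s := by
      unfold csp
      rw [Finset.iSup_insert]
    have h2 := Submodule.finrank_add_le_finrank_add_finrank
      (LinearMap.range (P a).mulVecLin) (csp P s)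
    unfold cdim at ih ⊢
    rw [h1]
    exact h2.trans (Nat.add_le_add le_rfl ih)

end FlatAux

open FlatAux in
/-- KAL-11: every set of pieces of small total rank is cheap -/
theorem stFlat.{u} : StFlat.{u} := by
  intro F _ ι E _ _ _ _ P wild Q
  refine ⟨1, fun _ => Qᶜ, fun _ => ∑ p ∈ Q, (P p).rank, fun _ => ⟨?_, ?_⟩, fun _ => ?_,
    fun p _ hp => ⟨0, by simpa using hp⟩, by simp⟩
  · rw [compl_compl]
    exact Nat.add_le_add (cdim_le_card P _) (cdim_le_sum P Q)
  · rw [compl_compl]
    refine Nat.add_le_add (cdim_le_card _ _) ((cdim_le_sum _ Q).trans (le_of_eq ?_))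
    exact Finset.sum_congr rfl fun p _ => Matrix.rank_transpose (P p)
  · exact disjoint_compl_left

end Pool.Agent.Lib.MP_64d474_lc.Kal
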