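import Mathlib
import Pool.Agent.Lib.MP_64d474_lc.Kal.Stmts

/-!
# Small natural numbers as parameters, and a common point for two polynomials
-/

set_option autoImplicit false

open Finset Module Matrix MvPolynomial

namespace Pool.Agent.Lib.MP_64d474_lc.Kal

namespace GridAux

/-- degrees in one variable after a substitution -/
lemma degreeOf_bind₁_le {R : Type*} [CommSemiring R] {σ τ : Type*} (g : σ → MvPolynomial τ R)
    (i : τ) (B : ℕ) (hg : ∀ k, (g k).degreeOf i ≤ B) (f : MvPolynomial σ R) :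
    (bind₁ g f).degreeOf i ≤ f.totalDegree * B := by
  have h1 : bind₁ g f = ∑ s ∈ f.support, C (coeff s f) * ∏ k ∈ s.support, g k ^ s k := by
    rw [bind₁, aeval_def, eval₂_eq]
    rfl
  rw [h1]
  refine (degreeOf_sum_le i _ _).trans (Finset.sup_le fun s hs => ?_)
  refine (degreeOf_C_mul_le _ i _).trans ((degreeOf_prod_le i _ _).trans ?_)
  calc ∑ k ∈ s.support, (g k ^ s k).degreeOf i
      ≤ ∑ k ∈ s.support, s k * B := Finset.sum_le_sum fun k _ =>
        (degreeOf_pow_le i _ _).trans (Nat.mul_le_mul le_rfl (hg k))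
    _ = (∑ k ∈ s.support, s k) * B := by rw [Finset.sum_mul]
    _ ≤ f.totalDegree * B := Nat.mul_le_mul (le_totalDegree hs) le_rfl

variable {F : Type*} [Field F]

/-- the generator with variables as parameters -/
noncomputable def pgen (F : Type*) [Field F] {m β : ℕ} (N : ℕ) (b : Fin m → Fin β) (k : Fin m) :
    MvPolynomial (Fin N ⊕ Fin β) F :=
  gen b (fun j => X (Sum.inl j)) (fun i => X (Sum.inr i)) k

lemma eval_pgen {m β N : ℕ} (b : Fin m → Fin β) (v : Fin N ⊕ Fin β → F) (k : Fin m) :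
    eval v (pgen F N b k) = gen b (fun j => v (Sum.inl j)) (fun i => v (Sum.inr i)) k := by
  simp only [pgen, gen, map_sum, map_mul, map_pow, eval_X, map_natCast]

/-- the composed polynomial -/
noncomputable def comp {m β : ℕ} (N : ℕ) (b : Fin m → Fin β) (f : MvPolynomial (Fin m) F) :
    MvPolynomial (Fin N ⊕ Fin β) F :=
  bind₁ (pgen F N b) f

lemma eval_comp {m β N : ℕ} (b : Fin m → Fin β) (f : MvPolynomial (Fin m) F)
    (v : Fin N ⊕ Fin β → F) :
    eval v (comp N b f) =
      eval (gen b (fun j => v (Sum.inl j)) (fun i => v (Sum.inr i))) f := by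
  have h1 : eval v (bind₁ (pgen F N b) f) = eval (fun k => eval v (pgen F N b k)) f :=
    eval₂Hom_bind₁ (RingHom.id F) v (pgen F N b) f
  rw [comp, h1]
  exact congrArg (fun w => eval w f) (funext fun k => eval_pgen b v k)

lemma comp_ne_zero {m β N : ℕ} (b : Fin m → Fin β) (f : MvPolynomial (Fin m) F)
    (h : ∃ (z : Fin N → F) (y : Fin β → F), eval (gen b z y) f ≠ 0) : comp N b f ≠ 0 := by
  obtain ⟨z, y, hzy⟩ := h
  intro h0
  apply hzy
  have h1 := eval_comp b f (Sum.elim z y)
  rw [h0, map_zero] at h1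
  exact h1.symm

lemma degreeOf_term {m β N : ℕ} (b : Fin m → Fin β) (k : Fin m) (j : Fin N)
    (i : Fin N ⊕ Fin β) :
    (X (Sum.inl j) * ((((k : ℕ) + 1 : ℕ) : MvPolynomial (Fin N ⊕ Fin β) F) *
      X (Sum.inr (b k))) ^ ((j : ℕ) + 1)).degreeOf i ≤
      (X (Sum.inl j) : MvPolynomial (Fin N ⊕ Fin β) F).degreeOf i +
      ((j : ℕ) + 1) * (X (Sum.inr (b k)) : MvPolynomial (Fin N ⊕ Fin β) F).degreeOf i := by
  refine (degreeOf_mul_le i _ _).trans (Nat.add_le_add le_rfl ?_)
  refine (degreeOf_pow_le i _ _).trans (Nat.mul_le_mul le_rfl ?_)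
  have h1 : ((((k : ℕ) + 1 : ℕ) : MvPolynomial (Fin N ⊕ Fin β) F)) =
      C ((((k : ℕ) + 1 : ℕ) : F)) := (map_natCast C _).symm
  rw [h1]
  exact degreeOf_C_mul_le _ i _

lemma degreeOf_pgen_inl {m β N : ℕ} (b : Fin m → Fin β) (k : Fin m) (j : Fin N) :
    (pgen F N b k).degreeOf (Sum.inl j) ≤ 1 := by
  classical
  rw [pgen, gen]
  refine (degreeOf_sum_le _ _ _).trans (Finset.sup_le fun l _ => ?_)
  refine (degreeOf_term b k l (Sum.inl j)).trans ?_
  rw [degreeOf_X, degreeOf_X]
  simp only [reduceCtorEq, if_false, mul_zero, add_zero]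
  split_ifs <;> simp

lemma degreeOf_pgen_inr {m β N : ℕ} (b : Fin m → Fin β) (k : Fin m) (i : Fin β) :
    (pgen F N b k).degreeOf (Sum.inr i) ≤ N := by
  classical
  rw [pgen, gen]
  refine (degreeOf_sum_le _ _ _).trans (Finset.sup_le fun l _ => ?_)
  refine (degreeOf_term b k l (Sum.inr i)).trans ?_
  rw [degreeOf_X, degreeOf_X]
  simp only [reduceCtorEq, if_false, zero_add]
  have := l.2
  split_ifs
  · omega
  · omega

lemma cast_gen {m β N : ℕ} (b : Fin m → Fin β) (z : Fin N → ℕ) (y : Fin β → ℕ) (k : Fin m) :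
    ((gen b z y k : ℕ) : F) = gen b (fun j => ((z j : ℕ) : F)) (fun i => ((y i : ℕ) : F)) k := by
  simp only [gen, Nat.cast_sum, Nat.cast_mul, Nat.cast_pow, Nat.cast_id]

end GridAux

open GridAux

/-- KAL-12 -/
theorem stGrid.{u} : StGrid.{u} := by
  intro F _ _ m β N D b f hD h
  classical
  by_contra hcon
  push Not at hcon
  apply comp_ne_zero b f h
  let bd : Fin N ⊕ Fin β → ℕ := Sum.elim (fun _ => D) (fun _ => N * D)
  have hinj : Function.Injective (Nat.cast : ℕ → F) := Nat.cast_injective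
  refine eq_zero_of_eval_zero_at_prod_finset _
    (fun i => (range (bd i + 1)).map ⟨Nat.cast, hinj⟩) ?_ ?_
  · intro i
    rw [Finset.card_map, Finset.card_range, Nat.lt_succ_iff]
    rcases i with j | i
    · refine (degreeOf_bind₁_le _ _ 1 (fun k => degreeOf_pgen_inl b k j) f).trans ?_
      rw [mul_one]
      exact hD
    · refine (degreeOf_bind₁_le _ _ N (fun k => degreeOf_pgen_inr b k i) f).trans ?_
      change f.totalDegree * N ≤ N * D
      rw [mul_comm]
      exact Nat.mul_le_mul le_rfl hD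
  · intro v hv
    have h1 : ∀ i, ∃ a : ℕ, a ≤ bd i ∧ (a : F) = v i := by
      intro i
      obtain ⟨a, ha, hav⟩ := Finset.mem_map.mp (hv i)
      exact ⟨a, Nat.lt_succ_iff.mp (Finset.mem_range.mp ha), hav⟩
    choose a ha hav using h1
    rw [eval_comp]
    have h2 := hcon (fun j => a (Sum.inl j)) (fun i => a (Sum.inr i))
      (fun j => ha (Sum.inl j)) (fun i => ha (Sum.inr i))
    rw [← h2]
    congr 1
    congr 1
    funext k
    rw [cast_gen]
    simp only [hav]

/-- KAL-13 -/
theorem stBoth.{u} : StBoth.{u} := by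
  intro F _ _ m β N b f g hf hg
  have h1 : comp N b f * comp N b g ≠ 0 :=
    mul_ne_zero (comp_ne_zero b f hf) (comp_ne_zero b g hg)
  have h2 : ∃ v : Fin N ⊕ Fin β → F, eval v (comp N b f * comp N b g) ≠ 0 := by
    by_contra hcon
    push Not at hcon
    exact h1 (MvPolynomial.funext fun v => by rw [hcon v, map_zero])
  obtain ⟨v, hv⟩ := h2
  refine ⟨fun j => v (Sum.inl j), fun i => v (Sum.inr i), ?_⟩
  rw [map_mul, eval_comp, eval_comp, ← map_mul] at hv
  exact hv

end Pool.Agent.Lib.MP_64d474_lc.Kal
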