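import Mathlib
import Pool.Agent.Lib.MP_64d474_lc.Kal.Defs
import Pool.Agent.Lib.MP_64d474_lc.Kal.Stmts

/-!
# KAL-8: all variables may be replaced class by class
-/

set_option autoImplicit false

open Finset Module Matrix

namespace Pool.Agent.Lib.MP_64d474_lc.Kal.HybridStep

open Pool.Agent.Lib.MP_64d474_lc.Kal

universe u

variable {F : Type u} [Field F] {ι E : Type} [Fintype ι] [DecidableEq ι] [Fintype E]
  [DecidableEq E] {m β N : ℕ}

/-- the matrix only depends on the variables that occur -/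
theorem mat_congr (P : E → Matrix ι ι F) (κ : E → Option (Fin m)) {x x' : Fin m → F}
    (h : ∀ p k, κ p = some k → x k = x' k) : mat P κ x = mat P κ x' := by
  unfold mat
  refine Finset.sum_congr rfl fun p _ => ?_
  have hc : cf κ x p = cf κ x' p := by
    unfold cf
    rcases hk : κ p with _ | k
    · rfl
    · simpa using h p k hk
  rw [hc]

/-- a cheap set stays cheap for a smaller set of wild pieces -/
theorem cheap_mono {P : E → Matrix ι ι F} {w w' : E → Prop} {Q : Finset E} {n : ℕ}
    (hw : ∀ p, w' p → w p) (h : Cheap P w Q n) : Cheap P w' Q n := by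
  obtain ⟨ρ, C, lam, h1, h2, h3, h4⟩ := h
  exact ⟨ρ, C, lam, h1, h2, fun p hp hq => h3 p (hw p hp) hq, h4⟩

/-- a variable of class `i` that occurs is active -/
theorem mem_act {κ : E → Option (Fin m)} {b : Fin m → Fin β} {i : Fin β} {k : Fin m} :
    k ∈ act κ b i ↔ b k = i ∧ ∃ p, κ p = some k := by
  simp [act]

/-- a piece of `pcs κ S` has a variable -/
theorem ne_none_of_mem_pcs {κ : E → Option (Fin m)} {S : Finset (Fin m)} {p : E}
    (hp : p ∈ pcs κ S) : κ p ≠ none := by
  simp only [pcs, Finset.mem_filter, Finset.mem_univ, true_and] at hp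
  obtain ⟨k, -, hk⟩ := hp
  simp [hk]

/-- the point after `i` steps -/
def mix (b : Fin m → Fin β) (z : Fin N → F) (y : Fin β → F) (x : Fin m → F) (i : ℕ)
    (k : Fin m) : F :=
  if (b k : ℕ) < i then gen b z y k else x k

/-- the point with the replaced class agrees with the point after the next step on all variables
that occur -/
theorem mix_succ (κ : E → Option (Fin m)) (b : Fin m → Fin β) (z : Fin N → F) (y : Fin β → F)
    (x : Fin m → F) (i : Fin β) (η : F) (don cur : Finset (Fin m))
    (hdon : ∀ k, k ∈ don ↔ (b k : ℕ) < i) (hcur : ∀ k, k ∈ cur ↔ k ∈ act κ b i) (p : E)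
    (k : Fin m) (hk : κ p = some k) :
    (if k ∈ don then ∑ j : Fin N, z j * ((((k : ℕ) + 1 : ℕ) : F) * y (b k)) ^ ((j : ℕ) + 1) else
      if k ∈ cur then ∑ j : Fin N, z j * ((((k : ℕ) + 1 : ℕ) : F) * η) ^ ((j : ℕ) + 1)
      else x k) = mix b z (Function.update y i η) x ((i : ℕ) + 1) k := by
  unfold mix gen
  by_cases h1 : (b k : ℕ) < i
  · have hne : b k ≠ i := fun h => by rw [h] at h1; exact lt_irrefl _ h1
    rw [if_pos ((hdon k).2 h1), if_pos (Nat.lt_succ_of_lt h1), Function.update_of_ne hne]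
  · rw [if_neg (fun h => h1 ((hdon k).1 h))]
    by_cases h2 : b k = i
    · have hc : k ∈ cur := (hcur k).2 (mem_act.2 ⟨h2, p, hk⟩)
      rw [if_pos hc, if_pos (by rw [h2]; exact Nat.lt_succ_self _), h2, Function.update_self]
    · have hc : k ∉ cur := fun h => h2 (mem_act.1 ((hcur k).1 h)).1
      have h3 : ¬ (b k : ℕ) < (i : ℕ) + 1 := by
        intro h
        exact h2 (Fin.ext (by omega))
      rw [if_neg hc, if_neg h3]

/-- the point before the step in the form used by the step statements -/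
theorem mix_eq (b : Fin m → Fin β) (z : Fin N → F) (y : Fin β → F) (x : Fin m → F) (i : Fin β)
    (don : Finset (Fin m)) (hdon : ∀ k, k ∈ don ↔ (b k : ℕ) < i) (k : Fin m) :
    mix b z y x i k = if k ∈ don then
      ∑ j : Fin N, z j * ((((k : ℕ) + 1 : ℕ) : F) * y (b k)) ^ ((j : ℕ) + 1) else x k := by
  unfold mix gen
  by_cases h : (b k : ℕ) < i
  · rw [if_pos h, if_pos ((hdon k).2 h)]
  · rw [if_neg h, if_neg (fun h' => h ((hdon k).1 h'))]

/-- one step -/
theorem step [CharZero F] (h6 : StStepP.{u}) (h7 : StSingle.{u}) (P : E → Matrix ι ι F)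
    (κ : E → Option (Fin m)) (b : Fin m → Fin β) (hN : 1 ≤ N) (i : Fin β)
    (hcl : (act κ b i).card ≤ 1 ∨ ∃ N', Cheap P (fun p => κ p ≠ none) (pcs κ (act κ b i)) N' ∧
      N' + (act κ b i).card ≤ N) (x : Fin m → F) (z : Fin N → F) (y : Fin β → F)
    (h : (mat P κ (mix b z y x i)).det ≠ 0) :
    ∃ (z' : Fin N → F) (y' : Fin β → F), (mat P κ (mix b z' y' x ((i : ℕ) + 1))).det ≠ 0 := by
  classical
  let don : Finset (Fin m) := univ.filter fun k => (b k : ℕ) < i
  have hdon : ∀ k, k ∈ don ↔ (b k : ℕ) < i := fun k => by simp [don]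
  let g : Fin m → Fin N → F := fun k j => ((((k : ℕ) + 1 : ℕ) : F) * y (b k)) ^ ((j : ℕ) + 1)
  have h0 : (mat P κ fun k => if k ∈ don then ∑ j, z j * g k j else x k).det ≠ 0 := by
    rw [← mat_congr P κ (x := mix b z y x i) fun p k _ => mix_eq b z y x i don hdon k]
    exact h
  have hdisj : ∀ k, k ∈ act κ b i → k ∉ don := fun k hk hd => by
    have h1 := (hdon k).1 hd
    rw [(mem_act.1 hk).1] at h1
    exact lt_irrefl _ h1
  rcases hcl with hcl | ⟨N', hch, hle⟩
  · rcases Nat.lt_or_ge 0 (act κ b i).card with hpos | hzero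
    · have h1 : (act κ b i).card = 1 := le_antisymm hcl hpos
      obtain ⟨k₀, hk₀⟩ := Finset.card_eq_one.1 h1
      obtain ⟨z', η, hz⟩ := h7 F ι E P m N κ don k₀
        (hdisj k₀ (by rw [hk₀]; exact Finset.mem_singleton_self _)) hN g z x h0
      refine ⟨z', Function.update y i η, ?_⟩
      rw [← mat_congr P κ fun p k hk => mix_succ κ b z' y x i η don {k₀} hdon
        (fun k => by rw [hk₀]) p k hk]
      simpa only [Finset.mem_singleton] using hz
    · have h1 : act κ b i = ∅ := Finset.card_eq_zero.1 (Nat.le_zero.1 hzero)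
      refine ⟨z, y, ?_⟩
      have hc : mat P κ (mix b z y x ((i : ℕ) + 1)) = mat P κ (mix b z y x i) := by
        refine mat_congr P κ fun p k hk => ?_
        have hne : b k ≠ i := fun hb => by
          have : k ∈ act κ b i := mem_act.2 ⟨hb, p, hk⟩
          rw [h1] at this
          exact absurd this (Finset.notMem_empty _)
        unfold mix
        by_cases h2 : (b k : ℕ) < i
        · rw [if_pos h2, if_pos (Nat.lt_succ_of_lt h2)]
        · have h3 : ¬ (b k : ℕ) < (i : ℕ) + 1 := fun h' => hne (Fin.ext (by omega))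
          rw [if_neg h2, if_neg h3]
      rw [hc]
      exact h
  · obtain ⟨z', η, hz⟩ := h6 F ι E P m N κ don (act κ b i)
      (Finset.disjoint_left.2 fun k hd hk => hdisj k hk hd) g N'
      (cheap_mono (fun p hp => ne_none_of_mem_pcs hp) hch) hle z x h0
    refine ⟨z', Function.update y i η, ?_⟩
    rw [← mat_congr P κ fun p k hk => mix_succ κ b z' y x i η don (act κ b i) hdon
      (fun k => Iff.rfl) p k hk]
    exact hz

end Pool.Agent.Lib.MP_64d474_lc.Kal.HybridStep

namespace Pool.Agent.Lib.MP_64d474_lc.Kal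

/-- KAL-8 -/
theorem stHybrid.{u} (h6 : StStepP.{u}) (h7 : StSingle.{u}) : StHybrid.{u} := by
  intro F _ _ ι E _ _ _ _ P m β N κ b hN hcl x hx
  have key : ∀ i : ℕ, i ≤ β → ∃ (z : Fin N → F) (y : Fin β → F),
      (mat P κ (HybridStep.mix b z y x i)).det ≠ 0 := by
    intro i
    induction i with
    | zero =>
      intro _
      refine ⟨fun _ => 0, fun _ => 0, ?_⟩
      have : HybridStep.mix b (fun _ : Fin N => (0 : F)) (fun _ => 0) x 0 = x := by
        funext k
        simp [HybridStep.mix]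
      rw [this]
      exact hx
    | succ i ih =>
      intro hi
      obtain ⟨z, y, h⟩ := ih (Nat.le_of_succ_le hi)
      exact HybridStep.step h6 h7 P κ b hN ⟨i, hi⟩ (hcl ⟨i, hi⟩) x z y h
  obtain ⟨z, y, h⟩ := key β le_rfl
  refine ⟨z, y, ?_⟩
  have : HybridStep.mix b z y x β = gen b z y := by
    funext k
    simp [HybridStep.mix, (b k).isLt]
  rw [this] at h
  exact h

end Pool.Agent.Lib.MP_64d474_lc.Kal
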