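import Pool.Agent.Lib.MP_64d474_lc.Kal.MainT
import Pool.Agent.Lib.MP_64d474_lc.SubExp.Factor

/-!
# Symbolic matrices with coefficient matrices of small total rank
-/

set_option autoImplicit false

open Finset Module Matrix MvPolynomial

namespace Pool.Agent.Lib.MP_64d474_lc.Kal

theorem stMainFlat.{u} (h8 : StHybrid.{u}) (h11 : StFlat.{u}) : StMainFlat.{u} := by
  classical
  intro F _ _ n m B₀ B R β N hR hN b hb x hx
  set P : Option (Fin m) → Matrix (Fin n) (Fin n) F := fun p => p.elim B₀ B with hP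
  set κ : Option (Fin m) → Option (Fin m) := fun p =>
    p.elim none fun k => if (B k).rank = 0 then none else some k with hκ
  have hκs : ∀ (p : Option (Fin m)) (k : Fin m), κ p = some k ↔ p = some k ∧ (B k).rank ≠ 0 := by
    intro p k
    rcases p with _ | l
    · simp [hκ]
    · simp only [hκ, Option.elim_some, Option.some.injEq]
      split_ifs with h
      · simp only [false_iff, not_and, not_not]
        rintro rfl
        exact h
      · simp only [Option.some.injEq]
        constructor
        · rintro rfl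
          exact ⟨rfl, h⟩
        · exact fun h => h.1
  have hmat : ∀ y : Fin m → F, mat P κ y = B₀ + ∑ k, y k • B k := by
    intro y
    unfold mat
    rw [Fintype.sum_option]
    congr 1
    · simp [cf, hκ, hP]
    · refine sum_congr rfl fun k _ => ?_
      by_cases h : (B k).rank = 0
      · have h0 : B k = 0 := by
          obtain ⟨U, V, hUV⟩ := SubExp.exists_factor_of_rank_le (B k) (Nat.le_zero.2 h)
          rw [hUV]
          ext i j
          rw [Matrix.mul_apply, Matrix.zero_apply]
          exact sum_eq_zero fun a _ => isEmptyElim a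
        simp [hP, h0]
      · simp [cf, hκ, hP, h]
  have h := h8 F (Fin n) (Option (Fin m)) P m β N κ b (by nlinarith) ?_ x (by rwa [hmat])
  · obtain ⟨z, y, hzy⟩ := h
    exact ⟨z, y, by rwa [hmat] at hzy⟩
  intro i
  have hact : act κ b i = univ.filter fun k => b k = i ∧ (B k).rank ≠ 0 := by
    ext k
    rw [mem_act, mem_filter]
    simp only [hκs, mem_univ, true_and]
    constructor
    · rintro ⟨h1, p, h2, h3⟩
      exact ⟨h1, h3⟩
    · rintro ⟨h1, h3⟩
      exact ⟨h1, some k, rfl, h3⟩
  by_cases hc : (act κ b i).card ≤ 1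
  · exact Or.inl hc
  right
  have hb' := (hb i).resolve_left (by rw [← hact]; exact hc)
  have hQ : pcs κ (act κ b i) = (act κ b i).map ⟨some, Option.some_injective _⟩ := by
    ext p
    rw [mem_pcs, mem_map]
    constructor
    · rintro ⟨k, hk, hp⟩
      exact ⟨k, hk, ((hκs p k).1 hp).1.symm⟩
    · rintro ⟨k, hk, rfl⟩
      refine ⟨k, hk, (hκs _ k).2 ⟨rfl, ?_⟩⟩
      rw [hact, mem_filter] at hk
      exact hk.2.2
  have hsum : ∑ p ∈ pcs κ (act κ b i), (P p).rank = ∑ k ∈ act κ b i, (B k).rank := by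
    rw [hQ, sum_map]
    rfl
  have hle : ∑ k ∈ act κ b i, (B k).rank ≤ ∑ k ∈ univ.filter (fun k => b k = i), (B k).rank := by
    refine sum_le_sum_of_subset fun k hk => ?_
    rw [hact, mem_filter] at hk
    rw [mem_filter]
    exact ⟨mem_univ _, hk.2.1⟩
  have hcard : (act κ b i).card ≤ ∑ k ∈ act κ b i, (B k).rank := by
    rw [card_eq_sum_ones]
    refine sum_le_sum fun k hk => ?_
    rw [hact, mem_filter] at hk
    exact Nat.one_le_iff_ne_zero.2 hk.2.2
  refine ⟨(∑ p ∈ pcs κ (act κ b i), (P p).rank) ^ 2, h11 F _ _ P _ _, ?_⟩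
  rw [hsum]
  set T := ∑ k ∈ act κ b i, (B k).rank with hT
  have h1 : T + 1 ≤ 2 * R := by omega
  have h2 : T ^ 2 + T ≤ (T + 1) ^ 2 := by nlinarith
  have h3 : (T + 1) ^ 2 ≤ (2 * R) ^ 2 := Nat.pow_le_pow_left h1 2
  have h4 : (2 * R) ^ 2 = 4 * R ^ 2 := by ring
  omega

end Pool.Agent.Lib.MP_64d474_lc.Kal
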