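import Pool.Agent.Lib.MP_64d474_lc.Kal.MainC
import Pool.Agent.Lib.MP_64d474_lc.SubExp.RankOne

/-!
# The final forms for symbolic matrices
-/

set_option autoImplicit false

open Finset Module Matrix MvPolynomial

namespace Pool.Agent.Lib.MP_64d474_lc.Kal

open SubExp (submatrix_eq)

theorem sum_count_le {m : ℕ} {E : Type} [Fintype E] [DecidableEq E] (κ : E → Option (Fin m))
    (t : BT E) (hleaf : ∀ p, p ∈ t.leaves ↔ κ p ≠ none) :
    ∑ k, (univ.filter fun p => κ p = some k).card ≤ t.leaves.length := by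
  classical
  have e1 : ∑ k, (univ.filter fun p => κ p = some k).card =
      (univ.biUnion fun k : Fin m => univ.filter fun p => κ p = some k).card := by
    rw [card_biUnion]
    intro k _ k' _ hkk
    rw [Function.onFun, disjoint_left]
    intro p hp hp'
    rw [mem_filter] at hp hp'
    exact hkk (Option.some_injective _ (hp.2.symm.trans hp'.2))
  rw [e1]
  refine le_trans (card_le_card (t := t.leaves.toFinset) fun p hp => ?_)
    (List.toFinset_card_le _)
  rw [mem_biUnion] at hp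
  obtain ⟨k, _, hk⟩ := hp
  rw [mem_filter] at hk
  rw [List.mem_toFinset, hleaf, hk.2]
  exact Option.some_ne_none k

theorem mainTree.{u} (hT : StMainTree.{u}) (h9 : StBal) (h12 : StGrid.{u}) (h14 : StDet.{u})
    (F : Type u) [Field F] [CharZero F] (ι E : Type) [Fintype ι] [DecidableEq ι] [Fintype E]
    [DecidableEq E] (P : E → Matrix ι ι F) (m : ℕ) (κ : E → Option (Fin m)) (t : BT E)
    (w s R β N D : ℕ) (hgood : Good P (fun p => κ p ≠ none) w t) (hnd : t.leaves.Nodup)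
    (hleaf : ∀ p, p ∈ t.leaves ↔ κ p ≠ none) (hs : t.leaves.length ≤ s) (hw : 1 ≤ w)
    (hR : 1 ≤ R) (hβ : 2 * (s / R) + 2 ≤ β) (hN : 18 * R * w ^ 2 ≤ N)
    (hD : min (Fintype.card ι) (∑ p ∈ univ.filter (fun p => κ p ≠ none), (P p).rank) ≤ D)
    (x : Fin m → F) (hx : (mat P κ x).det ≠ 0) :
    ∃ h ∈ hits m β N D, (mat P κ fun k => (h k : F)).det ≠ 0 := by
  classical
  obtain ⟨b, hbm, hb⟩ := exists_bal h9 (fun k => (univ.filter fun p => κ p = some k).card) hR
    ((sum_count_le κ t hleaf).trans hs) hβ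
  have h1 := hT F ι E P m κ t w R β N hgood hnd hleaf hw hR hN b
    (fun i => class_of_count κ b _ (fun _ => rfl) R i (hb i)) x hx
  obtain ⟨f, hf, hf1, hf2⟩ := h14 F ι E P m κ
  simp only [← hf] at h1
  obtain ⟨z, y, hz, hy, hev⟩ := h12 F m β N D b f ((le_min hf1 hf2).trans hD) h1
  refine ⟨gen b z y, mem_hits b hbm z y hz hy, ?_⟩
  rw [hf] at hev
  exact hev

theorem mainFlat.{u} (hF : StMainFlat.{u}) (h9 : StBal) (h12 : StGrid.{u}) (h14 : StDet.{u})
    (F : Type u) [Field F] [CharZero F] (n m : ℕ) (C₀ : Matrix (Fin n) (Fin n) F)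
    (C : Fin m → Matrix (Fin n) (Fin n) F) (s R β N D : ℕ) (hs : ∑ k, (C k).rank ≤ s)
    (hR : 1 ≤ R) (hβ : 2 * (s / R) + 2 ≤ β) (hN : 4 * R ^ 2 ≤ N) (hD : min n s ≤ D)
    (x : Fin m → F) (hx : (C₀ + ∑ k, x k • C k).det ≠ 0) :
    ∃ h ∈ hits m β N D, (C₀ + ∑ k, (h k : F) • C k).det ≠ 0 := by
  classical
  obtain ⟨b, hbm, hb⟩ := exists_bal h9 (fun k => (C k).rank) hR hs hβ
  have h1 := hF F n m C₀ C R β N hR hN b hb x hx
  obtain ⟨f, hf, hf1, hf2⟩ := h14 F (Fin n) (Option (Fin m)) (fun p => p.elim C₀ C) m id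
  have hmat : ∀ y : Fin m → F, mat (fun p : Option (Fin m) => p.elim C₀ C) id y =
      C₀ + ∑ k, y k • C k := by
    intro y
    unfold mat
    rw [Fintype.sum_option]
    simp [cf]
  simp only [hmat] at hf
  have hf3 : f.totalDegree ≤ s := by
    refine hf2.trans (le_trans (le_of_eq ?_) hs)
    rw [sum_filter, Fintype.sum_option]
    simp
  rw [Fintype.card_fin] at hf1
  simp only [← hf] at h1
  obtain ⟨z, y, hz, hy, hev⟩ := h12 F m β N D b f ((le_min hf1 hf3).trans hD) h1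
  refine ⟨gen b z y, mem_hits b hbm z y hz hy, ?_⟩
  rw [hf] at hev
  exact hev

theorem mainAll.{u} (hF : StMainFlat.{u}) (h9 : StBal) (h12 : StGrid.{u}) (h14 : StDet.{u})
    (F : Type u) [Field F] [CharZero F] (n m : ℕ) (W : Finset (Fin m))
    (T' : Finset (Fin m → ℕ))
    (hT' : ∀ (B₀ : Matrix (Fin n) (Fin n) F) (B : Fin m → Matrix (Fin n) (Fin n) F),
      (∀ k, (B k).rank ≤ 1) → ∃ g ∈ T', ∀ x : Fin m → F,
        (B₀ + ∑ k, x k • B k).rank ≤ (B₀ + ∑ k, (g k : F) • B k).rank)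
    (B₀ : Matrix (Fin n) (Fin n) F) (B : Fin m → Matrix (Fin n) (Fin n) F)
    (hB : ∀ k, k ∉ W → (B k).rank ≤ 1) (s R β N D : ℕ) (hs : ∑ k ∈ W, (B k).rank ≤ s)
    (hR : 1 ≤ R) (hβ : 2 * (s / R) + 2 ≤ β) (hN : 4 * R ^ 2 ≤ N) (hD : min n s ≤ D) :
    ∃ h ∈ hits m β N D, ∃ g ∈ T', ∀ x : Fin m → F, (B₀ + ∑ k, x k • B k).rank ≤
      (B₀ + ∑ k, (if k ∈ W then (h k : F) else (g k : F)) • B k).rank := by
  classical
  obtain ⟨x, hx⟩ := SubExp.exists_max B₀ B
  obtain ⟨ρ, hρ, I, J, hIJ⟩ : ∃ ρ, (B₀ + ∑ k, x k • B k).rank = ρ ∧ ∃ I J : Fin ρ → Fin n,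
      ((B₀ + ∑ k, x k • B k).submatrix I J).det ≠ 0 :=
    ⟨_, rfl, Pool.Agent.Lib.MP_64d474_lc.exists_minor (B₀ + ∑ k, x k • B k)⟩
  have hρn : ρ ≤ n := by
    rw [← hρ]
    simpa using Matrix.rank_le_card_width (B₀ + ∑ k, x k • B k)
  -- the wild variables
  set C₀ : Matrix (Fin ρ) (Fin ρ) F :=
    (B₀ + ∑ k, (if k ∈ W then 0 else x k) • B k).submatrix I J with hC₀
  set C : Fin m → Matrix (Fin ρ) (Fin ρ) F :=
    fun k => if k ∈ W then (B k).submatrix I J else 0 with hC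
  have hrk : ∀ k, (C k).rank ≤ if k ∈ W then (B k).rank else 0 := by
    intro k
    rw [hC]
    dsimp only
    split_ifs with h
    · rw [← submatrix_eq]
      exact (Matrix.rank_mul_le_left _ _).trans (Matrix.rank_mul_le_right _ _)
    · rw [Matrix.rank_zero]
  have hs' : ∑ k, (C k).rank ≤ s := by
    refine (sum_le_sum fun k _ => hrk k).trans (le_trans (le_of_eq ?_) hs)
    rw [← sum_filter]
    congr 1
    ext k
    simp
  have hsum : ∀ y : Fin m → F, C₀ + ∑ k, y k • C k =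
      (B₀ + ∑ k, (if k ∈ W then y k else x k) • B k).submatrix I J := by
    intro y
    ext i j
    simp only [hC₀, hC, Matrix.add_apply, Matrix.sum_apply, Matrix.smul_apply,
      Matrix.submatrix_apply, smul_eq_mul]
    rw [add_assoc, ← sum_add_distrib]
    congr 1
    refine sum_congr rfl fun k _ => ?_
    split_ifs <;> simp
  have hdet : (C₀ + ∑ k, x k • C k).det ≠ 0 := by
    rw [hsum]
    simpa only [ite_self] using hIJ
  have hD' : min ρ s ≤ D := (min_le_min_right s hρn).trans hD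
  obtain ⟨h2, h2mem, h2det⟩ := mainFlat hF h9 h12 h14 F ρ m C₀ C s R β N D hs' hR hβ hN hD' x hdet
  rw [hsum] at h2det
  have hrank2 : ρ ≤ (B₀ + ∑ k, (if k ∈ W then (h2 k : F) else x k) • B k).rank := by
    have h3 := Matrix.rank_of_det_ne_zero h2det
    rw [Fintype.card_fin] at h3
    rw [← h3, ← submatrix_eq]
    exact (Matrix.rank_mul_le_left _ _).trans (Matrix.rank_mul_le_right _ _)
  -- the variables of rank at most one
  set D₀ := B₀ + ∑ k, (if k ∈ W then (h2 k : F) else 0) • B k with hD₀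
  set DD : Fin m → Matrix (Fin n) (Fin n) F := fun k => if k ∈ W then 0 else B k with hDD
  have hsum2 : ∀ y : Fin m → F, D₀ + ∑ k, y k • DD k =
      B₀ + ∑ k, (if k ∈ W then (h2 k : F) else y k) • B k := by
    intro y
    rw [hD₀, add_assoc, ← sum_add_distrib]
    congr 1
    refine sum_congr rfl fun k _ => ?_
    rw [hDD]
    dsimp only
    split_ifs <;> simp
  obtain ⟨h1, h1mem, hmax⟩ := hT' D₀ DD (fun k => by
    rw [hDD]
    dsimp only
    split_ifs with h
    · rw [Matrix.rank_zero]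
      exact zero_le_one
    · exact hB k h)
  refine ⟨h2, h2mem, h1, h1mem, fun x' => ?_⟩
  refine (hx x').trans (hρ.le.trans (hrank2.trans ?_))
  have h3 := hmax x
  rw [hsum2, hsum2] at h3
  exact h3

end Pool.Agent.Lib.MP_64d474_lc.Kal
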