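import Pool.Agent.Lib.MP_64d474_lc.Kal.Stmts

/-!
# Tree-like symbolic matrices
-/

set_option autoImplicit false

open Finset Module Matrix MvPolynomial

namespace Pool.Agent.Lib.MP_64d474_lc.Kal

set_option linter.unusedSectionVars false

section

variable {F : Type*} [Field F] {ι E : Type} [Fintype ι] [DecidableEq ι] [Fintype E]
  [DecidableEq E] {m : ℕ}

theorem mem_pcs (κ : E → Option (Fin m)) (S : Finset (Fin m)) (p : E) :
    p ∈ pcs κ S ↔ ∃ k ∈ S, κ p = some k := by
  classical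
  unfold pcs
  rw [mem_filter]
  simp

theorem mem_act {β : ℕ} (κ : E → Option (Fin m)) (b : Fin m → Fin β) (i : Fin β) (k : Fin m) :
    k ∈ act κ b i ↔ b k = i ∧ ∃ p, κ p = some k := by
  classical
  unfold act
  rw [mem_filter]
  simp

theorem card_act_le {β : ℕ} (κ : E → Option (Fin m)) (b : Fin m → Fin β) (i : Fin β) :
    (act κ b i).card ≤ (pcs κ (act κ b i)).card := by
  classical
  have h : ∀ k ∈ act κ b i, ∃ p, κ p = some k := fun k hk => ((mem_act κ b i k).1 hk).2
  rcases isEmpty_or_nonempty E with hE | hE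
  · have h0 : act κ b i = ∅ := by
      rw [eq_empty_iff_forall_notMem]
      intro k hk
      obtain ⟨p, _⟩ := h k hk
      exact hE.elim p
    rw [h0, card_empty]
    exact Nat.zero_le _
  choose! f hf using h
  refine card_le_card_of_injOn f (fun k hk => ?_) ?_
  · rw [mem_coe] at hk ⊢
    exact (mem_pcs κ _ _).2 ⟨k, hk, hf k hk⟩
  · intro k hk k' hk' hkk
    rw [mem_coe] at hk hk'
    have h1 := hf k hk
    rw [hkk, hf k' hk'] at h1
    exact (Option.some_injective _ h1).symm

theorem range_mat_le (P : E → Matrix ι ι F) (c : E → F) :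
    LinearMap.range (∑ p, c p • P p).mulVecLin ≤ csp P univ := by
  rintro _ ⟨v, rfl⟩
  rw [Matrix.mulVecLin_apply, Matrix.sum_mulVec]
  refine Submodule.sum_mem _ fun p _ => ?_
  rw [Matrix.smul_mulVec]
  refine Submodule.smul_mem _ _ ?_
  have h1 : LinearMap.range (P p).mulVecLin ≤ csp P univ := by
    unfold csp
    exact le_iSup₂_of_le p (mem_univ p) le_rfl
  exact h1 ⟨v, rfl⟩

theorem card_le_cdim (P : E → Matrix ι ι F) (c : E → F) (h : (∑ p, c p • P p).det ≠ 0) :
    Fintype.card ι ≤ cdim P univ := by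
  have h1 := Matrix.rank_of_det_ne_zero h
  rw [← h1]
  exact Submodule.finrank_mono (range_mat_le P c)

theorem card_le_rdim (P : E → Matrix ι ι F) (c : E → F) (h : (∑ p, c p • P p).det ≠ 0) :
    Fintype.card ι ≤ rdim P univ := by
  refine card_le_cdim (fun p => (P p).transpose) c ?_
  have e : ∑ p, c p • (P p).transpose = (∑ p, c p • P p).transpose := by
    rw [Matrix.transpose_sum]
    exact sum_congr rfl fun p _ => (Matrix.transpose_smul _ _).symm
  rw [e, Matrix.det_transpose]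
  exact h

end

theorem stMainTree.{u} (h8 : StHybrid.{u}) (h10 : StTree.{u}) : StMainTree.{u} := by
  classical
  intro F _ _ ι E _ _ _ _ P m κ t w R β N hgood hnd hleaf hw hR hN b hb x hx
  have hw2 : 1 ≤ w ^ 2 := Nat.one_le_pow _ _ hw
  have hRw : 1 ≤ R * w ^ 2 := Nat.mul_pos hR hw2
  have hN1 : 1 ≤ N := by
    have : 18 * R * w ^ 2 = 18 * (R * w ^ 2) := by ring
    omega
  refine h8 F ι E P m β N κ b hN1 ?_ x hx
  intro i
  by_cases hc : (act κ b i).card ≤ 1
  · exact Or.inl hc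
  right
  have hb' := (hb i).resolve_left hc
  set Q := pcs κ (act κ b i) with hQ
  have hle := card_act_le κ b i
  rw [← hQ] at hle
  have hQ1 : 1 ≤ Q.card := by omega
  refine ⟨4 * w ^ 2 * (2 * Q.card - 1), h10 F ι E P _ w t hgood hnd hleaf
    (card_le_cdim P _ hx) (card_le_rdim P _ hx) Q ?_ hQ1, ?_⟩
  · intro p hp
    rw [hQ, mem_pcs] at hp
    obtain ⟨k, _, hk⟩ := hp
    rw [hk]
    exact Option.some_ne_none k
  · obtain ⟨l, hl⟩ : ∃ l, Q.card = l + 1 := ⟨Q.card - 1, by omega⟩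
    have e1 : 2 * Q.card - 1 = 2 * l + 1 := by omega
    rw [e1]
    have h2 : (act κ b i).card ≤ l + 1 := by omega
    have h3 : l + 2 ≤ 2 * R := by omega
    have h4 : (l + 1) ≤ (l + 1) * w ^ 2 := Nat.le_mul_of_pos_right _ hw2
    calc 4 * w ^ 2 * (2 * l + 1) + (act κ b i).card
        ≤ 4 * w ^ 2 * (2 * l + 1) + (l + 1) * w ^ 2 := by omega
      _ ≤ 9 * (l + 2) * w ^ 2 := by nlinarith
      _ ≤ 9 * (2 * R) * w ^ 2 := Nat.mul_le_mul_right _ (Nat.mul_le_mul_left _ h3)
      _ = 18 * R * w ^ 2 := by ring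
      _ ≤ N := hN

end Pool.Agent.Lib.MP_64d474_lc.Kal
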