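import Mathlib

/-!
# KAL-16a: determinants of bordered matrices

The bordered determinant of `M`, `u`, `v` is
`det (fromBlocks M (replicateCol Unit v) (-replicateRow Unit u) 0)`.
-/

set_option autoImplicit false

open Finset Matrix

namespace Pool.Agent.Lib.MP_64d474_lc.Kal

variable {R : Type*} [CommRing R] {ι ι₁ ι₂ : Type*} [Fintype ι] [DecidableEq ι] [Fintype ι₁]
  [DecidableEq ι₁] [Fintype ι₂] [DecidableEq ι₂]

namespace NetDet

/-- the cofactors of the last row of a bordered matrix -/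
theorem cofactor (M : Matrix ι ι R) (u v : ι → R) (i : ι) :
    (fromBlocks M (replicateCol Unit v) (-replicateRow Unit u) 0 : Matrix (ι ⊕ Unit) (ι ⊕ Unit)
      R).adjugate (Sum.inl i) (Sum.inr ()) = -(M.updateCol i v).det := by
  rw [adjugate_apply]
  have h := det_permute' (Equiv.swap (Sum.inl i) (Sum.inr ()))
    ((fromBlocks M (replicateCol Unit v) (-replicateRow Unit u) 0 : Matrix (ι ⊕ Unit) (ι ⊕ Unit)
      R).updateRow (Sum.inr ()) (Pi.single (Sum.inl i) 1))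
  have hne : (Sum.inl i : ι ⊕ Unit) ≠ Sum.inr () := by simp
  rw [Equiv.Perm.sign_swap hne] at h
  have h2 : ((fromBlocks M (replicateCol Unit v) (-replicateRow Unit u) 0 :
      Matrix (ι ⊕ Unit) (ι ⊕ Unit) R).updateRow (Sum.inr ()) (Pi.single (Sum.inl i) 1)).submatrix
      id (Equiv.swap (Sum.inl i) (Sum.inr ())) =
      fromBlocks (M.updateCol i v) (replicateCol Unit fun k => M k i) 0 1 := by
    ext a b
    rcases a with a | a <;> rcases b with b | b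
    · by_cases hb : b = i
      · subst hb
        simp [updateRow_apply, updateCol_apply]
      · have : Equiv.swap (Sum.inl i) (Sum.inr ()) (Sum.inl b : ι ⊕ Unit) = Sum.inl b :=
          Equiv.swap_apply_of_ne_of_ne (by simpa using hb) (by simp)
        simp [updateRow_apply, updateCol_apply, this, hb]
    · simp [updateRow_apply]
    · by_cases hb : b = i
      · subst hb
        simp [updateRow_apply, Pi.single_apply]
      · have : Equiv.swap (Sum.inl i) (Sum.inr ()) (Sum.inl b : ι ⊕ Unit) = Sum.inl b :=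
          Equiv.swap_apply_of_ne_of_ne (by simpa using hb) (by simp)
        simp [updateRow_apply, this, hb, Pi.single_apply]
    · simp [updateRow_apply]
  rw [h2, det_fromBlocks_zero₂₁] at h
  simp only [det_one, mul_one] at h
  have h3 : ((-1 : ℤˣ) : R) = -1 := by simp
  rw [h3] at h
  rw [h]
  ring

/-- (1) in the form of Cramer's rule -/
theorem det_border_cramer (M : Matrix ι ι R) (u v : ι → R) :
    (fromBlocks M (replicateCol Unit v) (-replicateRow Unit u) 0 : Matrix (ι ⊕ Unit) (ι ⊕ Unit)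
      R).det = ∑ i, u i * (M.updateCol i v).det := by
  rw [det_eq_sum_mul_adjugate_row _ (Sum.inr ())]
  rw [Fintype.sum_sum_type]
  simp only [cofactor, fromBlocks_apply₂₁, fromBlocks_apply₂₂, Matrix.zero_apply, zero_mul,
    Finset.sum_const_zero, add_zero, Matrix.neg_apply, replicateRow_apply]
  refine Finset.sum_congr rfl fun i _ => ?_
  ring

end NetDet

open NetDet

/-- KAL-16a (1): the bordered determinant and the adjugate -/
theorem det_border (M : Matrix ι ι R) (u v : ι → R) :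
    (fromBlocks M (replicateCol Unit v) (-replicateRow Unit u) 0 : Matrix (ι ⊕ Unit) (ι ⊕ Unit)
      R).det = u ⬝ᵥ M.adjugate *ᵥ v := by
  rw [det_border_cramer, ← cramer_eq_adjugate_mulVec]
  simp [dotProduct, cramer_apply]

/-- KAL-16a (2): block diagonal matrices -/
theorem det_border_add (M₁ : Matrix ι₁ ι₁ R) (M₂ : Matrix ι₂ ι₂ R) (u₁ v₁ : ι₁ → R)
    (u₂ v₂ : ι₂ → R) :
    (fromBlocks (fromBlocks M₁ 0 0 M₂) (replicateCol Unit (Sum.elim v₁ v₂))
      (-replicateRow Unit (Sum.elim u₁ u₂)) 0 : Matrix ((ι₁ ⊕ ι₂) ⊕ Unit) ((ι₁ ⊕ ι₂) ⊕ Unit)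
      R).det =
    (fromBlocks M₁ (replicateCol Unit v₁) (-replicateRow Unit u₁) 0 :
      Matrix (ι₁ ⊕ Unit) (ι₁ ⊕ Unit) R).det * M₂.det +
    M₁.det * (fromBlocks M₂ (replicateCol Unit v₂) (-replicateRow Unit u₂) 0 :
      Matrix (ι₂ ⊕ Unit) (ι₂ ⊕ Unit) R).det := by
  rw [det_border_cramer, det_border_cramer, det_border_cramer, Fintype.sum_sum_type,
    Finset.sum_mul, Finset.mul_sum]
  congr 1
  · refine Finset.sum_congr rfl fun i _ => ?_
    have h : (fromBlocks M₁ 0 0 M₂).updateCol (Sum.inl i) (Sum.elim v₁ v₂) =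
        fromBlocks (M₁.updateCol i v₁) 0 ((0 : Matrix ι₂ ι₁ R).updateCol i v₂) M₂ := by
      ext a b
      rcases a with a | a <;> rcases b with b | b <;>
        simp [updateCol_apply]
    rw [h, det_fromBlocks_zero₁₂]
    simp [mul_assoc]
  · refine Finset.sum_congr rfl fun i _ => ?_
    have h : (fromBlocks M₁ 0 0 M₂).updateCol (Sum.inr i) (Sum.elim v₁ v₂) =
        fromBlocks M₁ ((0 : Matrix ι₁ ι₂ R).updateCol i v₁) 0 (M₂.updateCol i v₂) := by
      ext a b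
      rcases a with a | a <;> rcases b with b | b <;>
        simp [updateCol_apply]
    rw [h, det_fromBlocks_zero₂₁]
    simp only [Sum.elim_inr]
    ring

namespace NetDet

/-- the permutation of the indices used for (3) -/
def eqv (ι₁ ι₂ : Type*) : (ι₁ ⊕ Unit) ⊕ (ι₂ ⊕ Unit) ≃ ((ι₁ ⊕ ι₂) ⊕ Unit) ⊕ Unit where
  toFun
    | Sum.inl (Sum.inl i) => Sum.inl (Sum.inl (Sum.inl i))
    | Sum.inl (Sum.inr _) => Sum.inr ()
    | Sum.inr (Sum.inl i) => Sum.inl (Sum.inl (Sum.inr i))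
    | Sum.inr (Sum.inr _) => Sum.inl (Sum.inr ())
  invFun
    | Sum.inl (Sum.inl (Sum.inl i)) => Sum.inl (Sum.inl i)
    | Sum.inr _ => Sum.inl (Sum.inr ())
    | Sum.inl (Sum.inl (Sum.inr i)) => Sum.inr (Sum.inl i)
    | Sum.inl (Sum.inr _) => Sum.inr (Sum.inr ())
  left_inv := by
    rintro ((i | i) | (i | i)) <;> rfl
  right_inv := by
    rintro (((i | i) | i) | i) <;> rfl

end NetDet

/-- KAL-16a (3): products -/
theorem det_border_mul (M₁ : Matrix ι₁ ι₁ R) (M₂ : Matrix ι₂ ι₂ R) (u₁ v₁ : ι₁ → R)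
    (u₂ v₂ : ι₂ → R) :
    (fromBlocks (fromBlocks M₁ (-(vecMulVec v₁ u₂)) 0 M₂)
      (replicateCol Unit (Sum.elim (0 : ι₁ → R) v₂))
      (-replicateRow Unit (Sum.elim u₁ (0 : ι₂ → R))) 0 :
      Matrix ((ι₁ ⊕ ι₂) ⊕ Unit) ((ι₁ ⊕ ι₂) ⊕ Unit) R).det =
    (fromBlocks M₁ (replicateCol Unit v₁) (-replicateRow Unit u₁) 0 :
      Matrix (ι₁ ⊕ Unit) (ι₁ ⊕ Unit) R).det *
    (fromBlocks M₂ (replicateCol Unit v₂) (-replicateRow Unit u₂) 0 :
      Matrix (ι₂ ⊕ Unit) (ι₂ ⊕ Unit) R).det := by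
  set T : Matrix ((ι₁ ⊕ ι₂) ⊕ Unit) ((ι₁ ⊕ ι₂) ⊕ Unit) R :=
    fromBlocks (fromBlocks M₁ (-(vecMulVec v₁ u₂)) 0 M₂)
      (replicateCol Unit (Sum.elim (0 : ι₁ → R) v₂))
      (-replicateRow Unit (Sum.elim u₁ (0 : ι₂ → R))) 0 with hT
  set N₁ : Matrix (ι₁ ⊕ Unit) (ι₁ ⊕ Unit) R :=
    fromBlocks M₁ (replicateCol Unit v₁) (-replicateRow Unit u₁) 0 with hN₁
  set N₂ : Matrix (ι₂ ⊕ Unit) (ι₂ ⊕ Unit) R :=
    fromBlocks M₂ (replicateCol Unit v₂) (-replicateRow Unit u₂) 0 with hN₂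
  let E : Matrix (ι₂ ⊕ Unit) (ι₁ ⊕ Unit) R := fromBlocks 0 0 0 (-1)
  let W : Matrix (ι₁ ⊕ Unit) (ι₂ ⊕ Unit) R := fromBlocks 0 (replicateCol Unit v₁) 0 0
  let K : Matrix ((ι₁ ⊕ Unit) ⊕ (ι₂ ⊕ Unit)) ((ι₁ ⊕ Unit) ⊕ (ι₂ ⊕ Unit)) R :=
    fromBlocks N₁ 0 E N₂
  have hK : K.det = N₁.det * N₂.det := det_fromBlocks_zero₁₂ _ _ _
  rw [← hK]
  -- the row operation
  have hU : (fromBlocks 1 W 0 1 : Matrix ((ι₁ ⊕ Unit) ⊕ (ι₂ ⊕ Unit))
      ((ι₁ ⊕ Unit) ⊕ (ι₂ ⊕ Unit)) R).det = 1 := by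
    rw [det_fromBlocks_zero₂₁]; simp
  let K' : Matrix ((ι₁ ⊕ Unit) ⊕ (ι₂ ⊕ Unit)) ((ι₁ ⊕ Unit) ⊕ (ι₂ ⊕ Unit)) R :=
    fromBlocks (fromBlocks M₁ 0 (-replicateRow Unit u₁) 0)
      (fromBlocks (-(vecMulVec v₁ u₂)) 0 0 0) E N₂
  have hK' : (fromBlocks 1 W 0 1 : Matrix ((ι₁ ⊕ Unit) ⊕ (ι₂ ⊕ Unit))
      ((ι₁ ⊕ Unit) ⊕ (ι₂ ⊕ Unit)) R) * K = K' := by
    show fromBlocks 1 W 0 1 * fromBlocks N₁ 0 E N₂ = K'
    rw [fromBlocks_multiply]
    simp only [Matrix.one_mul, Matrix.zero_mul, Matrix.mul_zero, zero_add, add_zero]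
    have h1 : N₁ + W * E = fromBlocks M₁ 0 (-replicateRow Unit u₁) 0 := by
      show fromBlocks M₁ (replicateCol Unit v₁) (-replicateRow Unit u₁) 0 +
        fromBlocks 0 (replicateCol Unit v₁) 0 0 * fromBlocks 0 0 0 (-1) = _
      rw [fromBlocks_multiply, fromBlocks_add]
      simp
    have h2 : W * N₂ = fromBlocks (-(vecMulVec v₁ u₂)) 0 0 0 := by
      show fromBlocks 0 (replicateCol Unit v₁) 0 0 *
        fromBlocks M₂ (replicateCol Unit v₂) (-replicateRow Unit u₂) 0 = _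
      rw [fromBlocks_multiply]
      simp [vecMulVec_eq Unit]
    rw [h1, h2]
  have hdet : K.det = K'.det := by
    rw [← hK', det_mul, hU, one_mul]
  rw [hdet]
  -- swap two rows and reindex
  have h := det_permute (Equiv.swap (Sum.inl (Sum.inr ())) (Sum.inr (Sum.inr ()))) K'
  have hne : (Sum.inl (Sum.inr ()) : (ι₁ ⊕ Unit) ⊕ (ι₂ ⊕ Unit)) ≠ Sum.inr (Sum.inr ()) := by
    simp
  rw [Equiv.Perm.sign_swap hne] at h
  have h3 : ((-1 : ℤˣ) : R) = -1 := by simp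
  rw [h3] at h
  have h4 : (K'.submatrix (Equiv.swap (Sum.inl (Sum.inr ())) (Sum.inr (Sum.inr ()))) id) =
      (fromBlocks T 0 (replicateRow Unit (Sum.elim (Sum.elim (0 : ι₁ → R) (-u₂))
        (0 : Unit → R))) (-1) : Matrix (((ι₁ ⊕ ι₂) ⊕ Unit) ⊕ Unit) (((ι₁ ⊕ ι₂) ⊕ Unit) ⊕ Unit)
        R).submatrix (eqv ι₁ ι₂) (eqv ι₁ ι₂) := by
    have s1 : ∀ i : ι₁, Equiv.swap (Sum.inl (Sum.inr ())) (Sum.inr (Sum.inr ()))
        (Sum.inl (Sum.inl i) : (ι₁ ⊕ Unit) ⊕ (ι₂ ⊕ Unit)) = Sum.inl (Sum.inl i) := fun i =>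
      Equiv.swap_apply_of_ne_of_ne (by simp) (by simp)
    have s2 : ∀ i : ι₂, Equiv.swap (Sum.inl (Sum.inr ())) (Sum.inr (Sum.inr ()))
        (Sum.inr (Sum.inl i) : (ι₁ ⊕ Unit) ⊕ (ι₂ ⊕ Unit)) = Sum.inr (Sum.inl i) := fun i =>
      Equiv.swap_apply_of_ne_of_ne (by simp) (by simp)
    ext a b
    rcases a with (a | a) | (a | a) <;> rcases b with (b | b) | (b | b) <;>
      simp [s1, s2, eqv, K', E, hN₂, hT, vecMulVec_apply]
  rw [h4, det_submatrix_equiv_self, det_fromBlocks_zero₁₂] at h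
  have h5 : (-1 : Matrix Unit Unit R).det = -1 := by simp
  rw [h5] at h
  have h6 : T.det = K'.det := by
    have := congrArg (fun t => -t) h
    simpa using this
  exact h6

/-- KAL-16a (4): inversion -/
theorem det_border_inv (M : Matrix ι ι R) (u v : ι → R) :
    (fromBlocks (fromBlocks M (replicateCol Unit v) (-replicateRow Unit u) 0)
      (replicateCol Unit (Sum.elim (0 : ι → R) (1 : Unit → R)))
      (-replicateRow Unit (Sum.elim (0 : ι → R) (1 : Unit → R))) 0 :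
      Matrix ((ι ⊕ Unit) ⊕ Unit) ((ι ⊕ Unit) ⊕ Unit) R).det = M.det := by
  rw [det_border_cramer, Fintype.sum_sum_type]
  simp only [Sum.elim_inl, Pi.zero_apply, zero_mul, Finset.sum_const_zero, zero_add,
    Sum.elim_inr, Pi.one_apply, one_mul, Finset.univ_unique, Finset.sum_singleton]
  have h : (fromBlocks M (replicateCol Unit v) (-replicateRow Unit u) 0 :
      Matrix (ι ⊕ Unit) (ι ⊕ Unit) R).updateCol (Sum.inr default)
      (Sum.elim (0 : ι → R) (1 : Unit → R)) =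
      fromBlocks M 0 (-replicateRow Unit u) 1 := by
    ext a b
    rcases a with a | a <;> rcases b with b | b <;> simp [updateCol_apply]
  rw [h, det_fromBlocks_zero₁₂]
  simp

end Pool.Agent.Lib.MP_64d474_lc.Kal
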