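import Mathlib
import Pool.Agent.Lib.MP_64d474_lc.Kal.Defs
import Pool.Agent.Lib.MP_64d474_lc.Kal.Stmts
import Pool.Agent.Lib.MP_64d474_lc.Kal.NetDet

/-!
# KAL-16: the symbolic matrix of a formula
-/

set_option autoImplicit false

open Finset Module Matrix MvPolynomial

namespace Pool.Agent.Lib.MP_64d474_lc.Kal

namespace Net

section Cuts

variable {F : Type*} [Field F] {ι ι' E E' : Type} [Fintype ι] [Fintype ι'] [Fintype E]
  [DecidableEq E] [Fintype E'] [DecidableEq E']

/-- the column half of a cut of width one, where the vector `v` belongs to the complement -/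
def Half (P : E → Matrix ι ι F) (v : ι → F) (C : Finset E) : Prop :=
  cdim P C + finrank F (csp P Cᶜ ⊔ Submodule.span F {v} : Submodule F (ι → F)) ≤
    Fintype.card ι + 1

/-- the embedding lemma for columns -/
theorem half_embed (P : E → Matrix ι ι F) (P' : E' → Matrix ι' ι' F) (v : ι → F) (v' : ι' → F)
    (f : ι → ι') (g : E → E') (hf : Function.Injective f) (hg : Function.Injective g)
    (h1 : ∀ p i j, P' (g p) (f i) (f j) = P p i j)
    (h2 : ∀ p a b, a ∉ Set.range f → P' (g p) a b = 0)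
    (h3 : ∀ p a b, b ∉ Set.range f → P' (g p) a b = 0)
    (h4 : ∀ q, q ∉ Set.range g → ∀ b, ∃ c : F, ∀ i, P' q (f i) b = c * v i)
    (h5 : ∃ c : F, ∀ i, v' (f i) = c * v i) (C : Finset E) (hC : Half P v C) :
    Half P' v' (C.map ⟨g, hg⟩) := by
  classical
  -- restriction and extension by zero
  let r : (ι' → F) →ₗ[F] (ι → F) := LinearMap.funLeft F F f
  have hr : Function.Surjective r := LinearMap.funLeft_surjective_of_injective F F f hf
  let e : (ι → F) →ₗ[F] (ι' → F) := Function.ExtendByZero.linearMap F f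
  have he1 : ∀ (w : ι → F) i, e w (f i) = w i := fun w i => by
    show Function.extend f w 0 (f i) = w i
    exact hf.extend_apply w 0 i
  have he2 : ∀ (w : ι → F) a, a ∉ Set.range f → e w a = 0 := fun w a ha => by
    show Function.extend f w 0 a = 0
    rw [Function.extend_apply' _ _ _ (by simpa using ha)]
    rfl
  have hre : ∀ w, r (e w) = w := fun w => by
    ext i
    exact he1 w i
  -- the products with the pieces
  have hmul : ∀ p (x : ι' → F), (P' (g p)).mulVec x = e ((P p).mulVec (r x)) := by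
    intro p x
    ext a
    by_cases ha : a ∈ Set.range f
    · obtain ⟨i, rfl⟩ := ha
      rw [he1]
      simp only [Matrix.mulVec, dotProduct]
      have : ∑ j, P p i j * r x j = ∑ j, P' (g p) (f i) (f j) * x (f j) := by
        refine Finset.sum_congr rfl fun j _ => ?_
        rw [h1]
        rfl
      rw [this]
      rw [← Finset.sum_image (s := univ) (g := f) (f := fun b => P' (g p) (f i) b * x b)
        (fun a _ b _ h => hf h)]
      symm
      refine Finset.sum_subset (Finset.subset_univ _) fun b _ hb => ?_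
      rw [h3 p (f i) b (by simpa using hb), zero_mul]
    · rw [he2 _ _ ha]
      simp only [Matrix.mulVec, dotProduct]
      exact Finset.sum_eq_zero fun b _ => by rw [h2 p a b ha, zero_mul]
  -- the set `C`
  have hA : csp P' (C.map ⟨g, hg⟩) ≤ (csp P C).map e := by
    refine iSup₂_le fun q hq => ?_
    obtain ⟨p, hp, rfl⟩ := Finset.mem_map.1 hq
    rintro _ ⟨x, rfl⟩
    refine ⟨(P p).mulVec (r x), ?_, ?_⟩
    · exact (le_iSup₂ (f := fun p (_ : p ∈ C) => LinearMap.range (P p).mulVecLin) p hp)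
        ⟨r x, rfl⟩
    · exact (hmul p x).symm
  have hA' : cdim P' (C.map ⟨g, hg⟩) ≤ cdim P C :=
    (Submodule.finrank_mono hA).trans (Submodule.finrank_map_le e _)
  -- the complement
  have hB : csp P' (C.map ⟨g, hg⟩)ᶜ ⊔ Submodule.span F {v'} ≤
      (csp P Cᶜ ⊔ Submodule.span F {v}).comap r := by
    refine sup_le (iSup₂_le fun q hq => ?_) ?_
    · rintro _ ⟨x, rfl⟩
      by_cases hqr : q ∈ Set.range g
      · obtain ⟨p, rfl⟩ := hqr
        have hp : p ∈ Cᶜ := by
          rw [Finset.mem_compl] at hq ⊢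
          intro h
          exact hq (Finset.mem_map.2 ⟨p, h, rfl⟩)
        refine Submodule.mem_sup_left ?_
        show r ((P' (g p)).mulVec x) ∈ _
        rw [hmul, hre]
        exact (le_iSup₂ (f := fun p (_ : p ∈ Cᶜ) => LinearMap.range (P p).mulVecLin) p hp)
          ⟨r x, rfl⟩
      · refine Submodule.mem_sup_right ?_
        rw [Submodule.mem_span_singleton]
        choose c hc using h4 q hqr
        refine ⟨∑ b, c b * x b, ?_⟩
        ext i
        show (∑ b, c b * x b) * v i = (P' q).mulVec x (f i)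
        simp only [Matrix.mulVec, dotProduct]
        rw [Finset.sum_mul]
        refine Finset.sum_congr rfl fun b _ => ?_
        rw [hc]
        ring
    · rw [Submodule.span_singleton_le_iff_mem]
      obtain ⟨c, hc⟩ := h5
      refine Submodule.mem_sup_right ?_
      rw [Submodule.mem_span_singleton]
      exact ⟨c, by ext i; exact (hc i).symm⟩
  have hB' : finrank F (csp P' (C.map ⟨g, hg⟩)ᶜ ⊔ Submodule.span F {v'} :
      Submodule F (ι' → F)) + Fintype.card ι ≤
      finrank F (csp P Cᶜ ⊔ Submodule.span F {v} : Submodule F (ι → F)) + Fintype.card ι' := by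
    have h6 := Submodule.finrank_mono hB
    have h7 : finrank F ((csp P Cᶜ ⊔ Submodule.span F {v}).comap r : Submodule F (ι' → F)) +
        Fintype.card ι =
        finrank F (csp P Cᶜ ⊔ Submodule.span F {v} : Submodule F (ι → F)) + Fintype.card ι' := by
      set S := csp P Cᶜ ⊔ Submodule.span F {v}
      have h8 := LinearMap.finrank_range_add_finrank_ker r
      rw [LinearMap.range_eq_top.2 hr, finrank_top, Module.finrank_fintype_fun_eq_card,
        Module.finrank_fintype_fun_eq_card] at h8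
      have h9 := LinearMap.finrank_range_add_finrank_ker (r.domRestrict (S.comap r))
      have h10 : LinearMap.range (r.domRestrict (S.comap r)) = S := by
        rw [LinearMap.range_domRestrict, Submodule.map_comap_eq_of_surjective hr]
      have h11 : finrank F (LinearMap.ker (r.domRestrict (S.comap r))) =
          finrank F (LinearMap.ker r) := by
        have h12 : LinearMap.ker (r.domRestrict (S.comap r)) =
            (LinearMap.ker r).comap (S.comap r).subtype := by
          ext x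
          simp
        rw [h12]
        refine LinearEquiv.finrank_eq (Submodule.comapSubtypeEquivOfLe ?_)
        intro x hx
        rw [Submodule.mem_comap, LinearMap.mem_ker.1 hx]
        exact zero_mem _
      rw [h10, h11] at h9
      omega
    omega
  unfold Half at hC ⊢
  omega

/-- a cut of width one, where the vectors `u`, `v` belong to the complement -/
def CutV (P : E → Matrix ι ι F) (u v : ι → F) (C : Finset E) : Prop :=
  Half P v C ∧ Half (fun p => (P p).transpose) u C

/-- the set of all pieces -/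
theorem half_univ (P : E → Matrix ι ι F) (v : ι → F) : Half P v univ := by
  unfold Half
  have h1 : cdim P univ ≤ Fintype.card ι := by
    have := Submodule.finrank_le (csp P univ)
    rwa [Module.finrank_fintype_fun_eq_card] at this
  have h2 : csp P (univ : Finset E)ᶜ = ⊥ := by
    simp [csp]
  have h3 : finrank F (Submodule.span F {v}) ≤ 1 := by
    have := finrank_span_le_card (R := F) ({v} : Set (ι → F))
    simpa using this
  rw [h2, bot_sup_eq]
  omega

theorem cutV_univ (P : E → Matrix ι ι F) (u v : ι → F) : CutV P u v univ :=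
  ⟨half_univ _ _, half_univ _ _⟩

/-- cuts with vectors are cuts -/
theorem cut_of_cutV (P : E → Matrix ι ι F) (u v : ι → F) (C : Finset E) (h : CutV P u v C) :
    Cut P 1 C := by
  obtain ⟨h1, h2⟩ := h
  unfold Half at h1 h2
  constructor
  · have : cdim P Cᶜ ≤ finrank F (csp P Cᶜ ⊔ Submodule.span F {v} : Submodule F (ι → F)) :=
      Submodule.finrank_mono le_sup_left
    omega
  · have : rdim P Cᶜ ≤ finrank F (csp (fun p => (P p).transpose) Cᶜ ⊔ Submodule.span F {u} :
      Submodule F (ι → F)) := Submodule.finrank_mono le_sup_left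
    unfold rdim at this ⊢
    omega

/-- some set of pieces with the wild pieces in the list `L` and no other wild pieces has a cut of
width one, where the vectors `u`, `v` belong to the complement -/
def SepV {m : ℕ} (P : E → Matrix ι ι F) (κ : E → Option (Fin m)) (u v : ι → F) (L : List E) :
    Prop :=
  ∃ C : Finset E, (∀ p, κ p ≠ none → (p ∈ C ↔ p ∈ L)) ∧ CutV P u v C

/-- all subtrees have cuts of width one with the vectors -/
def GoodV {m : ℕ} (P : E → Matrix ι ι F) (κ : E → Option (Fin m)) (u v : ι → F) : BT E → Prop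
  | .nil => True
  | .leaf p => SepV P κ u v [p]
  | .node l r => GoodV P κ u v l ∧ GoodV P κ u v r ∧ SepV P κ u v (l.leaves ++ r.leaves)

/-- forget the vectors -/
theorem good_of_goodV {m : ℕ} (P : E → Matrix ι ι F) (κ : E → Option (Fin m)) (u v : ι → F)
    (t : BT E) (h : GoodV P κ u v t) : Good P (fun p => κ p ≠ none) 1 t := by
  have hs : ∀ L, SepV P κ u v L → Sep P (fun p => κ p ≠ none) 1 L := by
    rintro L ⟨C, h1, h2⟩
    exact ⟨C, h1, cut_of_cutV P u v C h2⟩
  induction t with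
  | nil => trivial
  | leaf p => exact hs _ h
  | node l r hl hr => exact ⟨hl h.1, hr h.2.1, hs _ h.2.2⟩

/-- rename the labels -/
def tmap (g : E → E') : BT E → BT E'
  | .nil => .nil
  | .leaf p => .leaf (g p)
  | .node l r => .node (tmap g l) (tmap g r)

omit [Fintype E] [DecidableEq E] [Fintype E'] [DecidableEq E'] in
theorem leaves_tmap (g : E → E') (t : BT E) : (tmap g t).leaves = t.leaves.map g := by
  induction t with
  | nil => rfl
  | leaf p => rfl
  | node l r hl hr => simp [tmap, BT.leaves, hl, hr]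

/-- the embedding lemma for trees -/
theorem goodV_embed {m : ℕ} (P : E → Matrix ι ι F) (P' : E' → Matrix ι' ι' F)
    (κ : E → Option (Fin m)) (κ' : E' → Option (Fin m)) (u v : ι → F) (u' v' : ι' → F)
    (f : ι → ι') (g : E → E') (hf : Function.Injective f) (hg : Function.Injective g)
    (hκ : ∀ p, κ' (g p) = κ p)
    (h1 : ∀ p i j, P' (g p) (f i) (f j) = P p i j)
    (h2 : ∀ p a b, a ∉ Set.range f → P' (g p) a b = 0)
    (h3 : ∀ p a b, b ∉ Set.range f → P' (g p) a b = 0)
    (h4 : ∀ q, q ∉ Set.range g → ∀ b, ∃ c : F, ∀ i, P' q (f i) b = c * v i)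
    (h4' : ∀ q, q ∉ Set.range g → ∀ b, ∃ c : F, ∀ i, P' q b (f i) = c * u i)
    (h5 : ∃ c : F, ∀ i, v' (f i) = c * v i) (h5' : ∃ c : F, ∀ i, u' (f i) = c * u i)
    (t : BT E) (h : GoodV P κ u v t) : GoodV P' κ' u' v' (tmap g t) := by
  have hs : ∀ L, SepV P κ u v L → SepV P' κ' u' v' (L.map g) := by
    rintro L ⟨C, hC1, hC2, hC3⟩
    refine ⟨C.map ⟨g, hg⟩, ?_, ?_, ?_⟩
    · intro q hq
      by_cases hqr : q ∈ Set.range g
      · obtain ⟨p, rfl⟩ := hqr
        rw [hκ] at hq
        rw [List.mem_map_of_injective hg, ← hC1 p hq]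
        exact Finset.mem_map' ⟨g, hg⟩
      · constructor
        · intro hm
          obtain ⟨p, -, rfl⟩ := Finset.mem_map.1 hm
          exact absurd ⟨p, rfl⟩ hqr
        · intro hm
          obtain ⟨p, -, rfl⟩ := List.mem_map.1 hm
          exact absurd ⟨p, rfl⟩ hqr
    · exact half_embed P P' v v' f g hf hg h1 h2 h3 h4 h5 C hC2
    · exact half_embed (fun p => (P p).transpose) (fun p => (P' p).transpose) u u' f g hf hg
        (fun p i j => h1 p j i) (fun p a b ha => h3 p b a ha) (fun p a b hb => h2 p b a hb)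
        (fun q hq b => h4' q hq b) h5' C hC3
  induction t with
  | nil => trivial
  | leaf p => exact hs _ h
  | node l r hl hr =>
    refine ⟨hl h.1, hr h.2.1, ?_⟩
    rw [leaves_tmap, leaves_tmap, ← List.map_append]
    exact hs _ h.2.2

end Cuts

section Induction

variable {F : Type*} [Field F] {m : ℕ}

/-- the bordered matrix -/
abbrev bord {ι : Type} (M : Matrix ι ι F) (u v : ι → F) : Matrix (ι ⊕ Unit) (ι ⊕ Unit) F :=
  fromBlocks M (replicateCol Unit v) (-replicateRow Unit u) 0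

/-- the invariant of the induction -/
def Inv (φ : Fm F m) : Prop :=
  ∃ (ι E : Type) (_ : Fintype ι) (_ : DecidableEq ι) (_ : Fintype E) (_ : DecidableEq E)
    (P : E → Matrix ι ι F) (κ : E → Option (Fin m)) (u v : ι → F) (t : BT E),
    (∀ x, (mat P κ x).det = eval x φ.nd.2) ∧
    (∀ x, (bord (mat P κ x) u v).det = eval x φ.nd.1) ∧ GoodV P κ u v t ∧
    t.leaves.Nodup ∧ (∀ p, p ∈ t.leaves ↔ κ p ≠ none) ∧
    ∀ k, (∑ p, if κ p = some k then 1 else 0) = φ.occ k

theorem inv_const (c : F) : Inv (Fm.const c : Fm F m) := by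
  refine ⟨Unit, Unit, inferInstance, inferInstance, inferInstance, inferInstance, fun _ => 1,
    fun _ => none, fun _ => c, fun _ => 1, BT.nil, ?_, ?_, trivial, ?_, ?_, ?_⟩
  · intro x
    simp [mat, cf, Fm.nd]
  · intro x
    rw [det_border]
    simp [mat, cf, Fm.nd, dotProduct]
  · simp [BT.leaves]
  · simp [BT.leaves]
  · intro k
    simp [Fm.occ]

theorem inv_var (k : Fin m) : Inv (Fm.var k : Fm F m) := by
  refine ⟨Fin 2, Bool, inferInstance, inferInstance, inferInstance, inferInstance,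
    fun p => if p then 1 else !![0, -1; 0, 0], fun p => if p then none else some k,
    ![1, 0], ![0, 1], BT.leaf false, ?_, ?_, ?_, ?_, ?_, ?_⟩
  · intro x
    have h : mat (fun p : Bool => if p then (1 : Matrix (Fin 2) (Fin 2) F) else !![0, -1; 0, 0])
        (fun p => if p then none else some k) x = !![1, -(x k); 0, 1] := by
      ext i j
      fin_cases i <;> fin_cases j <;> simp [mat, cf]
    rw [h]
    simp [Fm.nd, det_fin_two]
  · intro x
    have h : mat (fun p : Bool => if p then (1 : Matrix (Fin 2) (Fin 2) F) else !![0, -1; 0, 0])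
        (fun p => if p then none else some k) x = !![1, -(x k); 0, 1] := by
      ext i j
      fin_cases i <;> fin_cases j <;> simp [mat, cf]
    rw [h, det_border, adjugate_fin_two]
    simp [Fm.nd, dotProduct, mulVec, Fin.sum_univ_two]
  · refine ⟨univ, ?_, cutV_univ _ _ _⟩
    intro p hp
    cases p <;> simp at hp ⊢
  · simp [BT.leaves]
  · intro p
    cases p <;> simp [BT.leaves]
  · intro l
    by_cases h : k = l <;> simp [Fm.occ, h]

/-- the matrix of a sum of two families -/
theorem mat_add {ι₁ ι₂ E₁ E₂ : Type} [Fintype ι₁] [Fintype ι₂] [Fintype E₁] [Fintype E₂]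
    [DecidableEq E₁] [DecidableEq E₂]
    (P₁ : E₁ → Matrix ι₁ ι₁ F) (P₂ : E₂ → Matrix ι₂ ι₂ F) (κ₁ : E₁ → Option (Fin m))
    (κ₂ : E₂ → Option (Fin m)) (x : Fin m → F) :
    mat (Sum.elim (fun p => fromBlocks (P₁ p) 0 0 0) (fun p => fromBlocks 0 0 0 (P₂ p)))
      (Sum.elim κ₁ κ₂) x = fromBlocks (mat P₁ κ₁ x) 0 0 (mat P₂ κ₂ x) := by
  ext a b
  rcases a with a | a <;> rcases b with b | b <;>
    simp [mat, cf, Matrix.sum_apply]

theorem inv_add (a b : Fm F m) (ha : Inv a) (hb : Inv b) : Inv (Fm.add a b) := by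
  obtain ⟨ι₁, E₁, i1, i2, i3, i4, P₁, κ₁, u₁, v₁, t₁, hd₁, hn₁, hg₁, hnd₁, hl₁, ho₁⟩ := ha
  obtain ⟨ι₂, E₂, j1, j2, j3, j4, P₂, κ₂, u₂, v₂, t₂, hd₂, hn₂, hg₂, hnd₂, hl₂, ho₂⟩ := hb
  refine ⟨ι₁ ⊕ ι₂, E₁ ⊕ E₂, inferInstance, inferInstance, inferInstance, inferInstance,
    Sum.elim (fun p => fromBlocks (P₁ p) 0 0 0) (fun p => fromBlocks 0 0 0 (P₂ p)),
    Sum.elim κ₁ κ₂, Sum.elim u₁ u₂, Sum.elim v₁ v₂,
    BT.node (tmap Sum.inl t₁) (tmap Sum.inr t₂), ?_, ?_, ⟨?_, ?_, univ, ?_, cutV_univ _ _ _⟩,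
    ?_, ?_, ?_⟩
  · intro x
    rw [mat_add, det_fromBlocks_zero₂₁, hd₁, hd₂]
    simp [Fm.nd]
  · intro x
    rw [mat_add]
    show (fromBlocks (fromBlocks (mat P₁ κ₁ x) 0 0 (mat P₂ κ₂ x))
      (replicateCol Unit (Sum.elim v₁ v₂)) (-replicateRow Unit (Sum.elim u₁ u₂)) 0 :
      Matrix ((ι₁ ⊕ ι₂) ⊕ Unit) ((ι₁ ⊕ ι₂) ⊕ Unit) F).det = _
    have e1 := hn₁ x
    have e2 := hn₂ x
    unfold bord at e1 e2
    rw [det_border_add, e1, e2, hd₁, hd₂]
    simp [Fm.nd]
    ring
  · refine goodV_embed P₁ _ κ₁ _ u₁ v₁ _ _ Sum.inl Sum.inl Sum.inl_injective Sum.inl_injective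
      (fun p => rfl) (fun p i j => rfl) ?_ ?_ ?_ ?_ ⟨1, fun i => by simp⟩ ⟨1, fun i => by simp⟩
      t₁ hg₁
    · rintro p (i | i) (j | j) h <;> simp at h ⊢
    · rintro p (i | i) (j | j) h <;> simp at h ⊢
    · rintro (q | q) hq b
      · simp at hq
      · refine ⟨0, fun i => ?_⟩
        rcases b with b | b <;> simp
    · rintro (q | q) hq b
      · simp at hq
      · refine ⟨0, fun i => ?_⟩
        rcases b with b | b <;> simp
  · refine goodV_embed P₂ _ κ₂ _ u₂ v₂ _ _ Sum.inr Sum.inr Sum.inr_injective Sum.inr_injective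
      (fun p => rfl) (fun p i j => rfl) ?_ ?_ ?_ ?_ ⟨1, fun i => by simp⟩ ⟨1, fun i => by simp⟩
      t₂ hg₂
    · rintro p (i | i) (j | j) h <;> simp at h ⊢
    · rintro p (i | i) (j | j) h <;> simp at h ⊢
    · rintro (q | q) hq b
      · refine ⟨0, fun i => ?_⟩
        rcases b with b | b <;> simp
      · simp at hq
    · rintro (q | q) hq b
      · refine ⟨0, fun i => ?_⟩
        rcases b with b | b <;> simp
      · simp at hq
  · rintro (p | p) hp
    · simpa [leaves_tmap, hl₁] using hp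
    · simpa [leaves_tmap, hl₂] using hp
  · show (BT.leaves _ ++ BT.leaves _).Nodup
    rw [leaves_tmap, leaves_tmap, List.nodup_append]
    refine ⟨hnd₁.map Sum.inl_injective, hnd₂.map Sum.inr_injective, ?_⟩
    intro p hp q hq
    obtain ⟨p', -, rfl⟩ := List.mem_map.1 hp
    obtain ⟨q', -, rfl⟩ := List.mem_map.1 hq
    simp
  · rintro (p | p)
    · simp [BT.leaves, leaves_tmap, hl₁]
    · simp [BT.leaves, leaves_tmap, hl₂]
  · intro k
    have e1 := ho₁ k
    have e2 := ho₂ k
    rw [Fintype.sum_sum_type]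
    show (∑ p, if κ₁ p = some k then 1 else 0) + (∑ p, if κ₂ p = some k then 1 else 0) =
      a.occ k + b.occ k
    rw [e1, e2]

/-- the matrix of a product of two families -/
theorem mat_mul {ι₁ ι₂ E₁ E₂ : Type} [Fintype ι₁] [Fintype ι₂] [Fintype E₁] [Fintype E₂]
    [DecidableEq E₁] [DecidableEq E₂]
    (P₁ : E₁ → Matrix ι₁ ι₁ F) (P₂ : E₂ → Matrix ι₂ ι₂ F) (κ₁ : E₁ → Option (Fin m))
    (κ₂ : E₂ → Option (Fin m)) (B : Matrix ι₁ ι₂ F) (x : Fin m → F) :
    mat (Sum.elim (Sum.elim (fun p => fromBlocks (P₁ p) 0 0 0)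
      (fun p => fromBlocks 0 0 0 (P₂ p))) (fun _ : Unit => fromBlocks 0 B 0 0))
      (Sum.elim (Sum.elim κ₁ κ₂) fun _ => none) x =
      fromBlocks (mat P₁ κ₁ x) B 0 (mat P₂ κ₂ x) := by
  ext a b
  rcases a with a | a <;> rcases b with b | b <;>
    simp [mat, cf, Matrix.sum_apply]

theorem inv_mul (a b : Fm F m) (ha : Inv a) (hb : Inv b) : Inv (Fm.mul a b) := by
  obtain ⟨ι₁, E₁, i1, i2, i3, i4, P₁, κ₁, u₁, v₁, t₁, hd₁, hn₁, hg₁, hnd₁, hl₁, ho₁⟩ := ha
  obtain ⟨ι₂, E₂, j1, j2, j3, j4, P₂, κ₂, u₂, v₂, t₂, hd₂, hn₂, hg₂, hnd₂, hl₂, ho₂⟩ := hb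
  refine ⟨ι₁ ⊕ ι₂, (E₁ ⊕ E₂) ⊕ Unit, inferInstance, inferInstance, inferInstance, inferInstance,
    Sum.elim (Sum.elim (fun p => fromBlocks (P₁ p) 0 0 0) (fun p => fromBlocks 0 0 0 (P₂ p)))
      (fun _ : Unit => fromBlocks 0 (-(vecMulVec v₁ u₂)) 0 0),
    Sum.elim (Sum.elim κ₁ κ₂) fun _ => none, Sum.elim u₁ 0, Sum.elim 0 v₂,
    BT.node (tmap (fun p => Sum.inl (Sum.inl p)) t₁) (tmap (fun p => Sum.inl (Sum.inr p)) t₂),
    ?_, ?_, ⟨?_, ?_, univ, ?_, cutV_univ _ _ _⟩, ?_, ?_, ?_⟩
  · intro x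
    rw [mat_mul, det_fromBlocks_zero₂₁, hd₁, hd₂]
    simp [Fm.nd]
  · intro x
    rw [mat_mul]
    show (fromBlocks (fromBlocks (mat P₁ κ₁ x) (-(vecMulVec v₁ u₂)) 0 (mat P₂ κ₂ x))
      (replicateCol Unit (Sum.elim (0 : ι₁ → F) v₂))
      (-replicateRow Unit (Sum.elim u₁ (0 : ι₂ → F))) 0 :
      Matrix ((ι₁ ⊕ ι₂) ⊕ Unit) ((ι₁ ⊕ ι₂) ⊕ Unit) F).det = _
    have e1 := hn₁ x
    have e2 := hn₂ x
    unfold bord at e1 e2
    rw [det_border_mul, e1, e2]
    simp [Fm.nd]
  · refine goodV_embed P₁ _ κ₁ _ u₁ v₁ _ _ Sum.inl (fun p => Sum.inl (Sum.inl p))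
      Sum.inl_injective (Sum.inl_injective.comp Sum.inl_injective)
      (fun p => rfl) (fun p i j => rfl) ?_ ?_ ?_ ?_ ⟨0, fun i => by simp⟩ ⟨1, fun i => by simp⟩
      t₁ hg₁
    · rintro p (i | i) (j | j) h <;> simp at h ⊢
    · rintro p (i | i) (j | j) h <;> simp at h ⊢
    · rintro ((q | q) | q) hq b
      · simp at hq
      · refine ⟨0, fun i => ?_⟩
        rcases b with b | b <;> simp
      · rcases b with b | b
        · exact ⟨0, fun i => by simp⟩
        · exact ⟨-u₂ b, fun i => by simp [vecMulVec_apply, mul_comm]⟩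
    · rintro ((q | q) | q) hq b
      · simp at hq
      · refine ⟨0, fun i => ?_⟩
        rcases b with b | b <;> simp
      · refine ⟨0, fun i => ?_⟩
        rcases b with b | b <;> simp
  · refine goodV_embed P₂ _ κ₂ _ u₂ v₂ _ _ Sum.inr (fun p => Sum.inl (Sum.inr p))
      Sum.inr_injective (Sum.inl_injective.comp Sum.inr_injective)
      (fun p => rfl) (fun p i j => rfl) ?_ ?_ ?_ ?_ ⟨1, fun i => by simp⟩ ⟨0, fun i => by simp⟩
      t₂ hg₂
    · rintro p (i | i) (j | j) h <;> simp at h ⊢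
    · rintro p (i | i) (j | j) h <;> simp at h ⊢
    · rintro ((q | q) | q) hq b
      · refine ⟨0, fun i => ?_⟩
        rcases b with b | b <;> simp
      · simp at hq
      · refine ⟨0, fun i => ?_⟩
        rcases b with b | b <;> simp
    · rintro ((q | q) | q) hq b
      · refine ⟨0, fun i => ?_⟩
        rcases b with b | b <;> simp
      · simp at hq
      · rcases b with b | b
        · exact ⟨-v₁ b, fun i => by simp [vecMulVec_apply]⟩
        · exact ⟨0, fun i => by simp⟩
  · rintro ((p | p) | p) hp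
    · simpa [leaves_tmap, hl₁] using hp
    · simpa [leaves_tmap, hl₂] using hp
    · simp at hp
  · show (BT.leaves _ ++ BT.leaves _).Nodup
    rw [leaves_tmap, leaves_tmap, List.nodup_append]
    refine ⟨hnd₁.map (Sum.inl_injective.comp Sum.inl_injective),
      hnd₂.map (Sum.inl_injective.comp Sum.inr_injective), ?_⟩
    intro p hp q hq
    obtain ⟨p', -, rfl⟩ := List.mem_map.1 hp
    obtain ⟨q', -, rfl⟩ := List.mem_map.1 hq
    simp
  · rintro ((p | p) | p)
    · simp [BT.leaves, leaves_tmap, hl₁]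
    · simp [BT.leaves, leaves_tmap, hl₂]
    · simp [BT.leaves, leaves_tmap]
  · intro k
    have e1 := ho₁ k
    have e2 := ho₂ k
    rw [Fintype.sum_sum_type, Fintype.sum_sum_type]
    show ((∑ p, if κ₁ p = some k then 1 else 0) + (∑ p, if κ₂ p = some k then 1 else 0)) +
      (∑ _p : Unit, if (none : Option (Fin m)) = some k then 1 else 0) = a.occ k + b.occ k
    rw [e1, e2]
    simp

/-- the matrix of the inverse -/
theorem mat_inv {ι₁ E₁ : Type} [Fintype ι₁] [Fintype E₁] [DecidableEq E₁]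
    (P₁ : E₁ → Matrix ι₁ ι₁ F) (κ₁ : E₁ → Option (Fin m)) (u₁ v₁ : ι₁ → F) (x : Fin m → F) :
    mat (Sum.elim (fun p => fromBlocks (P₁ p) 0 0 0)
      (fun _ : Unit => fromBlocks 0 (replicateCol Unit v₁) (-replicateRow Unit u₁) 0))
      (Sum.elim κ₁ fun _ => none) x = bord (mat P₁ κ₁ x) u₁ v₁ := by
  ext a b
  rcases a with a | a <;> rcases b with b | b <;>
    simp [mat, cf, Matrix.sum_apply]

theorem inv_inv (a : Fm F m) (ha : Inv a) : Inv (Fm.inv a) := by
  obtain ⟨ι₁, E₁, i1, i2, i3, i4, P₁, κ₁, u₁, v₁, t₁, hd₁, hn₁, hg₁, hnd₁, hl₁, ho₁⟩ := ha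
  refine ⟨ι₁ ⊕ Unit, E₁ ⊕ Unit, inferInstance, inferInstance, inferInstance, inferInstance,
    Sum.elim (fun p => fromBlocks (P₁ p) 0 0 0)
      (fun _ : Unit => fromBlocks 0 (replicateCol Unit v₁) (-replicateRow Unit u₁) 0),
    Sum.elim κ₁ fun _ => none, Sum.elim 0 1, Sum.elim 0 1, tmap Sum.inl t₁,
    ?_, ?_, ?_, ?_, ?_, ?_⟩
  · intro x
    rw [mat_inv, hn₁]
    simp [Fm.nd]
  · intro x
    rw [mat_inv]
    show (fromBlocks (fromBlocks (mat P₁ κ₁ x) (replicateCol Unit v₁) (-replicateRow Unit u₁) 0)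
      (replicateCol Unit (Sum.elim (0 : ι₁ → F) (1 : Unit → F)))
      (-replicateRow Unit (Sum.elim (0 : ι₁ → F) (1 : Unit → F))) 0 :
      Matrix ((ι₁ ⊕ Unit) ⊕ Unit) ((ι₁ ⊕ Unit) ⊕ Unit) F).det = _
    rw [det_border_inv, hd₁]
    simp [Fm.nd]
  · refine goodV_embed P₁ _ κ₁ _ u₁ v₁ _ _ Sum.inl Sum.inl
      Sum.inl_injective Sum.inl_injective
      (fun p => rfl) (fun p i j => rfl) ?_ ?_ ?_ ?_ ⟨0, fun i => by simp⟩ ⟨0, fun i => by simp⟩
      t₁ hg₁
    · rintro p (i | i) (j | j) h <;> simp at h ⊢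
    · rintro p (i | i) (j | j) h <;> simp at h ⊢
    · rintro (q | q) hq b
      · simp at hq
      · rcases b with b | b
        · exact ⟨0, fun i => by simp⟩
        · exact ⟨1, fun i => by simp⟩
    · rintro (q | q) hq b
      · simp at hq
      · rcases b with b | b
        · exact ⟨0, fun i => by simp⟩
        · exact ⟨-1, fun i => by simp⟩
  · rw [leaves_tmap]
    exact hnd₁.map Sum.inl_injective
  · rintro (p | p)
    · simp [leaves_tmap, hl₁]
    · simp [leaves_tmap]
  · intro k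
    have e1 := ho₁ k
    rw [Fintype.sum_sum_type]
    show (∑ p, if κ₁ p = some k then 1 else 0) +
      (∑ _p : Unit, if (none : Option (Fin m)) = some k then 1 else 0) = a.occ k
    rw [e1]
    simp

theorem inv_all (φ : Fm F m) : Inv φ := by
  induction φ with
  | const c => exact inv_const c
  | var k => exact inv_var k
  | add a b ha hb => exact inv_add a b ha hb
  | mul a b ha hb => exact inv_mul a b ha hb
  | inv a ha => exact inv_inv a ha

end Induction

end Net

/-- KAL-16: the symbolic matrix of a formula -/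
theorem stNet.{u} : StNet.{u} := by
  intro F _ m φ
  obtain ⟨ι, E, i1, i2, i3, i4, P, κ, u, v, t, hd, -, hg, hnd, hl, ho⟩ := Net.inv_all φ
  refine ⟨ι, E, i1, i2, i3, i4, P, κ, t, hd, Net.good_of_goodV P κ u v t hg, hnd, hl, ?_⟩
  intro k
  rw [← ho k, Finset.card_filter]

end Pool.Agent.Lib.MP_64d474_lc.Kal
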