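import Pool.Agent.Lib.MP_64d474_lc.Kal.Stmts

/-!
# A set of pieces with a cut of width `lam` imposes at most `lam ^ 2` linear conditions
-/

set_option autoImplicit false

open Finset Module Matrix

namespace Pool.Agent.Lib.MP_64d474_lc.Kal

namespace RegionAux

variable {L : Type*} [Field L] {ι E : Type} [Fintype ι] [DecidableEq ι] [Fintype E]
  [DecidableEq E]

theorem half (P : E → Matrix ι ι L) (c : E → L) (Mi : Matrix ι ι L)
    (hM : (∑ p, c p • P p) * Mi = 1) (C : Finset E) :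
    ∃ (a : ℕ) (V : Matrix ι (Fin a) L), a + Fintype.card ι ≤ cdim P Cᶜ + rdim P C ∧
      ∀ v : ι → L, (∑ p, c p • P p) *ᵥ v ∈ csp P Cᶜ → ∃ w, ∀ p ∈ C, P p *ᵥ v = P p *ᵥ (V *ᵥ w) := by
  classical
  set M := ∑ p, c p • P p with hMdef
  have hMi : Mi * M = 1 := mul_eq_one_comm.1 hM
  -- the stacked matrix
  set S : Matrix (E × ι) ι L := Matrix.of fun q j => if q.1 ∈ C then P q.1 q.2 j else 0 with hS
  have hker : ∀ v : ι → L, S *ᵥ v = 0 ↔ ∀ p ∈ C, P p *ᵥ v = 0 := by
    intro v
    constructor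
    · intro h p hp
      ext i
      have h1 := congrFun h (p, i)
      simpa [hS, Matrix.mulVec, dotProduct, hp] using h1
    · intro h
      ext q
      by_cases hq : q.1 ∈ C
      · have h1 := congrFun (h q.1 hq) q.2
        simpa [hS, Matrix.mulVec, dotProduct, hq] using h1
      · simp [hS, Matrix.mulVec, dotProduct, hq]
  have hrank : S.rank ≤ rdim P C := by
    rw [← Matrix.rank_transpose]
    refine Submodule.finrank_mono ?_
    rintro _ ⟨w, rfl⟩
    have e : Sᵀ.mulVecLin w = ∑ p ∈ C, (P p)ᵀ *ᵥ fun i => w (p, i) := by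
      ext j
      rw [Matrix.mulVecLin_apply, Finset.sum_apply]
      simp only [Matrix.mulVec, dotProduct, Matrix.transpose_apply, hS, Matrix.of_apply]
      rw [Fintype.sum_prod_type, ← Finset.sum_filter_add_sum_filter_not univ (fun p => p ∈ C)]
      have e2 : ∑ p ∈ univ.filter (fun p => ¬ p ∈ C),
          ∑ i, (if p ∈ C then P p i j else 0) * w (p, i) = 0 := by
        refine sum_eq_zero fun p hp => ?_
        rw [mem_filter] at hp
        simp [hp.2]
      rw [e2, add_zero]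
      have e3 : univ.filter (fun p => p ∈ C) = C := by ext; simp
      rw [e3]
      refine sum_congr rfl fun p hp => ?_
      simp [hp]
    rw [e]
    refine Submodule.sum_mem _ fun p hp => ?_
    have h1 : LinearMap.range ((P p)ᵀ).mulVecLin ≤ csp (fun p => (P p)ᵀ) C := by
      unfold csp
      exact le_iSup₂_of_le p hp le_rfl
    exact h1 ⟨_, rfl⟩
  -- the space of vectors that are mapped to the column space of the complement
  set W : Submodule L (ι → L) := (csp P Cᶜ).comap M.mulVecLin with hW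
  have hkW : LinearMap.ker S.mulVecLin ≤ W := by
    intro v hv
    rw [LinearMap.mem_ker, Matrix.mulVecLin_apply] at hv
    rw [hW, Submodule.mem_comap, Matrix.mulVecLin_apply, hMdef, Matrix.sum_mulVec]
    refine Submodule.sum_mem _ fun p _ => ?_
    rw [Matrix.smul_mulVec]
    refine Submodule.smul_mem _ _ ?_
    by_cases hp : p ∈ C
    · rw [(hker v).1 hv p hp]
      exact Submodule.zero_mem _
    · have h1 : LinearMap.range (P p).mulVecLin ≤ csp P Cᶜ := by
        unfold csp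
        exact le_iSup₂_of_le p (mem_compl.2 hp) le_rfl
      exact h1 ⟨v, rfl⟩
  have hWfin : finrank L W ≤ cdim P Cᶜ := by
    have hinj : Function.Injective (M.mulVecLin.restrict (p := W) (q := csp P Cᶜ)
        fun v hv => hv) := by
      intro v v' h
      have h1 : M *ᵥ (v : ι → L) = M *ᵥ (v' : ι → L) := congrArg Subtype.val h
      have h2 := congrArg (fun u => Mi *ᵥ u) h1
      simp only [Matrix.mulVec_mulVec, hMi, Matrix.one_mulVec] at h2
      exact Subtype.ext h2
    exact LinearMap.finrank_le_finrank_of_injective hinj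
  -- restrict the stacked matrix to `W`
  set Φ : W →ₗ[L] (E × ι → L) := S.mulVecLin.domRestrict W with hΦ
  have hn := LinearMap.finrank_range_add_finrank_ker S.mulVecLin
  have hn' := LinearMap.finrank_range_add_finrank_ker Φ
  have hkeq : finrank L (LinearMap.ker S.mulVecLin) ≤ finrank L (LinearMap.ker Φ) := by
    have hinj : Function.Injective (LinearMap.codRestrict (LinearMap.ker Φ)
        (Submodule.inclusion hkW) (fun v => v.2)) := by
      intro v v' h
      have h1 := congrArg (fun u : LinearMap.ker Φ => ((u : W) : ι → L)) h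
      exact Subtype.ext h1
    exact LinearMap.finrank_le_finrank_of_injective hinj
  obtain ⟨sec, hsec⟩ := Φ.rangeRestrict.exists_rightInverse_of_surjective
    (LinearMap.range_rangeRestrict Φ)
  set bas := Module.finBasis L (LinearMap.range Φ) with hbas
  refine ⟨finrank L (LinearMap.range Φ), Matrix.of fun i a => ((sec (bas a) : W) : ι → L) i, ?_,
    ?_⟩
  · rw [Module.finrank_fintype_fun_eq_card] at hn
    have h1 : finrank L (LinearMap.range S.mulVecLin) ≤ rdim P C := hrank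
    omega
  · intro v hv
    have hvW : v ∈ W := hv
    refine ⟨fun a => bas.repr (Φ.rangeRestrict ⟨v, hvW⟩) a, ?_⟩
    set w := fun a => bas.repr (Φ.rangeRestrict ⟨v, hvW⟩) a with hw
    have e1 : (Matrix.of fun i a => ((sec (bas a) : W) : ι → L) i) *ᵥ w =
        ((sec (Φ.rangeRestrict ⟨v, hvW⟩) : W) : ι → L) := by
      conv_rhs => rw [← bas.sum_repr (Φ.rangeRestrict ⟨v, hvW⟩)]
      rw [map_sum]
      ext i
      rw [Submodule.coe_sum, Finset.sum_apply]
      simp only [Matrix.mulVec, dotProduct, Matrix.of_apply, map_smul, Submodule.coe_smul,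
        Pi.smul_apply, smul_eq_mul]
      exact sum_congr rfl fun a _ => mul_comm _ _
    rw [e1]
    have h2 := LinearMap.congr_fun hsec (Φ.rangeRestrict ⟨v, hvW⟩)
    have h3 : S *ᵥ ((sec (Φ.rangeRestrict ⟨v, hvW⟩) : W) : ι → L) = S *ᵥ v :=
      congrArg Subtype.val h2
    have h4 : S *ᵥ (v - ((sec (Φ.rangeRestrict ⟨v, hvW⟩) : W) : ι → L)) = 0 := by
      rw [Matrix.mulVec_sub, h3, sub_self]
    intro p hp
    have h5 := (hker _).1 h4 p hp
    rw [Matrix.mulVec_sub, sub_eq_zero] at h5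
    exact h5

end RegionAux

theorem stRegion.{u} : StRegion.{u} := by
  classical
  intro L _ ι E _ _ _ _ P c Mi hM C lam t hcut δ
  obtain ⟨a, V, ha, hV⟩ := RegionAux.half P c Mi hM C
  have hMT : (∑ p, c p • (P p)ᵀ) * Miᵀ = 1 := by
    have e : ∑ p, c p • (P p)ᵀ = (∑ p, c p • P p)ᵀ := by
      rw [Matrix.transpose_sum]
      exact sum_congr rfl fun p _ => (Matrix.transpose_smul _ _).symm
    rw [e, ← Matrix.transpose_mul, mul_eq_one_comm.1 hM, Matrix.transpose_one]
  obtain ⟨b, U, hb, hU⟩ := RegionAux.half (fun p => (P p)ᵀ) c Miᵀ hMT C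
  have hrr : rdim (fun p => (P p)ᵀ) C = cdim P C := by
    unfold rdim
    simp only [Matrix.transpose_transpose]
  have hcr : cdim (fun p => (P p)ᵀ) Cᶜ = rdim P Cᶜ := rfl
  rw [hrr, hcr] at hb
  obtain ⟨h1, h2⟩ := hcut
  have hab : b * a ≤ lam ^ 2 := by
    have : a + b ≤ 2 * lam := by omega
    nlinarith [sq_nonneg ((a : ℤ) - b), sq_nonneg (a - b : ℤ)]
  let Λ : (Fin t → L) →ₗ[L] Matrix (Fin b) (Fin a) L :=
    { toFun := fun θ => Uᵀ * (∑ p ∈ C, δ p θ • P p) * V
      map_add' := fun θ η => by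
        simp only [map_add, add_smul, sum_add_distrib, Matrix.mul_add, Matrix.add_mul]
      map_smul' := fun r θ => by
        simp only [map_smul, smul_eq_mul, mul_smul, ← smul_sum, Matrix.mul_smul,
          Matrix.smul_mul, RingHom.id_apply] }
  refine ⟨LinearMap.ker Λ, ?_, ?_⟩
  · have h3 := LinearMap.finrank_range_add_finrank_ker Λ
    have h4 : finrank L (LinearMap.range Λ) ≤ finrank L (Matrix (Fin b) (Fin a) L) :=
      Submodule.finrank_le _
    rw [Module.finrank_matrix, Module.finrank_self, mul_one, Fintype.card_fin,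
      Fintype.card_fin] at h4
    rw [Module.finrank_fin_fun] at h3
    omega
  · intro θ hθ p₁ hp₁ p₂ hp₂
    have hθ' : Uᵀ * (∑ p ∈ C, δ p θ • P p) * V = 0 := hθ
    set D := ∑ p ∈ C, δ p θ • P p with hD
    ext i j
    -- the column
    obtain ⟨w, hw⟩ := hV (Mi *ᵥ (P p₂ *ᵥ Pi.single j 1)) (by
      rw [Matrix.mulVec_mulVec, hM, Matrix.one_mulVec]
      have h3 : LinearMap.range (P p₂).mulVecLin ≤ csp P Cᶜ := by
        unfold csp
        exact le_iSup₂_of_le p₂ (mem_compl.2 hp₂) le_rfl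
      exact h3 ⟨_, rfl⟩)
    obtain ⟨w', hw'⟩ := hU (Miᵀ *ᵥ ((P p₁)ᵀ *ᵥ Pi.single i 1)) (by
      rw [Matrix.mulVec_mulVec, hMT, Matrix.one_mulVec]
      have h3 : LinearMap.range ((P p₁)ᵀ).mulVecLin ≤ csp (fun p => (P p)ᵀ) Cᶜ := by
        unfold csp
        exact le_iSup₂_of_le p₁ (mem_compl.2 hp₁) le_rfl
      exact h3 ⟨_, rfl⟩)
    have hDw : D *ᵥ (Mi *ᵥ (P p₂ *ᵥ Pi.single j 1)) = D *ᵥ (V *ᵥ w) := by
      rw [hD, Matrix.sum_mulVec, Matrix.sum_mulVec]
      refine sum_congr rfl fun p hp => ?_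
      rw [Matrix.smul_mulVec, Matrix.smul_mulVec, hw p hp]
    have hDw' : Dᵀ *ᵥ (Miᵀ *ᵥ ((P p₁)ᵀ *ᵥ Pi.single i 1)) = Dᵀ *ᵥ (U *ᵥ w') := by
      rw [hD, Matrix.transpose_sum, Matrix.sum_mulVec, Matrix.sum_mulVec]
      refine sum_congr rfl fun p hp => ?_
      rw [Matrix.transpose_smul, Matrix.smul_mulVec, Matrix.smul_mulVec, hw' p hp]
    have e1 : (P p₁ * (Mi * D * (Mi * P p₂))) i j =
        (Miᵀ *ᵥ ((P p₁)ᵀ *ᵥ Pi.single i 1)) ⬝ᵥ (D *ᵥ (Mi *ᵥ (P p₂ *ᵥ Pi.single j 1))) := by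
      have e2 : (P p₁ * (Mi * D * (Mi * P p₂))) i j =
          Pi.single i 1 ⬝ᵥ ((P p₁ * (Mi * D * (Mi * P p₂))) *ᵥ Pi.single j 1) := by
        simp
      rw [e2]
      simp only [← Matrix.mulVec_mulVec, Matrix.mul_assoc]
      rw [Matrix.mulVec_transpose, Matrix.mulVec_transpose, ← Matrix.dotProduct_mulVec,
        ← Matrix.dotProduct_mulVec]
    rw [e1, hDw, Matrix.dotProduct_mulVec, ← Matrix.mulVec_transpose, hDw',
      Matrix.mulVec_transpose, ← Matrix.dotProduct_mulVec, Matrix.zero_apply]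
    have e3 : D *ᵥ (V *ᵥ w) = (D * V) *ᵥ w := Matrix.mulVec_mulVec _ _ _
    have e4 : (U *ᵥ w') ⬝ᵥ ((D * V) *ᵥ w) = w' ⬝ᵥ ((Uᵀ * D * V) *ᵥ w) := by
      rw [Matrix.mul_assoc, Matrix.dotProduct_mulVec w', ← Matrix.vecMul_vecMul,
        Matrix.vecMul_transpose, ← Matrix.dotProduct_mulVec]
    rw [e3, e4, hθ', Matrix.zero_mulVec, dotProduct_zero]

end Pool.Agent.Lib.MP_64d474_lc.Kal
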