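import Mathlib
import Pool.Agent.Lib.MP_64d474_lc.Kal.Stmts

/-!
# KAL-7: a single variable may be replaced
-/

set_option autoImplicit false

open Finset Module Matrix

namespace Pool.Agent.Lib.MP_64d474_lc.Kal

namespace Single

open Polynomial

variable {F : Type*} [Field F] {ι E : Type} [Fintype ι] [DecidableEq ι] [Fintype E] {m : ℕ}

/-- the symbolic matrix along a polynomial curve -/
noncomputable def pmat (P : E → Matrix ι ι F) (κ : E → Option (Fin m)) (p : Fin m → F[X]) :
    Matrix ι ι F[X] :=
  ∑ q, cf κ p q • (P q).map C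

lemma eval_pmat_det (P : E → Matrix ι ι F) (κ : E → Option (Fin m)) (p : Fin m → F[X]) (t : F) :
    (pmat P κ p).det.eval t = (mat P κ fun k => (p k).eval t).det := by
  rw [← Polynomial.coe_evalRingHom, RingHom.map_det]
  congr 1
  ext i j
  simp only [pmat, mat, RingHom.mapMatrix_apply, Matrix.map_apply, Matrix.sum_apply,
    Matrix.smul_apply, map_sum, smul_eq_mul, Polynomial.coe_evalRingHom]
  refine Finset.sum_congr rfl fun q _ => ?_
  unfold cf
  cases κ q <;> simp

lemma exists_eval_ne [Infinite F] {f : F[X]} (hf : f ≠ 0) : ∃ t, f.eval t ≠ 0 := by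
  by_contra h
  push Not at h
  exact hf (Polynomial.funext fun t => by rw [h t, eval_zero])

end Single

open Single Polynomial in
/-- KAL-7 -/
theorem stSingle.{u} : StSingle.{u} := by
  intro F _ _ ι E _ _ _ _ P m N κ don k₀ hk₀ hN g z₀ x hdet
  obtain ⟨N, rfl⟩ : ∃ N', N = N' + 1 := ⟨N - 1, by omega⟩
  -- first step: a point with nonzero first source
  obtain ⟨z, hz0, hz⟩ : ∃ z : Fin (N + 1) → F, z 0 ≠ 0 ∧
      (mat P κ fun k => if k ∈ don then ∑ j, z j * g k j else x k).det ≠ 0 := by
    set p : Fin m → F[X] := fun k => if k ∈ don then C (∑ j, z₀ j * g k j) + X * C (g k 0)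
      else C (x k) with hp
    have hf : (pmat P κ p).det ≠ 0 := by
      intro h0
      have h1 := eval_pmat_det P κ p 0
      rw [h0, eval_zero] at h1
      refine hdet ?_
      rw [h1]
      congr 2
      funext k
      by_cases hk : k ∈ don
      · simp only [hp, hk, if_true, eval_add, eval_mul, eval_C, eval_X, zero_mul, add_zero]
      · simp only [hp, hk, if_false, eval_C]
    have hX : (X + C (z₀ 0) : F[X]) ≠ 0 := X_add_C_ne_zero _
    obtain ⟨t, ht⟩ := exists_eval_ne (mul_ne_zero hf hX)
    rw [eval_mul, eval_pmat_det] at ht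
    refine ⟨fun j => z₀ j + if j = 0 then t else 0, ?_, ?_⟩
    · have := right_ne_zero_of_mul ht
      simp only [eval_add, eval_X, eval_C] at this
      simpa [add_comm] using this
    · have := left_ne_zero_of_mul ht
      convert this using 3
      funext k
      by_cases hk : k ∈ don
      · simp only [hp, hk, if_true, add_mul, Finset.sum_add_distrib, eval_add, eval_mul, eval_C,
          eval_X, ite_mul, zero_mul, Finset.sum_ite_eq', Finset.mem_univ]
      · simp only [hp, hk, if_false, eval_C]
  -- second step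
  set p : Fin m → F[X] := fun k => if k ∈ don then C (∑ j, z j * g k j) else
    if k = k₀ then X else C (x k) with hp
  have hf : (pmat P κ p).det ≠ 0 := by
    intro h0
    have h1 := eval_pmat_det P κ p (x k₀)
    rw [h0, eval_zero] at h1
    refine hz ?_
    rw [h1]
    congr 2
    funext k
    by_cases hk : k ∈ don
    · simp only [hp, hk, if_true, eval_C]
    · by_cases hk' : k = k₀
      · subst hk'
        simp [hp, hk]
      · simp [hp, hk, hk']
  set c : F[X] := ∑ j : Fin (N + 1), C (z j) * (C (((k₀ : ℕ) + 1 : ℕ) : F) * X) ^ ((j : ℕ) + 1)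
    with hc
  have hc1 : c.coeff 1 ≠ 0 := by
    have h1 : c.coeff 1 = z 0 * (((k₀ : ℕ) + 1 : ℕ) : F) := by
      rw [hc, Polynomial.finsetSum_coeff, Finset.sum_eq_single (0 : Fin (N + 1))]
      · simp
      · intro j _ hj
        have hj' : (j : ℕ) ≠ 0 := fun h => hj (Fin.ext (by simpa using h))
        rw [mul_pow, ← C_pow, coeff_C_mul, coeff_C_mul, coeff_X_pow,
          if_neg (by omega), mul_zero, mul_zero]
      · simp
    rw [h1]
    exact mul_ne_zero hz0 (Nat.cast_ne_zero.mpr (Nat.succ_ne_zero _))
  have hcomp : ((pmat P κ p).det.comp c) ≠ 0 := by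
    intro h0
    rcases comp_eq_zero_iff.mp h0 with h | h
    · exact hf h
    · apply hc1
      rw [h.2, coeff_C]
      simp
  obtain ⟨y, hy⟩ := exists_eval_ne hcomp
  refine ⟨z, y, ?_⟩
  rw [eval_comp, eval_pmat_det] at hy
  convert hy using 3
  funext k
  by_cases hk : k ∈ don
  · simp only [hp, hk, if_true, eval_C]
  · by_cases hk' : k = k₀
    · subst hk'
      simp only [hp, hk, if_false, if_true, eval_X, hc, eval_finsetSum, eval_mul, eval_C,
        eval_pow]
    · simp only [hp, hk, hk', if_false, eval_C]

end Pool.Agent.Lib.MP_64d474_lc.Kal
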