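import Pool.Agent.Lib.MP_64d474_lc.Kal.Stmts
import Pool.Agent.Lib.MP_64d474_lc.SubExp.Extract
import Pool.Agent.Lib.MP_64d474_lc.SubExp.Mult
import Pool.Agent.Lib.MP_64d474_lc.SubExp.Vanish

/-!
# KAL-2: replacing the variables of one block, general nodes
-/

set_option autoImplicit false

namespace Pool.Agent.Lib.MP_64d474_lc.Kal

namespace StepNodes

open Pool.Agent.Lib.MP_64d474_lc.SubExp

section Ext

open Finset Polynomial

/-- the matrix of the extractor on vectors in echelon form is invertible -/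
theorem det_extract {L : Type*} [Field L] [CharZero L] {t b : ℕ} (τ : Fin b → ℕ)
    (hV : ∀ e : Fin b → ℕ, Function.Injective e →
      (Matrix.of fun a l : Fin b => ((τ a : ℕ) : L) ^ e l).det ≠ 0)
    (θ : Fin b → Fin t → L) (p : Fin b → Fin t) (hp : StrictMono p)
    (h1 : ∀ l, θ l (p l) ≠ 0) (h2 : ∀ l j, j < p l → θ l j = 0) :
    (Matrix.of fun a l : Fin b => ∑ j : Fin t,
      (C (θ l j) * (C ((τ a : ℕ) : L) * X) ^ ((j : ℕ) + 1) : L[X])).det ≠ 0 := by
  set H : Matrix (Fin b) (Fin b) L[X] := Matrix.of fun a l => ∑ j : Fin t,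
    C (θ l j) * C ((τ a : ℕ) : L) ^ ((j : ℕ) + 1) * X ^ ((j : ℕ) - (p l : ℕ)) with hH
  have e : (Matrix.of fun a l : Fin b => ∑ j : Fin t,
      (C (θ l j) * (C ((τ a : ℕ) : L) * X) ^ ((j : ℕ) + 1) : L[X])) =
      Matrix.of fun a l => (X : L[X]) ^ ((p l : ℕ) + 1) * H a l := by
    ext1 a l
    rw [Matrix.of_apply, Matrix.of_apply, hH, Matrix.of_apply, mul_sum]
    refine sum_congr rfl fun j _ => ?_
    by_cases hj : j < p l
    · rw [h2 l j hj]
      simp
    · have hj' : (p l : ℕ) ≤ (j : ℕ) := by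
        rw [not_lt] at hj
        exact hj
      have e2 : (j : ℕ) + 1 = ((p l : ℕ) + 1) + ((j : ℕ) - (p l : ℕ)) := by omega
      rw [mul_pow]
      conv_lhs => rw [e2]
      rw [pow_add X, ← e2]
      ring
  rw [e, Matrix.det_mul_row]
  refine mul_ne_zero (prod_ne_zero_iff.2 fun l _ => pow_ne_zero _ X_ne_zero) ?_
  intro h0
  have h3 := congrArg (Polynomial.evalRingHom (0 : L)) h0
  rw [RingHom.map_det, map_zero] at h3
  have h4 : (Polynomial.evalRingHom (0 : L)).mapMatrix H =
      Matrix.of fun a l : Fin b => θ l (p l) *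
        (Matrix.of fun a l : Fin b => ((τ a : ℕ) : L) ^ ((p l : ℕ) + 1)) a l := by
    ext1 a l
    rw [RingHom.mapMatrix_apply, Matrix.map_apply, hH, Matrix.of_apply, Matrix.of_apply,
      map_sum, Matrix.of_apply]
    rw [sum_eq_single (p l)]
    · rw [Polynomial.coe_evalRingHom, Nat.sub_self, pow_zero, mul_one, Polynomial.eval_mul,
        Polynomial.eval_pow, Polynomial.eval_C, Polynomial.eval_C]
    · intro j _ hj
      by_cases hlt : j < p l
      · rw [h2 l j hlt]
        simp
      · have hgt : p l < j := lt_of_le_of_ne (not_lt.1 hlt) (Ne.symm hj)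
        have hgt' : (p l : ℕ) < (j : ℕ) := hgt
        rw [Polynomial.coe_evalRingHom, Polynomial.eval_mul, Polynomial.eval_pow,
          Polynomial.eval_X, zero_pow (by omega), mul_zero]
    · intro h
      exact absurd (mem_univ _) h
  rw [h4, Matrix.det_mul_row] at h3
  rcases mul_eq_zero.1 h3 with h5 | h5
  · rw [prod_eq_zero_iff] at h5
    obtain ⟨l, _, hl⟩ := h5
    exact h1 l hl
  · refine hV (fun l => (p l : ℕ) + 1) ?_ h5
    intro l l' hll
    have h10 : (p l : ℕ) = (p l' : ℕ) := Nat.succ_injective hll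
    exact hp.injective (Fin.ext h10)

end Ext

open MvPolynomial

section

variable {F : Type*} [Field F] {t b : ℕ}

/-- the coordinates of the point as polynomials in the parameters -/
noncomputable def xpt (F : Type*) [Field F] (t : ℕ) {b : ℕ} (τ : Fin b → ℕ) (a : Fin b) :
    Polynomial (MvPolynomial (Fin t) F) :=
  ∑ j : Fin t, Polynomial.C (X j) *
    (Polynomial.C ((τ a : ℕ) : MvPolynomial (Fin t) F) * Polynomial.X) ^ ((j : ℕ) + 1)

/-- the value of the coordinate with position `a` -/
def xval (τ : Fin b → ℕ) (z : Fin t → F) (a : Fin b) (y : F) : F :=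
  ∑ j : Fin t, z j * (((τ a : ℕ) : F) * y) ^ ((j : ℕ) + 1)

theorem eval₂_xpt [CharZero F] {n : Type*} [Fintype n] [DecidableEq n] (τ : Fin b → ℕ)
    (C₀ : Matrix n n F) (Cj : Fin t → Matrix n n F) (A : Fin b → Matrix n n F)
    (h : ∀ (z : Fin t → F) (y : F),
      (C₀ + ∑ j, z j • Cj j + ∑ a : Fin b, xval τ z a y • A a).det = 0) :
    eval₂ Polynomial.C (xpt F t τ) (bigMat C₀ Cj A).det = 0 := by
  ext i : 1
  rw [Polynomial.coeff_zero]
  apply MvPolynomial.funext
  intro z
  rw [map_zero]
  have h1 : (eval₂ Polynomial.C (xpt F t τ) (bigMat C₀ Cj A).det).map (eval z) = 0 := by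
    apply Polynomial.funext
    intro y
    rw [Polynomial.eval_zero, Polynomial.eval_map]
    have h2 : Polynomial.eval₂ (eval z) y (eval₂ Polynomial.C (xpt F t τ) (bigMat C₀ Cj A).det) =
        Polynomial.eval₂RingHom (eval z) y
          (eval₂ Polynomial.C (xpt F t τ) (bigMat C₀ Cj A).det) := rfl
    rw [h2, hom_eval₂, eval_bigMat, ← h z y]
    congr 1
    have e1 : ((Polynomial.eval₂RingHom (eval z) y).comp Polynomial.C).comp C =
        RingHom.id F := by
      ext c
      simp
    have e2 : ∀ M : Matrix n n F,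
        M.map (((Polynomial.eval₂RingHom (eval z) y).comp Polynomial.C).comp C) = M := by
      intro M
      rw [e1]
      ext i j
      rfl
    simp only [e2]
    congr 1
    · congr 1
      refine Finset.sum_congr rfl fun j _ => ?_
      congr 1
      simp
    · refine Finset.sum_congr rfl fun a _ => ?_
      congr 1
      rw [xpt, xval, map_sum]
      refine Finset.sum_congr rfl fun j _ => ?_
      rw [map_mul, map_pow, map_mul]
      congr 1
      · simp
      · congr 2
        · rw [Polynomial.coe_eval₂RingHom, Polynomial.eval₂_C, map_natCast]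
        · simp
  have h3 := congrArg (fun p => Polynomial.coeff p i) h1
  simpa [Polynomial.coeff_map] using h3

theorem step_aux [CharZero F] {L T : Type*} [Field L] [CharZero L] [CommRing T]
    (ι : MvPolynomial (Fin t) F →+* L) (hι : Function.Injective ι) (i : Polynomial L →+* T)
    (e : T) (he : e * e = 0) (hinj : ∀ s s', i s + e * i s' = 0 → s' = 0) (τ : Fin b → ℕ)
    (hV : ∀ e : Fin b → ℕ, Function.Injective e →
      (Matrix.of fun a l : Fin b => ((τ a : ℕ) : L) ^ e l).det ≠ 0)
    {n ρ ρ' : Type*} [Fintype n] [DecidableEq n] [Fintype ρ]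
    [DecidableEq ρ] [Fintype ρ'] [DecidableEq ρ'] (C₀ : Matrix n n F) (Cj : Fin t → Matrix n n F)
    (A : Fin b → Matrix n n F) (U : Matrix n ρ F) (V : Matrix ρ' n F)
    (D : Fin b → Matrix ρ ρ' F) (hA : ∀ a, A a = U * D a * V) (z₀ : Fin t → F) (x₀ : Fin b → F)
    (h : (C₀ + ∑ j, z₀ j • Cj j + ∑ a, x₀ a • A a).det ≠ 0)
    (hK : ∀ (μ : F →+* L) (Z : Fin t → L) (Mi : Matrix n n L),
      (C₀.map μ + ∑ j, Z j • (Cj j).map μ + ∑ a, μ (x₀ a) • (A a).map μ) * Mi = 1 →
      ∃ K : Submodule L (Fin t → L), b ≤ Module.finrank L K ∧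
        ∀ θ ∈ K, V.map μ * (Mi * (∑ j, θ j • (Cj j).map μ) * (Mi * U.map μ)) = 0) :
    ∃ (z : Fin t → F) (y : F),
      (C₀ + ∑ j, z j • Cj j + ∑ a : Fin b, xval τ z a y • A a).det ≠ 0 := by
  by_contra hcon
  push Not at hcon
  have hvan := eval₂_xpt τ C₀ Cj A hcon
  -- the determinant is not the zero polynomial
  have hne : (bigMat C₀ Cj A).det ≠ 0 := by
    intro h0
    apply h
    have h1 := eval_bigMat (eval z₀) x₀ C₀ Cj A
    rw [h0, eval₂_zero] at h1
    have e1 : (eval z₀).comp C = RingHom.id F := by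
      ext c
      simp
    have e2 : ∀ M : Matrix n n F, M.map ((eval z₀).comp C) = M := by
      intro M
      rw [e1]
      ext i j
      rfl
    simp only [e2, eval_X] at h1
    exact h1.symm
  apply hne
  set μ : F →+* L := ι.comp (C : F →+* MvPolynomial (Fin t) F) with hμ
  set Zl : Fin t → L := fun j => ι (X j) with hZl
  set M1 : Matrix n n L := C₀.map μ + ∑ j, Zl j • (Cj j).map μ +
    ∑ a, μ (x₀ a) • (A a).map μ with hM1
  have hM1det : M1.det ≠ 0 := by
    intro h0
    have h1 := eval_bigMat ι (fun a => μ (x₀ a)) C₀ Cj A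
    have h2 : eval₂ ι (fun a => μ (x₀ a)) (bigMat C₀ Cj A).det =
        ι (eval₂ (RingHom.id _) (fun a => C (x₀ a)) (bigMat C₀ Cj A).det) := by
      rw [hom_eval₂]
      rfl
    have h3 : ι (eval₂ (RingHom.id _) (fun a => C (x₀ a)) (bigMat C₀ Cj A).det) = ι 0 := by
      rw [← h2, h1, map_zero]
      exact h0
    have h3' := hι h3
    apply h
    have h4 := congrArg (eval z₀) h3'
    rw [hom_eval₂, map_zero, eval_bigMat] at h4
    have e1 : ((eval z₀).comp (RingHom.id (MvPolynomial (Fin t) F))).comp C = RingHom.id F := by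
      ext c
      simp
    have e2 : ∀ M : Matrix n n F,
        M.map (((eval z₀).comp (RingHom.id (MvPolynomial (Fin t) F))).comp C) = M := by
      intro M
      rw [e1]
      ext i j
      rfl
    simp only [e2, RingHom.comp_apply, RingHom.id_apply, eval_X, eval_C] at h4
    exact h4
  set Mi : Matrix n n L := M1⁻¹ with hMi
  have hMMi : M1 * Mi = 1 := Matrix.mul_nonsing_inv _ (isUnit_iff_ne_zero.2 hM1det)
  obtain ⟨K, hK1, hK2⟩ := hK μ Zl Mi hMMi
  obtain ⟨th, p, hp, hth, hp1, hp2⟩ := exists_echelon K hK1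
  have hext := det_extract τ hV th p hp hp1 hp2
  set σ : L →+* T := i.comp Polynomial.C with hσ
  set κ : Polynomial (MvPolynomial (Fin t) F) →+* Polynomial L := Polynomial.mapRingHom ι with hκ
  have hκinj : Function.Injective κ := Polynomial.map_injective ι hι
  have hphi0 : phi σ e μ Zl 0 = i.comp (κ.comp Polynomial.C) := by
    rw [phi_zero]
    apply MvPolynomial.ringHom_ext
    · intro c
      simp [hσ, hκ, hμ]
    · intro j
      simp [hσ, hκ, hZl]
  refine vanish i e he hinj κ hκinj
    (fun θ : K => Polynomial.eval₂RingHom (phi σ e μ Zl θ) (i Polynomial.X)) (xpt F t τ)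
    (fun θ a => ∑ j : Fin t, Polynomial.C ((θ : Fin t → L) j) *
      (Polynomial.C ((τ a : ℕ) : L) * Polynomial.X) ^ ((j : ℕ) + 1)) ?_
    (fun l => ⟨th l, hth l⟩) ?_
    (fun θ => unitOf σ e (Mi * ∑ j, (θ : Fin t → L) j • (Cj j).map μ))
    (fun θ => isUnit_unitOf σ e he _) _ _ le_rfl ?_ hvan
  · intro θ a
    rw [xpt, map_sum, map_sum, map_sum, map_sum, Finset.mul_sum, ← Finset.sum_add_distrib]
    refine Finset.sum_congr rfl fun j _ => ?_
    have f1 : Polynomial.eval₂RingHom (phi σ e μ Zl θ) (i Polynomial.X) (Polynomial.C (X j)) =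
        σ (Zl j) + e * σ ((θ : Fin t → L) j) := by
      rw [Polynomial.coe_eval₂RingHom, Polynomial.eval₂_C, phi, coe_eval₂Hom, eval₂_X]
    have f2 : Polynomial.eval₂RingHom (phi σ e μ Zl θ) (i Polynomial.X)
        (Polynomial.C ((τ a : ℕ) : MvPolynomial (Fin t) F)) = ((τ a : ℕ) : T) := by
      rw [Polynomial.coe_eval₂RingHom, Polynomial.eval₂_C, map_natCast]
    have f3 : Polynomial.eval₂RingHom (phi σ e μ Zl θ) (i Polynomial.X) Polynomial.X =
        i Polynomial.X := by
      rw [Polynomial.coe_eval₂RingHom, Polynomial.eval₂_X]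
    have f4 : i (κ (Polynomial.C ((τ a : ℕ) : MvPolynomial (Fin t) F))) = ((τ a : ℕ) : T) := by
      rw [map_natCast, map_natCast, map_natCast]
    have f5 : κ Polynomial.X = Polynomial.X := by
      rw [hκ, Polynomial.coe_mapRingHom, Polynomial.map_X]
    have f6 : κ (Polynomial.C (X j)) = Polynomial.C (Zl j) := by
      rw [hκ, Polynomial.coe_mapRingHom, Polynomial.map_C]
    have f7 : i (Polynomial.C ((τ a : ℕ) : L)) = ((τ a : ℕ) : T) := by
      rw [map_natCast, map_natCast]
    simp only [map_mul, map_pow]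
    rw [f1, f2, f3, f4, f5, f6, f7, hσ, RingHom.comp_apply, RingHom.comp_apply]
    ring
  · intro h0
    apply hext
    rw [← Matrix.det_transpose, ← h0]
    rfl
  · intro θ
    have f1 : (Polynomial.eval₂RingHom (phi σ e μ Zl θ) (i Polynomial.X)).comp Polynomial.C =
        phi σ e μ Zl θ := by
      apply RingHom.ext
      intro c
      rw [RingHom.comp_apply, Polynomial.coe_eval₂RingHom, Polynomial.eval₂_C]
    rw [f1, ← hphi0]
    exact map_det_eq σ e he μ Zl θ C₀ Cj A U V D hA (fun a => μ (x₀ a)) Mi hMMi (hK2 θ θ.2)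

end

end StepNodes

/-- **KAL-2.** the variables of one block may be replaced by the values at general nodes -/
theorem stStepN.{u} (hV : StVander.{u}) : StStepN.{u} := by
  intro F _ _ t b τ hτ hpos ι ρ ρ' _ _ _ _ _ _ C₀ Cj A U V D hA z₀ x₀ hdet hK
  haveI : CharZero (FractionRing (MvPolynomial (Fin t) F)) := charZero_of_injective_algebraMap
    (IsFractionRing.injective (MvPolynomial (Fin t) F) (FractionRing (MvPolynomial (Fin t) F)))
  refine StepNodes.step_aux
    (T := TrivSqZeroExt (Polynomial (FractionRing (MvPolynomial (Fin t) F)))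
      (Polynomial (FractionRing (MvPolynomial (Fin t) F))))
    (algebraMap (MvPolynomial (Fin t) F) (FractionRing (MvPolynomial (Fin t) F)))
    (IsFractionRing.injective _ _) (TrivSqZeroExt.inlHom _ _) (TrivSqZeroExt.inr 1)
    (TrivSqZeroExt.inr_mul_inr _ _ _) ?_ τ
    (fun e he => hV (FractionRing (MvPolynomial (Fin t) F)) b τ e hτ hpos he)
    C₀ Cj A U V D hA z₀ x₀ hdet
    (fun μ Z Mi h => hK (FractionRing (MvPolynomial (Fin t) F)) μ Z Mi h)
  intro s s' hs
  have h1 := congrArg TrivSqZeroExt.snd hs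
  simpa using h1

end Pool.Agent.Lib.MP_64d474_lc.Kal
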