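import Mathlib
import Pool.Agent.Lib.MP_64d474_lc.Kal.Stmts

/-! # KAL-6: the step for the pieces -/

set_option autoImplicit false

open Finset Module Matrix

namespace Pool.Agent.Lib.MP_64d474_lc.Kal

namespace StepPAux

/-- generalized inverses of matrices over a field -/
lemma exists_ginv {F : Type*} [Field F] {ι : Type*} [Fintype ι] [DecidableEq ι]
    (P : Matrix ι ι F) : ∃ G : Matrix ι ι F, P * G * P = P := by
  obtain ⟨s, hs⟩ := (Matrix.toLin' P).rangeRestrict.exists_rightInverse_of_surjective
    (LinearMap.range_rangeRestrict _)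
  obtain ⟨q, hq⟩ := (LinearMap.range (Matrix.toLin' P)).subtype.exists_leftInverse_of_injective
    (Submodule.ker_subtype _)
  refine ⟨LinearMap.toMatrix' (s ∘ₗ q), ?_⟩
  apply Matrix.toLin'.injective
  rw [Matrix.toLin'_mul, Matrix.toLin'_mul, Matrix.toLin'_toMatrix']
  refine LinearMap.ext fun w => ?_
  have h1 : q (Matrix.toLin' P w) = (Matrix.toLin' P).rangeRestrict w :=
    LinearMap.congr_fun hq ((Matrix.toLin' P).rangeRestrict w)
  have h2 : (Matrix.toLin' P).rangeRestrict (s ((Matrix.toLin' P).rangeRestrict w)) =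
      (Matrix.toLin' P).rangeRestrict w :=
    LinearMap.congr_fun hs ((Matrix.toLin' P).rangeRestrict w)
  have h3 : Matrix.toLin' P (s ((Matrix.toLin' P).rangeRestrict w)) = Matrix.toLin' P w :=
    congrArg Subtype.val h2
  rw [LinearMap.comp_apply, LinearMap.comp_apply, LinearMap.comp_apply, h1]
  exact h3

section

variable {F L : Type*} [Field F] [Field L] {ι E : Type} [Fintype ι] [Fintype E] [DecidableEq E]
  {m N : ℕ}

omit [Fintype ι] [DecidableEq E] in
lemma map_sum_smul (μ : F →+* L) (c : E → F) (P : E → Matrix ι ι F) :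
    (∑ p, c p • P p).map μ = ∑ p, μ (c p) • (P p).map μ := by
  ext i j
  simp [Matrix.sum_apply, Matrix.map_apply, map_sum, map_mul]

/-- coefficients of the constant part -/
def c0 (κ : E → Option (Fin m)) (don cur : Finset (Fin m)) (x : Fin m → F) (p : E) : F :=
  (κ p).elim 1 fun k => if k ∈ don then 0 else if k ∈ cur then 0 else x k

/-- coefficients of the sources -/
def cj (κ : E → Option (Fin m)) (don : Finset (Fin m)) (g : Fin m → Fin N → F) (j : Fin N)
    (p : E) : F := (κ p).elim 0 fun k => if k ∈ don then g k j else 0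

/-- coefficients of a current variable -/
def ca (κ : E → Option (Fin m)) (k : Fin m) (p : E) : F := if κ p = some k then 1 else 0

omit [Fintype E] [DecidableEq E] in
lemma sum_ca (cur : Finset (Fin m)) (κ : E → Option (Fin m)) (w : Fin m → L) (p : E) :
    ∑ a : Fin cur.card, w (cur.equivFin.symm a) * ca κ (cur.equivFin.symm a : Fin m) p =
      (κ p).elim 0 fun k => if k ∈ cur then w k else 0 := by
  rw [Equiv.sum_comp cur.equivFin.symm (fun k : cur => w k * ca κ (k : Fin m) p),
    Finset.sum_coe_sort cur (fun k => w k * ca κ k p)]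
  cases h : κ p with
  | none => simp [ca, h]
  | some k =>
    simp only [ca, h, Option.some.injEq, mul_ite, mul_one, mul_zero, Option.elim_some]
    rw [Finset.sum_ite_eq]

lemma expand (P : E → Matrix ι ι F) (κ : E → Option (Fin m)) (don cur : Finset (Fin m))
    (hdc : Disjoint don cur) (g : Fin m → Fin N → F) (x : Fin m → F) (μ : F →+* L)
    (Z : Fin N → L) (w : Fin m → L) :
    (∑ p, c0 κ don cur x p • P p).map μ + ∑ j, Z j • (∑ p, cj κ don g j p • P p).map μ +
      ∑ a : Fin cur.card, w (cur.equivFin.symm a) •
        (∑ p, ca (F := F) κ (cur.equivFin.symm a : Fin m) p • P p).map μ =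
    ∑ p, ((κ p).elim 1 fun k => if k ∈ don then ∑ j, Z j * μ (g k j) else
      if k ∈ cur then w k else μ (x k)) • (P p).map μ := by
  simp only [map_sum_smul]
  have e1 : ∑ j, Z j • ∑ p, μ (cj κ don g j p) • (P p).map μ =
      ∑ p, (∑ j, Z j * μ (cj κ don g j p)) • (P p).map μ := by
    simp only [Finset.smul_sum, smul_smul, Finset.sum_smul]
    exact Finset.sum_comm
  have e2 : ∑ a : Fin cur.card, w (cur.equivFin.symm a) •
        (∑ p, μ (ca κ (cur.equivFin.symm a : Fin m) p) • (P p).map μ) =
      ∑ p, (∑ a : Fin cur.card, w (cur.equivFin.symm a) *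
        μ (ca κ (cur.equivFin.symm a : Fin m) p)) • (P p).map μ := by
    simp only [Finset.smul_sum, smul_smul, Finset.sum_smul]
    exact Finset.sum_comm
  rw [e1, e2, ← Finset.sum_add_distrib, ← Finset.sum_add_distrib]
  refine Finset.sum_congr rfl fun p _ => ?_
  rw [← add_smul, ← add_smul]
  congr 1
  have e3 : ∑ a : Fin cur.card, w (cur.equivFin.symm a) *
        μ (ca κ (cur.equivFin.symm a : Fin m) p) =
      (κ p).elim 0 fun k => if k ∈ cur then w k else 0 := by
    rw [← sum_ca]
    refine Finset.sum_congr rfl fun a _ => ?_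
    simp only [ca]
    split_ifs <;> simp
  rw [e3]
  cases h : κ p with
  | none => simp [c0, cj, h]
  | some k =>
    simp only [c0, cj, h, Option.elim_some]
    by_cases h1 : k ∈ don
    · have h2 : k ∉ cur := fun h2 => Finset.disjoint_left.mp hdc h1 h2
      simp [h1, h2]
    · by_cases h2 : k ∈ cur
      · simp [h1, h2]
      · simp [h1, h2]

end

end StepPAux

open StepPAux in
/-- KAL-6 -/
theorem stStepP.{u} (h2 : StStepN.{u}) (h5 : StCheapK.{u}) : StStepP.{u} := by
  classical
  intro F _ _ ι E _ _ _ _ P m N κ don cur hdc g N' hch hN z₀ x hdet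
  set Q : Finset E := pcs κ cur with hQ
  set e := cur.equivFin.symm with he
  choose G hG using fun p => exists_ginv (P p)
  have hQmem : ∀ p, p ∈ Q ↔ ∃ k ∈ cur, κ p = some k := by
    intro p; simp [hQ, pcs]
  -- the data for the step
  let C₀ : Matrix ι ι F := ∑ p, c0 κ don cur x p • P p
  let Cj : Fin N → Matrix ι ι F := fun j => ∑ p, cj κ don g j p • P p
  let A : Fin cur.card → Matrix ι ι F := fun a => ∑ p, ca (F := F) κ (e a : Fin m) p • P p
  let U : Matrix ι (Q × ι) F := Matrix.of fun i pj => P pj.1 i pj.2
  let V : Matrix (Q × ι) ι F := Matrix.of fun pi j => P pi.1 pi.2 j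
  let D : Fin cur.card → Matrix (Q × ι) (Q × ι) F := fun a => Matrix.of fun pi qj =>
    if pi.1 = qj.1 then ca (F := F) κ (e a : Fin m) pi.1 * G pi.1 pi.2 qj.2 else 0
  have hA : ∀ a, A a = U * D a * V := by
    intro a
    ext i j
    have h1 : (U * D a * V) i j = ∑ q : Q, ca (F := F) κ (e a : Fin m) q *
        (P q * G q * P q) i j := by
      rw [Matrix.mul_apply, Fintype.sum_prod_type]
      refine Finset.sum_congr rfl fun q _ => ?_
      have h2 : ∀ l, (U * D a) i (q, l) = ca (F := F) κ (e a : Fin m) q * (P q * G q) i l := by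
        intro l
        rw [Matrix.mul_apply, Fintype.sum_prod_type, Finset.sum_eq_single q]
        · simp only [U, D, Matrix.of_apply, if_true, Matrix.mul_apply, Finset.mul_sum]
          exact Finset.sum_congr rfl fun k _ => by ring
        · intro p _ hp
          simp only [U, D, Matrix.of_apply, if_neg hp, mul_zero, Finset.sum_const_zero]
        · intro h; exact absurd (Finset.mem_univ _) h
      simp only [h2, V, Matrix.of_apply]
      rw [Matrix.mul_apply, Finset.mul_sum]
      exact Finset.sum_congr rfl fun k _ => by ring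
    rw [h1]
    simp only [hG]
    have h3 : A a i j = ∑ p, ca (F := F) κ (e a : Fin m) p * P p i j := by
      simp only [A, Matrix.sum_apply, Matrix.smul_apply, smul_eq_mul]
    rw [h3, Finset.sum_coe_sort Q (fun p => ca (F := F) κ (e a : Fin m) p * P p i j)]
    symm
    refine Finset.sum_subset (Finset.subset_univ _) fun p _ hp => ?_
    have : ca (F := F) κ (e a : Fin m) p = 0 := by
      unfold ca
      rw [if_neg]
      intro h
      exact hp ((hQmem p).mpr ⟨_, (e a).2, h⟩)
    rw [this, zero_mul]
  -- the expansion over `F`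
  have hexp : ∀ (z : Fin N → F) (w : Fin m → F),
      C₀ + ∑ j, z j • Cj j + ∑ a, w (e a) • A a =
        mat P κ fun k => if k ∈ don then ∑ j, z j * g k j else if k ∈ cur then w k else x k := by
    intro z w
    have h := expand P κ don cur hdc g x (RingHom.id F) z w
    simp only [RingHom.id_apply] at h
    have hid : ∀ M : Matrix ι ι F, M.map (RingHom.id F) = M := fun M => by ext i j; simp
    simp only [hid] at h
    exact h
  have hdet' : (C₀ + ∑ j, z₀ j • Cj j + ∑ a, x (e a) • A a).det ≠ 0 := by
    rw [hexp z₀ x]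
    have : (fun k => if k ∈ don then ∑ j, z₀ j * g k j else if k ∈ cur then x k else x k) =
        fun k => if k ∈ don then ∑ j, z₀ j * g k j else x k := by
      funext k; simp
    rw [this]; exact hdet
  obtain ⟨z, y, hzy⟩ := h2 F N cur.card (fun a => ((e a : Fin m) : ℕ) + 1)
    (fun a b h => e.injective (Subtype.ext (Fin.ext (by simpa using h)))) (fun a => by positivity)
    ι (Q × ι) (Q × ι) C₀ Cj A U V D hA z₀ (fun a => x (e a)) hdet' (by
      intro L _ _ μ Z Mi hMi
      have h := expand P κ don cur hdc g x μ Z (fun k => μ (x k))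
      change (C₀.map μ + ∑ j, Z j • (Cj j).map μ + ∑ a, μ (x (e a)) • (A a).map μ) = _ at h
      rw [h] at hMi
      let δ : E → (Fin N → L) →ₗ[L] L := fun p => (κ p).elim 0 fun k =>
        if k ∈ don then ∑ j, μ (g k j) • LinearMap.proj j else 0
      obtain ⟨K, hK1, hK2⟩ := h5 F L μ ι E P (fun p => p ∈ pcs κ don) Q N' N hch _ Mi hMi δ
        (by
          intro p hp
          simp only [δ]
          cases hk : κ p with
          | none => rfl
          | some k =>
            simp only [Option.elim_some]
            rw [if_neg]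
            intro hkd
            exact hp (by simp only [pcs, Finset.mem_filter, Finset.mem_univ, true_and]
                         exact ⟨k, hkd, hk⟩))
        (by
          intro p hp
          obtain ⟨k, hk, hpk⟩ := (hQmem p).mp hp
          simp only [δ, hpk, Option.elim_some]
          rw [if_neg]
          exact fun hkd => Finset.disjoint_left.mp hdc hkd hk)
      refine ⟨K, by omega, fun θ hθ => ?_⟩
      have hS : ∑ j, θ j • (Cj j).map μ = ∑ p, δ p θ • (P p).map μ := by
        have e1 : ∑ j, θ j • (Cj j).map μ = ∑ p, (∑ j, θ j * μ (cj κ don g j p)) •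
            (P p).map μ := by
          simp only [Cj, map_sum_smul, Finset.smul_sum, smul_smul, Finset.sum_smul]
          exact Finset.sum_comm
        rw [e1]
        refine Finset.sum_congr rfl fun p _ => ?_
        congr 1
        simp only [δ, cj]
        cases hk : κ p with
        | none => simp
        | some k =>
          simp only [Option.elim_some]
          by_cases hkd : k ∈ don
          · simp only [if_pos hkd, LinearMap.sum_apply, LinearMap.smul_apply,
              LinearMap.proj_apply, smul_eq_mul]
            exact Finset.sum_congr rfl fun j _ => mul_comm _ _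
          · simp [hkd]
      rw [hS]
      ext ⟨p₁, i⟩ ⟨p₂, j⟩
      have h6 := congrFun (congrFun (hK2 θ hθ p₁ p₁.2 p₂ p₂.2) i) j
      rw [Matrix.zero_apply] at h6 ⊢
      rw [← h6]
      simp only [Matrix.mul_apply, V, U, Matrix.map_apply, Matrix.of_apply])
  refine ⟨z, y, ?_⟩
  have h := hexp z (fun k => ∑ j : Fin N, z j * ((((k : ℕ) + 1 : ℕ) : F) * y) ^ ((j : ℕ) + 1))
  rw [← h]
  exact hzy

end Pool.Agent.Lib.MP_64d474_lc.Kal
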