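import Mathlib
import Pool.Agent.Lib.MP_64d474_lc.Kal.Stmts

/-!
# KAL-10: trees with small cuts make all sets of pieces cheap
-/

set_option autoImplicit false

open Finset Module Matrix

namespace Pool.Agent.Lib.MP_64d474_lc.Kal.Tree

universe u

section Sub

variable {F : Type u} [Field F] {ι E : Type} [Fintype ι] [Fintype E] [DecidableEq E]

theorem csp_union (P : E → Matrix ι ι F) (S T : Finset E) :
    csp P (S ∪ T) = csp P S ⊔ csp P T := by
  unfold csp
  exact Finset.iSup_union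

theorem csp_mono (P : E → Matrix ι ι F) {S T : Finset E} (h : S ⊆ T) :
    csp P S ≤ csp P T := by
  unfold csp
  exact biSup_mono fun p hp => h hp

theorem cdim_submod (P : E → Matrix ι ι F) (S T : Finset E) :
    cdim P (S ∩ T) + cdim P (S ∪ T) ≤ cdim P S + cdim P T := by
  unfold cdim
  rw [csp_union]
  have h := Submodule.finrank_sup_add_finrank_inf_eq (csp P S) (csp P T)
  have h2 : finrank F (csp P (S ∩ T)) ≤ finrank F ↥(csp P S ⊓ csp P T) :=
    Submodule.finrank_mono (le_inf (csp_mono P inter_subset_left) (csp_mono P inter_subset_right))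
  omega

theorem le_cdim (P : E → Matrix ι ι F) (hc : Fintype.card ι ≤ cdim P univ) (X : Finset E) :
    Fintype.card ι ≤ cdim P X + cdim P Xᶜ := by
  have h := cdim_submod P X Xᶜ
  rw [Finset.union_compl] at h
  omega

theorem sdiff_le (c : Finset E → ℕ) (n w : ℕ)
    (hsub : ∀ S T, c (S ∩ T) + c (S ∪ T) ≤ c S + c T) (hn : ∀ X, n ≤ c X + c Xᶜ)
    (A B : Finset E) (hA : c A + c Aᶜ ≤ n + w) (hB : c B + c Bᶜ ≤ n + w) :
    c (A \ B) + c (A \ B)ᶜ ≤ n + 2 * w := by
  have h1 := hsub A Bᶜ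
  have h2 := hsub Aᶜ B
  have h3 := hn (A ∪ Bᶜ)
  have e1 : A \ B = A ∩ Bᶜ := by rw [sdiff_eq_inter_compl]
  have e2 : (A ∩ Bᶜ)ᶜ = Aᶜ ∪ B := by rw [compl_inter, compl_compl]
  have e3 : (A ∪ Bᶜ)ᶜ = Aᶜ ∩ B := by rw [compl_union, compl_compl]
  rw [e1, e2]
  rw [e3] at h3
  omega

theorem cut_sdiff (P : E → Matrix ι ι F) (w : ℕ) (hc : Fintype.card ι ≤ cdim P univ)
    (hr : Fintype.card ι ≤ rdim P univ) {A B : Finset E} (hA : Cut P w A) (hB : Cut P w B) :
    Cut P (2 * w) (A \ B) := by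
  constructor
  · exact sdiff_le (cdim P) _ w (cdim_submod P) (le_cdim P hc) A B hA.1 hB.1
  · exact sdiff_le (rdim P) _ w (cdim_submod _) (le_cdim _ hr) A B hA.2 hB.2

theorem sep_of_good {P : E → Matrix ι ι F} {wild : E → Prop} {w : ℕ} (t : BT E)
    (hg : Good P wild w t) (hne : t.leaves ≠ []) : Sep P wild w t.leaves := by
  cases t with
  | nil => exact absurd rfl hne
  | leaf p => exact hg
  | node l r => exact hg.2.2

/-- the number of leaves in `Q` -/
def cnt (Q : Finset E) (t : BT E) : ℕ := t.leaves.countP fun p => decide (p ∈ Q)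

theorem not_mem_of_cnt_eq_zero {Q : Finset E} {t : BT E} (h : cnt Q t = 0) {q : E}
    (hq : q ∈ Q) : q ∉ t.leaves := by
  intro hqt
  have := List.countP_eq_zero.1 h q hqt
  simp [hq] at this

theorem leaves_ne_nil {Q : Finset E} {t : BT E} (h : 1 ≤ cnt Q t) : t.leaves ≠ [] := by
  intro h0
  unfold cnt at h
  rw [h0] at h
  simp at h

theorem tree_aux (P : E → Matrix ι ι F) (wild : E → Prop) (w : ℕ) (Q : Finset E)
    (hQ : ∀ p ∈ Q, wild p) (hc : Fintype.card ι ≤ cdim P univ)
    (hr : Fintype.card ι ≤ rdim P univ) (t : BT E) : Good P wild w t →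
    (∀ p ∈ t.leaves, wild p) → 1 ≤ cnt Q t →
    ∃ (L : List (Finset E)) (B : Finset E), L.length + 2 ≤ 2 * cnt Q t ∧
      (∀ C ∈ L, Cut P (2 * w) C ∧ Disjoint C Q) ∧ Cut P w B ∧
      (∀ p, wild p → p ∈ B → p ∈ t.leaves) ∧ (∀ q ∈ Q, q ∈ t.leaves → q ∈ B) ∧
      (∀ p ∈ t.leaves, p ∈ B → p ∉ Q → ∃ C ∈ L, p ∈ C) := by
  induction t with
  | nil =>
    intro _ _ h
    simp [cnt, BT.leaves] at h
  | leaf p =>
    intro hg hw h
    obtain ⟨B, hB, hcut⟩ := hg
    refine ⟨[], B, ?_, by simp, hcut, fun q hq hqB => (hB q hq).1 hqB,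
      fun q hq hqt => (hB q (hQ q hq)).2 hqt, ?_⟩
    · simp only [List.length_nil]
      omega
    · intro q hq hqB hqQ
      exfalso
      simp only [BT.leaves, List.mem_singleton] at hq
      subst hq
      have h' := List.countP_pos_iff.1 (show 0 < cnt Q (BT.leaf q) from h)
      obtain ⟨a, ha, ha'⟩ := h'
      simp only [BT.leaves, List.mem_singleton] at ha
      subst ha
      exact hqQ (by simpa using ha')
  | node l r ihl ihr =>
    intro hg hw h
    obtain ⟨hgl, hgr, C, hC, hCcut⟩ := hg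
    have hleaf : (BT.node l r).leaves = l.leaves ++ r.leaves := rfl
    have hcnt : cnt Q (BT.node l r) = cnt Q l + cnt Q r := by
      unfold cnt
      rw [hleaf, List.countP_append]
    have hwl : ∀ p ∈ l.leaves, wild p := fun p hp => hw p (by
      rw [hleaf]; exact List.mem_append_left _ hp)
    have hwr : ∀ p ∈ r.leaves, wild p := fun p hp => hw p (by
      rw [hleaf]; exact List.mem_append_right _ hp)
    by_cases hl0 : cnt Q l = 0
    · have hr1 : 1 ≤ cnt Q r := by omega
      obtain ⟨L, B, h1, h2, h3, h4, h5, h6⟩ := ihr hgr hwr hr1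
      refine ⟨L, B, by omega, h2, h3, fun p hp hpB => ?_, fun q hq hqt => ?_,
        fun p hpt hpB hpQ => ?_⟩
      · rw [hleaf]
        exact List.mem_append_right _ (h4 p hp hpB)
      · rw [hleaf, List.mem_append] at hqt
        rcases hqt with hqt | hqt
        · exact absurd hqt (not_mem_of_cnt_eq_zero hl0 hq)
        · exact h5 q hq hqt
      · exact h6 p (h4 p (hw p hpt) hpB) hpB hpQ
    by_cases hr0 : cnt Q r = 0
    · have hl1 : 1 ≤ cnt Q l := by omega
      obtain ⟨L, B, h1, h2, h3, h4, h5, h6⟩ := ihl hgl hwl hl1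
      refine ⟨L, B, by omega, h2, h3, fun p hp hpB => ?_, fun q hq hqt => ?_,
        fun p hpt hpB hpQ => ?_⟩
      · rw [hleaf]
        exact List.mem_append_left _ (h4 p hp hpB)
      · rw [hleaf, List.mem_append] at hqt
        rcases hqt with hqt | hqt
        · exact h5 q hq hqt
        · exact absurd hqt (not_mem_of_cnt_eq_zero hr0 hq)
      · exact h6 p (h4 p (hw p hpt) hpB) hpB hpQ
    have hl1 : 1 ≤ cnt Q l := by omega
    have hr1 : 1 ≤ cnt Q r := by omega
    obtain ⟨L, B, h1, h2, h3, h4, h5, h6⟩ := ihl hgl hwl hl1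
    obtain ⟨L', B', h1', h2', h3', h4', h5', h6'⟩ := ihr hgr hwr hr1
    obtain ⟨A, hA, hAcut⟩ := sep_of_good l hgl (leaves_ne_nil hl1)
    obtain ⟨A', hA', hAcut'⟩ := sep_of_good r hgr (leaves_ne_nil hr1)
    refine ⟨L ++ (L' ++ [A \ B, A' \ B']), C, ?_, ?_, hCcut, fun p hp hpC => (hC p hp).1 hpC,
      fun q hq hqt => (hC q (hQ q hq)).2 hqt, ?_⟩
    · simp only [List.length_append, List.length_cons, List.length_nil]
      omega
    · intro X hX
      simp only [List.mem_append, List.mem_cons, List.not_mem_nil, or_false] at hX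
      rcases hX with hX | hX | hX | hX
      · exact h2 X hX
      · exact h2' X hX
      · subst hX
        refine ⟨cut_sdiff P w hc hr hAcut h3, ?_⟩
        rw [Finset.disjoint_left]
        intro q hq hqQ
        rw [Finset.mem_sdiff] at hq
        exact hq.2 (h5 q hqQ ((hA q (hQ q hqQ)).1 hq.1))
      · subst hX
        refine ⟨cut_sdiff P w hc hr hAcut' h3', ?_⟩
        rw [Finset.disjoint_left]
        intro q hq hqQ
        rw [Finset.mem_sdiff] at hq
        exact hq.2 (h5' q hqQ ((hA' q (hQ q hqQ)).1 hq.1))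
    · intro p hpt hpC hpQ
      rw [hleaf, List.mem_append] at hpt
      rcases hpt with hpt | hpt
      · by_cases hpB : p ∈ B
        · obtain ⟨X, hX, hpX⟩ := h6 p hpt hpB hpQ
          exact ⟨X, List.mem_append_left _ hX, hpX⟩
        · refine ⟨A \ B, ?_, ?_⟩
          · simp
          · rw [Finset.mem_sdiff]
            exact ⟨(hA p (hwl p hpt)).2 hpt, hpB⟩
      · by_cases hpB : p ∈ B'
        · obtain ⟨X, hX, hpX⟩ := h6' p hpt hpB hpQ
          exact ⟨X, List.mem_append_right _ (List.mem_append_left _ hX), hpX⟩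
        · refine ⟨A' \ B', ?_, ?_⟩
          · simp
          · rw [Finset.mem_sdiff]
            exact ⟨(hA' p (hwr p hpt)).2 hpt, hpB⟩

theorem cheap_of_list (P : E → Matrix ι ι F) (wild : E → Prop) (Q : Finset E) (w N : ℕ)
    (L : List (Finset E)) (hL : ∀ C ∈ L, Cut P w C ∧ Disjoint C Q)
    (hcov : ∀ p, wild p → p ∉ Q → ∃ C ∈ L, p ∈ C) (hN : L.length * w ^ 2 ≤ N) :
    Cheap P wild Q N := by
  refine ⟨L.length, fun j => L.get j, fun _ => w, fun j => (hL _ (List.get_mem L j)).1,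
    fun j => (hL _ (List.get_mem L j)).2, fun p hp hpQ => ?_, ?_⟩
  · obtain ⟨C, hC, hpC⟩ := hcov p hp hpQ
    obtain ⟨j, hj⟩ := List.get_of_mem hC
    refine ⟨j, ?_⟩
    change p ∈ L.get j
    rw [hj]
    exact hpC
  · simp only [Finset.sum_const, Finset.card_univ, Fintype.card_fin, smul_eq_mul]
    exact hN

end Sub

end Pool.Agent.Lib.MP_64d474_lc.Kal.Tree

namespace Pool.Agent.Lib.MP_64d474_lc.Kal

theorem stTree.{u} : StTree.{u} := by
  intro F _ ι E _ _ _ P wild w t hg hnd hleaf hc hr Q hQ hQ1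
  have hwt : ∀ p ∈ t.leaves, wild p := fun p hp => (hleaf p).1 hp
  -- the number of leaves in `Q`
  have hcntQ : Tree.cnt Q t = Q.card := by
    unfold Tree.cnt
    rw [List.countP_eq_length_filter]
    have hnd' : (t.leaves.filter fun p => decide (p ∈ Q)).Nodup := hnd.filter _
    rw [← List.toFinset_card_of_nodup hnd']
    congr 1
    ext q
    simp only [List.mem_toFinset, List.mem_filter, decide_eq_true_eq]
    exact ⟨fun h => h.2, fun h => ⟨(hleaf q).2 (hQ q h), h⟩⟩
  have h1 : 1 ≤ Tree.cnt Q t := by omega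
  obtain ⟨L, B, h2, h3, h4, h5, h6, h7⟩ := Tree.tree_aux P wild w Q hQ hc hr t hg hwt h1
  obtain ⟨A, hA, hAcut⟩ := Tree.sep_of_good t hg (Tree.leaves_ne_nil h1)
  refine Tree.cheap_of_list P wild Q (2 * w) _ (L ++ [A \ B]) ?_ ?_ ?_
  · intro X hX
    simp only [List.mem_append, List.mem_cons, List.not_mem_nil, or_false] at hX
    rcases hX with hX | hX
    · exact h3 X hX
    · subst hX
      refine ⟨Tree.cut_sdiff P w hc hr hAcut h4, ?_⟩
      rw [Finset.disjoint_left]
      intro q hq hqQ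
      rw [Finset.mem_sdiff] at hq
      exact hq.2 (h6 q hqQ ((hA q (hQ q hqQ)).1 hq.1))
  · intro p hp hpQ
    have hpt := (hleaf p).2 hp
    by_cases hpB : p ∈ B
    · obtain ⟨X, hX, hpX⟩ := h7 p hpt hpB hpQ
      exact ⟨X, List.mem_append_left _ hX, hpX⟩
    · refine ⟨A \ B, by simp, ?_⟩
      rw [Finset.mem_sdiff]
      exact ⟨(hA p hp).2 hpt, hpB⟩
  · simp only [List.length_append, List.length_cons, List.length_nil]
    rw [hcntQ] at h2
    have h8 : L.length + (0 + 1) ≤ 2 * Q.card - 1 := by omega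
    calc (L.length + (0 + 1)) * (2 * w) ^ 2 ≤ (2 * Q.card - 1) * (2 * w) ^ 2 :=
          Nat.mul_le_mul_right _ h8
      _ = 4 * w ^ 2 * (2 * Q.card - 1) := by ring

end Pool.Agent.Lib.MP_64d474_lc.Kal
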