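import Pool.Agent.Lib.MP_64d474_lc.Kal.ValDefs
import Pool.Agent.Lib.MP_64d474_lc.Kal.MainC

/-!
# Points at which a formula is defined and does not vanish
-/

set_option autoImplicit false

open Finset MvPolynomial

namespace Pool.Agent.Lib.MP_64d474_lc.Kal

namespace Fm

variable {F : Type*} [Field F] {m : ℕ}

omit [Field F] in
theorem sum_occ (φ : Fm F m) : ∑ k, φ.occ k = φ.leaves := by
  induction φ with
  | const c => simp [occ, leaves]
  | var k => simp [occ, leaves]
  | add a b ha hb => simp only [occ, leaves, sum_add_distrib, ha, hb]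
  | mul a b ha hb => simp only [occ, leaves, sum_add_distrib, ha, hb]
  | inv a ha => simpa only [occ, leaves] using ha

/-- the product of the numerators of the arguments of the inversion gates -/
noncomputable def args : Fm F m → MvPolynomial (Fin m) F
  | .const _ => 1
  | .var _ => 1
  | .add a b => a.args * b.args
  | .mul a b => a.args * b.args
  | .inv a => a.args * a.nd.1

theorem den_ne_zero (x : Fin m → F) (φ : Fm F m) (h : eval x φ.args ≠ 0) :
    eval x φ.nd.2 ≠ 0 := by
  induction φ with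
  | const c => simp [nd]
  | var k => simp [nd]
  | add a b ha hb =>
    simp only [args, map_mul] at h
    simp only [nd, map_mul]
    exact mul_ne_zero (ha (left_ne_zero_of_mul h)) (hb (right_ne_zero_of_mul h))
  | mul a b ha hb =>
    simp only [args, map_mul] at h
    simp only [nd, map_mul]
    exact mul_ne_zero (ha (left_ne_zero_of_mul h)) (hb (right_ne_zero_of_mul h))
  | inv a ha =>
    simp only [args, map_mul] at h
    exact right_ne_zero_of_mul h

theorem val_of_args (x : Fin m → F) (φ : Fm F m) (h : eval x φ.args ≠ 0) :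
    Val x φ (eval x φ.nd.1 / eval x φ.nd.2) := by
  induction φ with
  | const c => simpa [nd] using Val.const (x := x) c
  | var k => simpa [nd] using Val.var (x := x) k
  | add a b ha hb =>
    simp only [args, map_mul] at h
    have h1 := left_ne_zero_of_mul h
    have h2 := right_ne_zero_of_mul h
    have d1 := den_ne_zero x a h1
    have d2 := den_ne_zero x b h2
    have h3 := Val.add (ha h1) (hb h2)
    rw [div_add_div _ _ d1 d2] at h3
    simp only [nd, map_mul, map_add]
    rwa [mul_comm (eval x a.nd.2) (eval x b.nd.1)] at h3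
  | mul a b ha hb =>
    simp only [args, map_mul] at h
    have h1 := left_ne_zero_of_mul h
    have h2 := right_ne_zero_of_mul h
    have h3 := Val.mul (ha h1) (hb h2)
    rw [div_mul_div_comm] at h3
    simp only [nd, map_mul]
    exact h3
  | inv a ha =>
    simp only [args, map_mul] at h
    have h1 := left_ne_zero_of_mul h
    have h2 := right_ne_zero_of_mul h
    have h3 := Val.inv (ha h1) (div_ne_zero h2 (den_ne_zero x a h1))
    rw [inv_div] at h3
    exact h3

theorem args_of_val (x : Fin m → F) (φ : Fm F m) (v : F) (h : Val x φ v) :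
    eval x φ.args ≠ 0 ∧ v = eval x φ.nd.1 / eval x φ.nd.2 := by
  induction h with
  | const c => simp [args, nd]
  | var k => simp [args, nd]
  | @add a b u v _ _ ha hb =>
    obtain ⟨h1, h2⟩ := ha
    obtain ⟨h3, h4⟩ := hb
    refine ⟨by simpa only [args, map_mul] using mul_ne_zero h1 h3, ?_⟩
    rw [h2, h4, div_add_div _ _ (den_ne_zero x a h1) (den_ne_zero x b h3)]
    simp only [nd, map_mul, map_add]
    rw [mul_comm (eval x a.nd.2) (eval x b.nd.1)]
  | @mul a b u v _ _ ha hb =>
    obtain ⟨h1, h2⟩ := ha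
    obtain ⟨h3, h4⟩ := hb
    refine ⟨by simpa only [args, map_mul] using mul_ne_zero h1 h3, ?_⟩
    rw [h2, h4, div_mul_div_comm]
    simp only [nd, map_mul]
  | @inv a u _ hu ha =>
    obtain ⟨h1, h2⟩ := ha
    have h3 : eval x a.nd.1 ≠ 0 := by
      intro h0
      apply hu
      rw [h2, h0, zero_div]
    refine ⟨by simpa only [args, map_mul] using mul_ne_zero h1 h3, ?_⟩
    rw [h2, inv_div]
    rfl

theorem degree_args.{u} (h17 : StDegF.{u}) {F : Type u} [Field F] {m : ℕ} (φ : Fm F m) :
    φ.args.totalDegree ≤ φ.invs * ∑ k, φ.occ k := by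
  induction φ with
  | const c => simp [args]
  | var k => simp [args]
  | add a b ha hb =>
    simp only [args, invs, occ, sum_add_distrib]
    refine (totalDegree_mul _ _).trans ((Nat.add_le_add ha hb).trans ?_)
    nlinarith [Nat.zero_le (a.invs * ∑ k, b.occ k), Nat.zero_le (b.invs * ∑ k, a.occ k)]
  | mul a b ha hb =>
    simp only [args, invs, occ, sum_add_distrib]
    refine (totalDegree_mul _ _).trans ((Nat.add_le_add ha hb).trans ?_)
    nlinarith [Nat.zero_le (a.invs * ∑ k, b.occ k), Nat.zero_le (b.invs * ∑ k, a.occ k)]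
  | inv a ha =>
    simp only [args, invs, occ]
    refine (totalDegree_mul _ _).trans ?_
    have h1 := (h17 F m a).1
    rw [Nat.add_mul, one_mul]
    exact Nat.add_le_add ha h1

end Fm

/-- balanced classes stay balanced if there are fewer occurrences -/
theorem bal_mono {m β : ℕ} (b : Fin m → Fin β) (a a' : Fin m → ℕ) (h : ∀ k, a' k ≤ a k) (R : ℕ)
    (i : Fin β) (hb : (univ.filter fun k => b k = i ∧ a k ≠ 0).card ≤ 1 ∨
        ∑ k ∈ univ.filter (fun k => b k = i), a k + 1 ≤ 2 * R) :
    (univ.filter fun k => b k = i ∧ a' k ≠ 0).card ≤ 1 ∨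
        ∑ k ∈ univ.filter (fun k => b k = i), a' k + 1 ≤ 2 * R := by
  rcases hb with hb | hb
  · left
    refine (card_le_card fun k hk => ?_).trans hb
    rw [mem_filter] at hk ⊢
    refine ⟨hk.1, hk.2.1, ?_⟩
    have := h k
    have := hk.2.2
    omega
  · right
    have : ∑ k ∈ univ.filter (fun k => b k = i), a' k ≤
        ∑ k ∈ univ.filter (fun k => b k = i), a k := sum_le_sum fun k _ => h k
    omega

theorem mainVal.{u} (hT : StMainTree.{u}) (h9 : StBal) (h12 : StGrid.{u}) (h13 : StBoth.{u})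
    (h16 : StNet.{u}) (h17 : StDegF.{u}) (F : Type u) [Field F] [CharZero F] (m : ℕ)
    (φ : Fm F m) (s g R β N D : ℕ) (hs : φ.leaves ≤ s) (hg : φ.invs ≤ g) (hR : 1 ≤ R)
    (hβ : 2 * (s / R) + 2 ≤ β) (hN : 18 * R ≤ N) (hD : s * (g + 1) ≤ D) (x : Fin m → F) (v : F)
    (hv : φ.Val x v) (hv0 : v ≠ 0) :
    ∃ h ∈ hits m β N D, ∃ v : F, φ.Val (fun k => (h k : F)) v ∧ v ≠ 0 := by
  classical
  rw [← Fm.sum_occ] at hs
  obtain ⟨b, hbm, hb⟩ := exists_bal h9 (fun k => φ.occ k) hR hs hβ
  -- single numerators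
  have key : ∀ ψ : Fm F m, (∀ k, ψ.occ k ≤ φ.occ k) → ∀ x, eval x ψ.nd.2 ≠ 0 →
      ∃ (z : Fin N → F) (y : Fin β → F), eval (gen b z y) ψ.nd.2 ≠ 0 := by
    intro ψ hocc x hx
    obtain ⟨ι, E, _, _, _, _, P, κ, t, hdet, hgood, hnd, hleaf, hcnt⟩ := h16 F m ψ
    obtain ⟨z, y, hzy⟩ := hT F ι E P m κ t 1 R β N hgood hnd hleaf le_rfl hR
      (by simpa using hN) b (fun i => class_of_count κ b (fun k => ψ.occ k) hcnt R i
        (bal_mono b _ _ hocc R i (hb i))) x (by rw [hdet]; exact hx)
    exact ⟨z, y, by rwa [hdet] at hzy⟩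
  -- products of numerators
  have key2 : ∀ ψ : Fm F m, (∀ k, ψ.occ k ≤ φ.occ k) → ∀ x, eval x ψ.args ≠ 0 →
      ∃ (z : Fin N → F) (y : Fin β → F), eval (gen b z y) ψ.args ≠ 0 := by
    intro ψ
    induction ψ with
    | const c => exact fun _ x hx => ⟨0, 0, by simp [Fm.args]⟩
    | var k => exact fun _ x hx => ⟨0, 0, by simp [Fm.args]⟩
    | add a c iha ihc =>
      intro hocc x hx
      simp only [Fm.args, map_mul] at hx
      have ha := iha (fun k => (Nat.le_add_right _ _).trans (hocc k)) x (left_ne_zero_of_mul hx)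
      have hc := ihc (fun k => (Nat.le_add_left _ _).trans (hocc k)) x (right_ne_zero_of_mul hx)
      exact h13 F m β N b _ _ ha hc
    | mul a c iha ihc =>
      intro hocc x hx
      simp only [Fm.args, map_mul] at hx
      have ha := iha (fun k => (Nat.le_add_right _ _).trans (hocc k)) x (left_ne_zero_of_mul hx)
      have hc := ihc (fun k => (Nat.le_add_left _ _).trans (hocc k)) x (right_ne_zero_of_mul hx)
      exact h13 F m β N b _ _ ha hc
    | inv a iha =>
      intro hocc x hx
      simp only [Fm.args, map_mul] at hx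
      have ha := iha hocc x (left_ne_zero_of_mul hx)
      have hc := key (Fm.inv a) hocc x (right_ne_zero_of_mul hx)
      exact h13 F m β N b _ _ ha hc
  obtain ⟨a1, a2⟩ := Fm.args_of_val x φ v hv
  have a3 : eval x φ.nd.1 ≠ 0 := by
    intro h0
    apply hv0
    rw [a2, h0, zero_div]
  have k1 := key2 (Fm.inv φ) (fun _ => le_rfl) x
    (by simpa only [Fm.args, map_mul] using mul_ne_zero a1 a3)
  have hdeg : (Fm.inv φ).args.totalDegree ≤ D := by
    refine (Fm.degree_args h17 (Fm.inv φ)).trans (le_trans ?_ hD)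
    rw [mul_comm]
    exact Nat.mul_le_mul hs (Nat.succ_le_succ hg)
  obtain ⟨z, y, hz, hy, hev⟩ := h12 F m β N D b _ hdeg k1
  refine ⟨gen b z y, mem_hits b hbm z y hz hy, ?_⟩
  simp only [Fm.args, map_mul] at hev
  have e1 := left_ne_zero_of_mul hev
  have e2 := right_ne_zero_of_mul hev
  exact ⟨_, Fm.val_of_args _ φ e1, div_ne_zero e2 (Fm.den_ne_zero _ φ e1)⟩

theorem sqrt_div (s : ℕ) : s / (Nat.sqrt s + 1) ≤ Nat.sqrt s := by
  have h : s < (Nat.sqrt s + 1) * (Nat.sqrt s + 1) := Nat.lt_succ_sqrt s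
  exact Nat.lt_succ_iff.1 (Nat.div_lt_of_lt_mul h)

theorem card_formulaTests (hC : StCard) (m s g : ℕ) :
    (formulaTests m s g).card ≤ ((m + 1) ^ 2 * (s * (g + 1) + 2) ^ 26) ^ (Nat.sqrt s + 1) := by
  unfold formulaTests
  refine (hC _ _ _ _).1.trans ?_
  set r := Nat.sqrt s with hr
  set D := s * (g + 1) with hD
  have hrs : r ≤ D := by
    rw [hr, hD]
    exact (Nat.sqrt_le_self s).trans (Nat.le_mul_of_pos_right _ (Nat.succ_pos _))
  have e1 : (18 * r + 18) * D + 1 ≤ (D + 2) ^ 4 := by
    have h1 : (18 * r + 18) * D ≤ (18 * D + 18) * D := Nat.mul_le_mul_right _ (by omega)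
    have h2 : (18 * D + 18) * D + 1 ≤ (D + 2) ^ 4 := by
      rcases Nat.eq_zero_or_pos D with h0 | h0
      · rw [h0]
        norm_num
      · have h3 : D * D ≤ D * D * (D * D) := Nat.le_mul_of_pos_right _ (Nat.mul_pos h0 h0)
        have h4 : D ≤ D * D := Nat.le_mul_of_pos_right _ h0
        have h5 : D * D ≤ D * D * D := Nat.le_mul_of_pos_right _ h0
        have e : (D + 2) ^ 4 = D * D * (D * D) + 8 * (D * D * D) + 24 * (D * D) + 32 * D + 16 := by
          ring
        rw [e]
        have e' : (18 * D + 18) * D + 1 = 18 * (D * D) + 18 * D + 1 := by ring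
        rw [e']
        omega
    omega
  calc (m + 1) ^ (2 * r + 2) * (D + 1) ^ (18 * r + 18) * ((18 * r + 18) * D + 1) ^ (2 * r + 2)
      ≤ (m + 1) ^ (2 * r + 2) * (D + 2) ^ (18 * r + 18) * ((D + 2) ^ 4) ^ (2 * r + 2) :=
        Nat.mul_le_mul (Nat.mul_le_mul_left _ (Nat.pow_le_pow_left (by omega) _))
          (Nat.pow_le_pow_left e1 _)
    _ = ((m + 1) ^ 2 * (D + 2) ^ 26) ^ (r + 1) := by
        rw [mul_pow, ← pow_mul, ← pow_mul, ← pow_mul, mul_assoc, ← pow_add]
        congr 2
        · ring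

end Pool.Agent.Lib.MP_64d474_lc.Kal
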