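import Pool.Agent.Lib.MP_64d474_lc.Kal.Defs

/-!
# The values of arithmetic formulas at points
-/

set_option autoImplicit false

open Finset MvPolynomial

namespace Pool.Agent.Lib.MP_64d474_lc.Kal

namespace Fm

variable {F : Type*} [Field F] {m : ℕ}

/-- `Val x φ v`: the formula `φ` can be evaluated at the point `x`, that is, no gate of `φ` inverts
zero there, and `v` is its value -/
inductive Val (x : Fin m → F) : Fm F m → F → Prop
  | const (c : F) : Val x (.const c) c
  | var (k : Fin m) : Val x (.var k) (x k)
  | add {a b : Fm F m} {u v : F} (ha : Val x a u) (hb : Val x b v) : Val x (.add a b) (u + v)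
  | mul {a b : Fm F m} {u v : F} (ha : Val x a u) (hb : Val x b v) : Val x (.mul a b) (u * v)
  | inv {a : Fm F m} {u : F} (ha : Val x a u) (hu : u ≠ 0) : Val x (.inv a) u⁻¹

/-- the number of inversion gates -/
def invs : Fm F m → ℕ
  | .const _ => 0
  | .var _ => 0
  | .add a b => a.invs + b.invs
  | .mul a b => a.invs + b.invs
  | .inv a => a.invs + 1

/-- the number of leaves with variables -/
def leaves : Fm F m → ℕ
  | .const _ => 0
  | .var _ => 1
  | .add a b => a.leaves + b.leaves
  | .mul a b => a.leaves + b.leaves
  | .inv a => a.leaves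

end Fm

/-- the points for formulas with `s` leaves with variables and `g` inversion gates -/
noncomputable def formulaTests (m s g : ℕ) : Finset (Fin m → ℕ) :=
  hits m (2 * Nat.sqrt s + 2) (18 * Nat.sqrt s + 18) (s * (g + 1))

end Pool.Agent.Lib.MP_64d474_lc.Kal
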