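import Pool.Agent.Lib.MP_64d474_lc.Kal.Stmts

/-!
# KAL-1: generalized Vandermonde determinants
-/

set_option autoImplicit false

open Finset Module Matrix Polynomial

namespace Pool.Agent.Lib.MP_64d474_lc.Kal

namespace Vander

theorem signVariations_le (n : ℕ) : ∀ P : ℝ[X], P.support.card = n + 1 →
    P.signVariations ≤ n := by
  induction n with
  | zero =>
    intro P hP
    obtain ⟨k, x, hx, rfl⟩ := card_support_eq_one.1 hP
    rw [C_mul_X_pow_eq_monomial, signVariations_monomial]
  | succ n ih =>
    intro P hP
    have h1 := ih P.eraseLead (card_support_eraseLead' hP)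
    have h2 := signVariations_le_eraseLead_succ (P := P)
    omega

theorem real (b : ℕ) (τ e : Fin b → ℕ) (hτ : Function.Injective τ) (hpos : ∀ a, 0 < τ a)
    (he : Function.Injective e) :
    (Matrix.of fun a l : Fin b => ((τ a : ℕ) : ℝ) ^ e l).det ≠ 0 := by
  intro hdet
  obtain ⟨v, hv, hMv⟩ := Matrix.exists_mulVec_eq_zero_iff.2 hdet
  obtain ⟨l₀, hl₀⟩ : ∃ l, v l ≠ 0 := by
    by_contra hcon
    push Not at hcon
    exact hv (funext hcon)
  set p : ℝ[X] := ∑ l, monomial (e l) (v l) with hp
  have hcoeff : ∀ l, p.coeff (e l) = v l := by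
    intro l
    rw [hp, finsetSum_coeff, Finset.sum_eq_single l]
    · rw [coeff_monomial, if_pos rfl]
    · intro l' _ hl'
      rw [coeff_monomial, if_neg fun h => hl' (he h)]
    · intro h
      exact absurd (Finset.mem_univ l) h
  have hp0 : p ≠ 0 := by
    intro h
    apply hl₀
    rw [← hcoeff l₀, h, coeff_zero]
  have hroot : ∀ a, p.eval ((τ a : ℕ) : ℝ) = 0 := by
    intro a
    rw [hp, eval_finsetSum]
    have h1 := congrFun hMv a
    rw [Matrix.mulVec, dotProduct, Pi.zero_apply] at h1
    rw [← h1]
    refine Finset.sum_congr rfl fun l _ => ?_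
    rw [eval_monomial, Matrix.of_apply, mul_comm]
  have hsupp : p.support.card ≤ b := by
    have h1 : p.support ⊆ Finset.univ.image e := by
      intro k hk
      by_contra hcon
      have hk' := mem_support_iff.1 hk
      apply hk'
      rw [hp, finsetSum_coeff]
      refine Finset.sum_eq_zero fun l _ => ?_
      rw [coeff_monomial, if_neg]
      rintro rfl
      exact hcon (Finset.mem_image_of_mem e (Finset.mem_univ l))
    have h2 := (Finset.card_le_card h1).trans Finset.card_image_le
    rwa [Finset.card_univ, Fintype.card_fin] at h2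
  have hcard : p.support.card ≠ 0 := by
    intro h
    exact hp0 (support_eq_empty.1 (Finset.card_eq_zero.1 h))
  have hsv : p.signVariations ≤ p.support.card - 1 :=
    signVariations_le _ p (by omega)
  have hcount := roots_countP_pos_le_signVariations p
  have hge : b ≤ p.roots.countP (0 < ·) := by
    have h1 : (Finset.univ.image fun a => ((τ a : ℕ) : ℝ)) ⊆
        (p.roots.filter (0 < ·)).toFinset := by
      intro x hx
      obtain ⟨a, -, rfl⟩ := Finset.mem_image.1 hx
      rw [Multiset.mem_toFinset, Multiset.mem_filter, mem_roots hp0]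
      exact ⟨hroot a, by exact_mod_cast hpos a⟩
    have h2 : (Finset.univ.image fun a => ((τ a : ℕ) : ℝ)).card = b := by
      rw [Finset.card_image_of_injective, Finset.card_univ, Fintype.card_fin]
      intro a a' h
      exact hτ (Nat.cast_injective h)
    rw [Multiset.countP_eq_card_filter, ← h2]
    exact (Finset.card_le_card h1).trans (Multiset.toFinset_card_le _)
  omega

end Vander

theorem stVander.{u} : StVander.{u} := by
  intro L _ _ b τ e hτ hpos he
  have h0 := Vander.real b τ e hτ hpos he
  set Mz : Matrix (Fin b) (Fin b) ℤ := Matrix.of fun a l : Fin b => ((τ a : ℕ) : ℤ) ^ e l with hMz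
  have hR : (Matrix.of fun a l : Fin b => ((τ a : ℕ) : ℝ) ^ e l).det =
      (Int.castRingHom ℝ) Mz.det := by
    rw [RingHom.map_det]
    congr 1
    ext a l
    simp [hMz, RingHom.mapMatrix_apply]
  have hL : (Matrix.of fun a l : Fin b => ((τ a : ℕ) : L) ^ e l).det =
      (Int.castRingHom L) Mz.det := by
    rw [RingHom.map_det]
    congr 1
    ext a l
    simp [hMz, RingHom.mapMatrix_apply]
  have hz : Mz.det ≠ 0 := by
    intro h
    apply h0
    rw [hR, h, map_zero]
  rw [hL]
  change ((Mz.det : ℤ) : L) ≠ 0
  exact_mod_cast hz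

end Pool.Agent.Lib.MP_64d474_lc.Kal
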